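import Mathlib

/-!
# Change of variables for coordinatewise maps of `Fin n → ℝ`
-/

namespace MPe6d203

open MeasureTheory Set Filter Topology
open scoped ENNReal

/-- Change of variables for a coordinatewise map. -/
theorem lintegral_coord {n : ℕ} (φ φ' : Fin n → ℝ → ℝ) {s : Set (Fin n → ℝ)}
    (hs : MeasurableSet s)
    (hφ : ∀ u ∈ s, ∀ i, HasDerivAt (φ i) (φ' i (u i)) (u i))
    (hinj : InjOn (fun u : Fin n → ℝ => fun i => φ i (u i)) s)
    (f : (Fin n → ℝ) → ℝ≥0∞) :
    ∫⁻ x in (fun u : Fin n → ℝ => fun i => φ i (u i)) '' s, f x =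
      ∫⁻ u in s, ENNReal.ofReal |∏ i, φ' i (u i)| * f (fun i => φ i (u i)) := by
  have h := lintegral_image_eq_lintegral_abs_det_fderiv_mul (volume : Measure (Fin n → ℝ)) hs
    (f := fun u : Fin n → ℝ => fun i => φ i (u i))
    (f' := fun u => ContinuousLinearMap.pi fun i =>
      (ContinuousLinearMap.toSpanSingleton ℝ (φ' i (u i))).comp (ContinuousLinearMap.proj i))
    (fun u hu => by
      apply HasFDerivAt.hasFDerivWithinAt
      rw [hasFDerivAt_pi]
      intro i
      have h1 : HasFDerivAt (fun u : Fin n → ℝ => u i)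
        (ContinuousLinearMap.proj (R := ℝ) (φ := fun _ : Fin n => ℝ) i) u :=
        (ContinuousLinearMap.proj (R := ℝ) (φ := fun _ : Fin n => ℝ) i).hasFDerivAt
      exact (hφ u hu i).hasFDerivAt.comp u h1) hinj f
  rw [h]
  refine lintegral_congr fun u => ?_
  rw [ContinuousLinearMap.det_pi]
  simp
  
end MPe6d203
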