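import Pool.Agent.Lib.MP_e6d203_pr.Defs
import Pool.Agent.Lib.MP_e6d203_pr.Coord

/-!
# Basic facts on the `β`-Laguerre ensemble: log-density, finiteness, transport inequality
-/

namespace MPe6d203

open MeasureTheory Set Filter Topology
open scoped ENNReal

/-- log-density -/
noncomputable def lw (β α : ℝ) {n : ℕ} (l : Fin n → ℝ) : ℝ :=
  β * (∑ i, ∑ j ∈ Finset.Ioi i, Real.log (l j - l i)) +
    ∑ i, (α * Real.log (l i) - β / 2 * l i)

/-- the exponent of `l i` -/
noncomputable def alpha (β a : ℝ) : ℝ := β / 2 * (a + 1) - 1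

theorem alpha_gt {β a : ℝ} (hβ : 0 < β) (ha : -1 < a) : -1 < alpha β a := by
  unfold alpha
  have : 0 < β / 2 * (a + 1) := by apply mul_pos <;> linarith
  linarith

theorem weight_eq_exp {β a : ℝ} {n : ℕ} {l : Fin n → ℝ} (hl : l ∈ chamber n) :
    weight β a l = Real.exp (lw β (alpha β a) l) := by
  unfold weight lw
  rw [Real.exp_add, Finset.mul_sum, Real.exp_sum, Real.exp_sum]
  congr 1
  · refine Finset.prod_congr rfl fun i _ => ?_
    rw [Finset.mul_sum, Real.exp_sum]
    refine Finset.prod_congr rfl fun j hj => ?_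
    have hij : l i < l j := hl.2 (Finset.mem_Ioi.1 hj)
    have : 0 < l j - l i := by linarith
    rw [abs_sub_comm, abs_of_pos this, Real.rpow_def_of_pos this, mul_comm]
  · refine Finset.prod_congr rfl fun i _ => ?_
    rw [Real.rpow_def_of_pos (hl.1 i), ← Real.exp_add]
    unfold alpha
    ring_nf

theorem isOpen_chamber (n : ℕ) : IsOpen (chamber n) := by
  have : chamber n = (⋂ i, {l : Fin n → ℝ | 0 < l i}) ∩
      ⋂ i, ⋂ j, {l : Fin n → ℝ | i < j → l i < l j} := by
    ext l
    simp only [chamber, mem_ofPred_eq, mem_inter_iff, mem_iInter, StrictMono]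
  rw [this]
  refine IsOpen.inter ?_ ?_
  · exact isOpen_iInter_of_finite fun i => isOpen_lt continuous_const (continuous_apply i)
  · refine isOpen_iInter_of_finite fun i => isOpen_iInter_of_finite fun j => ?_
    by_cases h : i < j
    · simp only [h, forall_const]
      exact isOpen_lt (continuous_apply i) (continuous_apply j)
    · simp [h]

theorem measurableSet_chamber (n : ℕ) : MeasurableSet (chamber n) :=
  (isOpen_chamber n).measurableSet

theorem chamber_nonempty (n : ℕ) : (chamber n).Nonempty := by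
  refine ⟨fun i => (i : ℕ) + 1, fun i => by positivity, fun i j h => ?_⟩
  have : (i : ℕ) < j := h
  have h2 : ((i : ℕ) : ℝ) < ((j : ℕ) : ℝ) := by exact_mod_cast this
  simpa using h2

@[fun_prop]
theorem measurable_weight (β a : ℝ) (n : ℕ) : Measurable (weight β a (n := n)) := by
  unfold weight
  refine Measurable.mul ?_ ?_
  · refine Finset.measurable_prod _ fun i _ => Finset.measurable_prod _ fun j _ => ?_
    fun_prop
  · refine Finset.measurable_prod _ fun i _ => ?_
    fun_prop

theorem laguerreWeight_pos (β a : ℝ) (n : ℕ) : 0 < laguerreWeight β a n univ := by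
  unfold laguerreWeight
  rw [withDensity_apply _ MeasurableSet.univ, Measure.restrict_univ]
  rw [pos_iff_ne_zero]
  intro h0
  rw [lintegral_eq_zero_iff (by fun_prop)] at h0
  have h1 : ∀ᵐ l ∂(volume.restrict (chamber n)), False := by
    filter_upwards [h0, ae_restrict_mem (measurableSet_chamber n)] with l h hl
    rw [weight_eq_exp hl] at h
    simp only [Pi.zero_apply, ENNReal.ofReal_eq_zero] at h
    exact absurd h (not_le.2 (Real.exp_pos _))
  rw [ae_iff] at h1
  simp only [not_false_eq_true, ofPred_true, Measure.restrict_apply MeasurableSet.univ,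
    univ_inter] at h1
  exact absurd h1 ((isOpen_chamber n).measure_pos volume (chamber_nonempty n)).ne'

/-- `(1+x)^q x^α e^{-b x}` is integrable on `(0, ∞)`. -/
theorem integrableOn_poly_rpow_exp {q α b : ℝ} (hq : 0 ≤ q) (hα : -1 < α) (hb : 0 < b) :
    IntegrableOn (fun x : ℝ => (1 + x) ^ q * (x ^ α * Real.exp (-b * x))) (Ioi 0) := by
  have h1 := integrableOn_rpow_mul_exp_neg_mul_rpow (s := α) (p := 1) (b := b / 2) hα one_pos
    (by positivity)
  set δ : ℝ := b / (2 * (q + b)) with hδ
  have hδ0 : 0 < δ := by positivity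
  have hδ1 : δ ≤ 1 := by
    rw [hδ, div_le_one (by positivity)]; linarith
  have hqδ : q * δ ≤ b / 2 := by
    rw [hδ, mul_div_assoc', div_le_div_iff₀ (by positivity) (by norm_num)]
    nlinarith
  refine Integrable.mono' (h1.const_mul (δ⁻¹ ^ q)) ?_ ?_
  · refine AEStronglyMeasurable.mul ?_ ?_
    · exact (by fun_prop : Measurable fun x : ℝ => (1 + x) ^ q).aestronglyMeasurable
    · exact (by fun_prop : Measurable fun x : ℝ => x ^ α * Real.exp (-b * x)).aestronglyMeasurable
  · filter_upwards [ae_restrict_mem measurableSet_Ioi] with x hx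
    have hx0 : (0:ℝ) < x := hx
    rw [Real.norm_of_nonneg (by positivity), Real.rpow_one]
    have h2 : (1 + x) ^ q ≤ δ⁻¹ ^ q * Real.exp (b / 2 * x) := by
      have h3 : 1 + x ≤ δ⁻¹ * Real.exp (δ * x) := by
        have h4 := Real.add_one_le_exp (δ * x)
        have h5 : 1 + x ≤ δ⁻¹ * (δ * x + 1) := by
          rw [mul_add, ← mul_assoc, inv_mul_cancel₀ hδ0.ne', one_mul, mul_one]
          have : 1 ≤ δ⁻¹ := (one_le_inv₀ hδ0).2 hδ1
          linarith
        exact h5.trans (mul_le_mul_of_nonneg_left h4 (by positivity))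
      calc (1 + x) ^ q ≤ (δ⁻¹ * Real.exp (δ * x)) ^ q :=
            Real.rpow_le_rpow (by positivity) h3 hq
        _ = δ⁻¹ ^ q * Real.exp (δ * x * q) := by
            rw [Real.mul_rpow (by positivity) (Real.exp_pos _).le, ← Real.exp_mul]
        _ ≤ δ⁻¹ ^ q * Real.exp (b / 2 * x) := by
            apply mul_le_mul_of_nonneg_left _ (by positivity)
            apply Real.exp_le_exp.2
            nlinarith
    calc (1 + x) ^ q * (x ^ α * Real.exp (-b * x))
        ≤ (δ⁻¹ ^ q * Real.exp (b / 2 * x)) * (x ^ α * Real.exp (-b * x)) :=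
          mul_le_mul_of_nonneg_right h2 (by positivity)
      _ = δ⁻¹ ^ q * (x ^ α * (Real.exp (b / 2 * x) * Real.exp (-b * x))) := by ring
      _ = δ⁻¹ ^ q * (x ^ α * Real.exp (-(b / 2) * x)) := by
          rw [← Real.exp_add]; ring_nf

theorem one_le_prod_real {ι : Type*} (s : Finset ι) (f : ι → ℝ) (hf : ∀ k, 1 ≤ f k) :
    1 ≤ ∏ k ∈ s, f k := by
  classical
  induction s using Finset.induction_on with
  | empty => simp
  | insert a s ha ih =>
    rw [Finset.prod_insert ha]
    have := hf a
    nlinarith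

theorem mul_le_prod {n : ℕ} (f : Fin n → ℝ) (hf : ∀ k, 1 ≤ f k) {i j : Fin n} (hij : i ≠ j) :
    f i * f j ≤ ∏ k, f k := by
  rw [← Finset.mul_prod_erase Finset.univ f (Finset.mem_univ i),
    ← Finset.mul_prod_erase (Finset.univ.erase i) f (a := j)
      (Finset.mem_erase.2 ⟨hij.symm, Finset.mem_univ j⟩), ← mul_assoc]
  have h1 : 1 ≤ ∏ k ∈ (Finset.univ.erase i).erase j, f k := one_le_prod_real _ f hf
  have h2 : 0 ≤ f i * f j := mul_nonneg (by linarith [hf i]) (by linarith [hf j])
  nlinarith

/-- number of pairs -/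
def numPairs (n : ℕ) : ℕ := ∑ i : Fin n, (Finset.Ioi i).card

theorem weight_le {β a : ℝ} (hβ : 0 < β) {n : ℕ} {l : Fin n → ℝ} (hl : l ∈ chamber n) :
    weight β a l ≤ ∏ i, ((1 + l i) ^ (β * numPairs n) *
      (l i ^ alpha β a * Real.exp (-(β / 2) * l i))) := by
  have hpos : ∀ i, 0 < l i := hl.1
  have hS : ∀ i j : Fin n, i < j → |l i - l j| ≤ ∏ k, (1 + l k) := by
    intro i j hij
    have h1 : |l i - l j| ≤ (1 + l i) * (1 + l j) := by
      have h2 := hpos i
      have h3 := hpos j
      have h4 : 0 < l i * l j := mul_pos h2 h3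
      rw [abs_le]
      constructor <;> nlinarith
    refine h1.trans ?_
    exact mul_le_prod (fun k => 1 + l k) (fun k => by have := hpos k; linarith) hij.ne
  have hSpos : 0 < ∏ k, (1 + l k) := Finset.prod_pos fun k _ => by
    have := hpos k; linarith
  have h1 : ∏ i, ∏ j ∈ Finset.Ioi i, |l i - l j| ^ β ≤ (∏ k, (1 + l k)) ^ (β * numPairs n) := by
    calc ∏ i, ∏ j ∈ Finset.Ioi i, |l i - l j| ^ β
        ≤ ∏ i : Fin n, ∏ j ∈ Finset.Ioi i, (∏ k, (1 + l k)) ^ β := by
          refine Finset.prod_le_prod (fun i _ => Finset.prod_nonneg fun j _ => by positivity)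
            fun i _ => ?_
          refine Finset.prod_le_prod (fun j _ => by positivity) fun j hj => ?_
          exact Real.rpow_le_rpow (abs_nonneg _) (hS i j (Finset.mem_Ioi.1 hj)) hβ.le
      _ = (∏ k, (1 + l k)) ^ (β * numPairs n) := by
          simp only [Finset.prod_const]
          rw [Finset.prod_pow_eq_pow_sum, Real.rpow_mul hSpos.le, Real.rpow_natCast]
          rfl
  calc weight β a l ≤ (∏ k, (1 + l k)) ^ (β * numPairs n) *
        ∏ i, (l i ^ (β / 2 * (a + 1) - 1) * Real.exp (-(β / 2) * l i)) := by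
        unfold weight
        refine mul_le_mul_of_nonneg_right h1 (Finset.prod_nonneg fun i _ => ?_)
        have := hpos i
        positivity
    _ = _ := by
        rw [← Real.finsetProd_rpow _ _ (fun k _ => by have := hpos k; linarith),
          ← Finset.prod_mul_distrib]
        rfl

theorem laguerreWeight_lt_top {β a : ℝ} (hβ : 0 < β) (ha : -1 < a) (n : ℕ) :
    laguerreWeight β a n univ < ∞ := by
  unfold laguerreWeight
  rw [withDensity_apply _ MeasurableSet.univ, Measure.restrict_univ]
  have hFint : Integrable ((Ioi (0:ℝ)).indicator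
    (fun x => (1 + x) ^ (β * numPairs n) * (x ^ (alpha β a) * Real.exp (-(β / 2) * x)))) := by
    rw [integrable_indicator_iff measurableSet_Ioi]
    exact integrableOn_poly_rpow_exp (mul_nonneg hβ.le (Nat.cast_nonneg _)) (alpha_gt hβ ha)
      (half_pos hβ)
  have hprod := Integrable.fintype_prod (ι := Fin n) (fun _ => hFint)
  have hlt := hprod.lintegral_lt_top
  refine lt_of_le_of_lt ?_ hlt
  refine le_trans ?_ (setLIntegral_le_lintegral (chamber n) _)
  refine setLIntegral_mono' (measurableSet_chamber n) fun l hl => ?_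
  apply ENNReal.ofReal_le_ofReal
  refine (weight_le hβ hl).trans (le_of_eq ?_)
  refine Finset.prod_congr rfl fun i _ => ?_
  have hi : l i ∈ Ioi (0:ℝ) := hl.1 i
  rw [indicator_of_mem hi]

theorem isProbabilityMeasure_laguerre {β a : ℝ} (hβ : 0 < β) (ha : -1 < a) (n : ℕ) :
    IsProbabilityMeasure (laguerre β a n) := by
  constructor
  unfold laguerre
  rw [Measure.smul_apply, smul_eq_mul]
  exact ENNReal.inv_mul_cancel (laguerreWeight_pos β a n).ne' (laguerreWeight_lt_top hβ ha n).ne

end MPe6d203
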