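import Mathlib

/-!
# The midpoint Prékopa–Leindler inequality on `Fin n → ℝ`
-/

namespace MPe6d203

open MeasureTheory Set Filter Topology
open scoped ENNReal

/-- One-dimensional Brunn–Minkowski (midpoint form) for nonempty compact sets. -/
theorem bm_compact {K L C : Set ℝ} (hK : IsCompact K) (hL : IsCompact L) (hKn : K.Nonempty)
    (hLn : L.Nonempty) (H : ∀ a ∈ K, ∀ b ∈ L, (a + b) / 2 ∈ C) :
    volume K + volume L ≤ 2 * volume C := by
  have hM := hK.sSup_mem hKn
  have hm := hL.sInf_mem hLn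
  set M := sSup K with hMdef
  set m := sInf L with hmdef
  set p := (M + m) / 2 with hp
  have e1 : ∀ (s : ℝ) (S : Set ℝ), volume ((fun x => (x + s) / 2) ⁻¹' S) = 2 * volume S := by
    intro s S
    have : (fun x : ℝ => (x + s) / 2) ⁻¹' S
        = (fun x => (1/2 : ℝ) * x) ⁻¹' ((fun y => y + s / 2) ⁻¹' S) := by
      ext x
      simp only [mem_preimage]
      rw [show (x + s) / 2 = 1 / 2 * x + s / 2 by ring]
    rw [this, Real.volume_preimage_mul_left (by norm_num), measure_preimage_add_right]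
    norm_num
  have h1 : K ⊆ (fun x => (x + m) / 2) ⁻¹' (C ∩ Iic p) := by
    intro x hx
    refine ⟨H x hx m hm, ?_⟩
    have : x ≤ M := le_csSup hK.bddAbove hx
    simp only [mem_Iic, hp]
    linarith
  have h2 : L \ {m} ⊆ (fun x => (x + M) / 2) ⁻¹' (C \ Iic p) := by
    intro x hx
    refine ⟨?_, ?_⟩
    · have := H M hM x hx.1
      rwa [add_comm] at this
    · have h3 : m ≤ x := csInf_le hL.bddBelow hx.1
      have h4 : x ≠ m := hx.2
      have h5 : m < x := lt_of_le_of_ne h3 (Ne.symm h4)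
      simp only [mem_Iic, hp, not_le]
      linarith
  calc volume K + volume L = volume K + volume (L \ {m}) := by
        rw [measure_sdiff_null (by simp)]
    _ ≤ 2 * volume (C ∩ Iic p) + 2 * volume (C \ Iic p) := by
        gcongr
        · exact (measure_mono h1).trans_eq (e1 m _)
        · exact (measure_mono h2).trans_eq (e1 M _)
    _ = 2 * volume C := by
        rw [← mul_add, measure_inter_add_sdiff C measurableSet_Iic]

/-- One-dimensional Brunn–Minkowski (midpoint form) for nonempty measurable sets. -/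
theorem bm_measurable {A B C : Set ℝ} (hA : MeasurableSet A) (hB : MeasurableSet B)
    (hAn : A.Nonempty) (hBn : B.Nonempty) (H : ∀ a ∈ A, ∀ b ∈ B, (a + b) / 2 ∈ C) :
    volume A + volume B ≤ 2 * volume C := by
  obtain ⟨a0, ha0⟩ := hAn
  obtain ⟨b0, hb0⟩ := hBn
  have key : ∀ K ⊆ A, IsCompact K → ∀ L ⊆ B, IsCompact L →
      volume K + volume L ≤ 2 * volume C := by
    intro K hKA hK L hLB hL
    calc volume K + volume L ≤ volume (K ∪ {a0}) + volume (L ∪ {b0}) := by
          gcongr <;> exact subset_union_left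
      _ ≤ 2 * volume C := by
          refine bm_compact (hK.union isCompact_singleton) (hL.union isCompact_singleton)
            ⟨a0, by simp⟩ ⟨b0, by simp⟩ ?_
          intro a ha b hb
          refine H a ?_ b ?_
          · rcases ha with ha | ha
            · exact hKA ha
            · rw [mem_singleton_iff.mp ha]; exact ha0
          · rcases hb with hb | hb
            · exact hLB hb
            · rw [mem_singleton_iff.mp hb]; exact hb0
  rw [hA.measure_eq_iSup_isCompact, hB.measure_eq_iSup_isCompact]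
  simp only [iSup_and']
  exact ENNReal.biSup_add_biSup_le' ⟨∅, empty_subset _, isCompact_empty⟩
    ⟨∅, empty_subset _, isCompact_empty⟩ (fun K hK L hL => key K hK.1 hK.2 L hL.1 hL.2)

theorem four_mul_le_add_sq (a b : ℝ≥0∞) : 4 * (a * b) ≤ (a + b) ^ 2 := by
  rcases eq_or_ne a ∞ with rfl | ha
  · simp
  rcases eq_or_ne b ∞ with rfl | hb
  · simp
  lift a to NNReal using ha
  lift b to NNReal using hb
  norm_cast
  have : 4 * ((a : ℝ) * b) ≤ (a + b) ^ 2 := by nlinarith [sq_nonneg ((a : ℝ) - b)]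
  exact_mod_cast this

/-- The normalised one-dimensional case, real valued functions. -/
theorem pl_one_real {F G H : ℝ → ℝ} (hF : Measurable F) (hG : Measurable G) (hH : Measurable H)
    (hF0 : ∀ x, 0 ≤ F x) (hG0 : ∀ x, 0 ≤ G x) (hH0 : ∀ x, 0 ≤ H x)
    (hF1 : ∀ x, F x ≤ 1) (hG1 : ∀ x, G x ≤ 1)
    (hFs : ∀ t < 1, ∃ x, t < F x) (hGs : ∀ t < 1, ∃ x, t < G x)
    (hFGH : ∀ x y, F x * G y ≤ H ((x + y) / 2) ^ 2) :
    (∫⁻ x, ENNReal.ofReal (F x)) + (∫⁻ x, ENNReal.ofReal (G x))
      ≤ 2 * ∫⁻ x, ENNReal.ofReal (H x) := by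
  have cut : ∀ {F : ℝ → ℝ}, Measurable F → (∀ x, 0 ≤ F x) → (∀ x, F x ≤ 1) →
      ∫⁻ x, ENNReal.ofReal (F x) = ∫⁻ t in Ioo 0 1, volume {x | t < F x} := by
    intro F hF h0 h1
    rw [lintegral_eq_lintegral_meas_lt volume (Eventually.of_forall h0) hF.aemeasurable]
    have hsub : Ioi (0 : ℝ) = Ioo 0 1 ∪ Ici 1 := by
      ext x
      simp only [mem_Ioi, mem_union, mem_Ioo, mem_Ici]
      constructor
      · intro h
        rcases lt_or_ge x 1 with h1 | h1
        · exact Or.inl ⟨h, h1⟩
        · exact Or.inr h1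
      · rintro (h | h)
        · exact h.1
        · linarith
    have hdisj : Disjoint (Ioo (0 : ℝ) 1) (Ici 1) := by
      rw [Set.disjoint_left]
      intro x hx hx'
      exact absurd hx.2 (not_lt.mpr hx')
    rw [hsub, lintegral_union measurableSet_Ici hdisj]
    have hz : ∫⁻ t in Ici (1 : ℝ), volume {x | t < F x} = 0 := by
      rw [setLIntegral_congr_fun (g := fun _ => 0) measurableSet_Ici]
      · simp
      · intro t ht
        have : {x | t < F x} = ∅ := by
          ext x
          simp only [mem_ofPred_eq, mem_empty_iff_false, iff_false, not_lt]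
          exact (h1 x).trans ht
        simp only [this, measure_empty]
    rw [hz, add_zero]
  have hmF : Measurable fun t : ℝ => volume {x | t < F x} := by
    apply Antitone.measurable
    intro s t hst
    exact measure_mono fun x hx => lt_of_le_of_lt hst hx
  calc (∫⁻ x, ENNReal.ofReal (F x)) + (∫⁻ x, ENNReal.ofReal (G x))
      = ∫⁻ t in Ioo 0 1, (volume {x | t < F x} + volume {x | t < G x}) := by
        rw [cut hF hF0 hF1, cut hG hG0 hG1, lintegral_add_left hmF]
    _ ≤ ∫⁻ t in Ioo 0 1, 2 * volume {x | t < H x} := by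
        refine setLIntegral_mono' measurableSet_Ioo ?_
        intro t ht
        refine bm_measurable (measurableSet_lt measurable_const hF)
          (measurableSet_lt measurable_const hG) (hFs t ht.2) (hGs t ht.2) ?_
        intro a ha b hb
        simp only [mem_ofPred_eq] at ha hb ⊢
        have h1 := hFGH a b
        have h2 := hH0 ((a + b) / 2)
        have h3 : t * t < F a * G b := by
          have := ht.1
          nlinarith
        nlinarith [ht.1]
    _ = 2 * ∫⁻ t in Ioo 0 1, volume {x | t < H x} := by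
        rw [lintegral_const_mul' _ _ (by norm_num)]
    _ ≤ 2 * ∫⁻ t in Ioi 0, volume {x | t < H x} := by
        gcongr
        exact Ioo_subset_Ioi_self
    _ = 2 * ∫⁻ x, ENNReal.ofReal (H x) := by
        rw [lintegral_eq_lintegral_meas_lt volume (Eventually.of_forall hH0) hH.aemeasurable]

/-- The one-dimensional case for bounded functions. -/
theorem pl_one_bdd {f g h : ℝ → ℝ≥0∞} (hf : Measurable f) (hg : Measurable g) (hh : Measurable h)
    (N : NNReal) (hfN : ∀ x, f x ≤ N) (hgN : ∀ x, g x ≤ N)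
    (H : ∀ x y, f x * g y ≤ h ((x + y) / 2) ^ 2) :
    (∫⁻ x, f x) * (∫⁻ y, g y) ≤ (∫⁻ z, h z) ^ 2 := by
  have hfS : ∀ x, f x ≤ ⨆ x, f x := fun x => le_iSup f x
  have hgS : ∀ x, g x ≤ ⨆ x, g x := fun x => le_iSup g x
  have hSf : ⨆ x, f x ≤ N := iSup_le hfN
  have hSg : ⨆ x, g x ≤ N := iSup_le hgN
  have hfl : ∀ t < ⨆ x, f x, ∃ x, t < f x := fun t ht => lt_iSup_iff.mp ht
  have hgl : ∀ t < ⨆ x, g x, ∃ x, t < g x := fun t ht => lt_iSup_iff.mp ht
  generalize (⨆ x, f x) = Sf at *
  generalize (⨆ x, g x) = Sg at *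
  have hSf' : Sf ≠ ∞ := (hSf.trans_lt ENNReal.coe_lt_top).ne
  have hSg' : Sg ≠ ∞ := (hSg.trans_lt ENNReal.coe_lt_top).ne
  rcases eq_or_ne Sf 0 with h0 | hSf0
  · have : ∀ x, f x = 0 := fun x => le_antisymm ((hfS x).trans h0.le) zero_le
    simp [this]
  rcases eq_or_ne Sg 0 with h0 | hSg0
  · have : ∀ x, g x = 0 := fun x => le_antisymm ((hgS x).trans h0.le) zero_le
    simp [this]
  set a := Sf.toReal with ha
  set b := Sg.toReal with hb
  have ha0 : 0 < a := ENNReal.toReal_pos hSf0 hSf'
  have hb0 : 0 < b := ENNReal.toReal_pos hSg0 hSg'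
  have hSfa : Sf = ENNReal.ofReal a := (ENNReal.ofReal_toReal hSf').symm
  have hSgb : Sg = ENNReal.ofReal b := (ENNReal.ofReal_toReal hSg').symm
  set s := Real.sqrt (a * b) with hs
  have hs0 : 0 < s := Real.sqrt_pos.mpr (mul_pos ha0 hb0)
  have hs2 : s ^ 2 = a * b := Real.sq_sqrt (mul_pos ha0 hb0).le
  have hft : ∀ x, f x ≠ ∞ := fun x => ((hfN x).trans_lt ENNReal.coe_lt_top).ne
  have hgt : ∀ x, g x ≠ ∞ := fun x => ((hgN x).trans_lt ENNReal.coe_lt_top).ne
  have hht : ∀ x, min (h x) (ENNReal.ofReal s) ≠ ∞ :=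
    fun x => (lt_of_le_of_lt (min_le_right _ _) ENNReal.ofReal_lt_top).ne
  have key := pl_one_real (F := fun x => (f x).toReal / a) (G := fun x => (g x).toReal / b)
    (H := fun x => (min (h x) (ENNReal.ofReal s)).toReal / s)
    (hf.ennreal_toReal.div_const _) (hg.ennreal_toReal.div_const _)
    ((hh.min measurable_const).ennreal_toReal.div_const _)
    (fun x => by positivity) (fun x => by positivity) (fun x => by positivity)
    (fun x => by
      rw [div_le_one ha0]
      exact ENNReal.toReal_mono hSf' (hfS x))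
    (fun x => by
      rw [div_le_one hb0]
      exact ENNReal.toReal_mono hSg' (hgS x))
    (fun t ht => by
      obtain ⟨x, hx⟩ := hfl (ENNReal.ofReal (t * a)) (by
        rw [hSfa]
        exact (ENNReal.ofReal_lt_ofReal_iff ha0).mpr (by nlinarith))
      refine ⟨x, ?_⟩
      rw [lt_div_iff₀ ha0]
      by_contra hcon
      rw [not_lt] at hcon
      have := ENNReal.ofReal_le_ofReal hcon
      rw [ENNReal.ofReal_toReal (hft x)] at this
      exact absurd hx (not_lt.mpr this))
    (fun t ht => by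
      obtain ⟨x, hx⟩ := hgl (ENNReal.ofReal (t * b)) (by
        rw [hSgb]
        exact (ENNReal.ofReal_lt_ofReal_iff hb0).mpr (by nlinarith))
      refine ⟨x, ?_⟩
      rw [lt_div_iff₀ hb0]
      by_contra hcon
      rw [not_lt] at hcon
      have := ENNReal.ofReal_le_ofReal hcon
      rw [ENNReal.ofReal_toReal (hgt x)] at this
      exact absurd hx (not_lt.mpr this))
    (fun x y => by
      have h1 : (f x).toReal ≤ a := ENNReal.toReal_mono hSf' (hfS x)
      have h2 : (g y).toReal ≤ b := ENNReal.toReal_mono hSg' (hgS y)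
      have h3 : (f x).toReal * (g y).toReal
          ≤ (min (h ((x + y) / 2)) (ENNReal.ofReal s)).toReal ^ 2 := by
        rcases le_total (h ((x + y) / 2)) (ENNReal.ofReal s) with hle | hle
        · rw [min_eq_left hle, ← ENNReal.toReal_mul, ← ENNReal.toReal_pow]
          refine ENNReal.toReal_mono ?_ (H x y)
          exact ENNReal.pow_ne_top (lt_of_le_of_lt hle ENNReal.ofReal_lt_top).ne
        · rw [min_eq_right hle, ENNReal.toReal_ofReal hs0.le, hs2]
          exact mul_le_mul h1 h2 ENNReal.toReal_nonneg ha0.le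
      rw [div_mul_div_comm, div_pow, hs2]
      gcongr)
  have c1 : ∀ (u : ℝ → ℝ≥0∞) (r : ℝ), 0 < r → (∀ x, u x ≠ ∞) →
      ∫⁻ x, ENNReal.ofReal ((u x).toReal / r) = (∫⁻ x, u x) / ENNReal.ofReal r := by
    intro u r hr hu
    have : ∀ x, ENNReal.ofReal ((u x).toReal / r) = u x * (ENNReal.ofReal r)⁻¹ := by
      intro x
      rw [ENNReal.ofReal_div_of_pos hr, ENNReal.ofReal_toReal (hu x), div_eq_mul_inv]
    simp only [this]
    rw [lintegral_mul_const' _ _ (by simpa using hr), div_eq_mul_inv]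
  rw [c1 f a ha0 hft, c1 g b hb0 hgt, c1 _ s hs0 hht] at key
  have key2 : (∫⁻ x, min (h x) (ENNReal.ofReal s)) ≤ ∫⁻ x, h x :=
    lintegral_mono fun x => min_le_left _ _
  generalize (∫⁻ x, min (h x) (ENNReal.ofReal s)) = I' at *
  generalize (∫⁻ x, h x) = I at *
  generalize (∫⁻ x, f x) = J at *
  generalize (∫⁻ x, g x) = K at *
  have e1 : 4 * ((J / ENNReal.ofReal a) * (K / ENNReal.ofReal b))
      ≤ 4 * (I ^ 2 / (ENNReal.ofReal a * ENNReal.ofReal b)) := by
    calc 4 * ((J / ENNReal.ofReal a) * (K / ENNReal.ofReal b))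
        ≤ (J / ENNReal.ofReal a + K / ENNReal.ofReal b) ^ 2 := four_mul_le_add_sq _ _
      _ ≤ (2 * (I / ENNReal.ofReal s)) ^ 2 := by
          gcongr
          refine key.trans ?_
          gcongr
      _ = 4 * (I ^ 2 / (ENNReal.ofReal a * ENNReal.ofReal b)) := by
          rw [mul_pow, ← ENNReal.ofReal_mul ha0.le, ← hs2, ENNReal.ofReal_pow hs0.le]
          norm_num [div_eq_mul_inv, mul_pow, ENNReal.inv_pow]
  have e2 : (J / ENNReal.ofReal a) * (K / ENNReal.ofReal b)
      ≤ (I ^ 2 / (ENNReal.ofReal a * ENNReal.ofReal b)) := by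
    have := (ENNReal.mul_le_mul_iff_right (a := 4) (by norm_num) (by norm_num)).mp e1
    exact this
  have hab0 : ENNReal.ofReal a * ENNReal.ofReal b ≠ 0 := by
    simp [ha0, hb0]
  have habt : ENNReal.ofReal a * ENNReal.ofReal b ≠ ∞ :=
    ENNReal.mul_ne_top ENNReal.ofReal_ne_top ENNReal.ofReal_ne_top
  calc J * K = (J / ENNReal.ofReal a * (K / ENNReal.ofReal b))
        * (ENNReal.ofReal a * ENNReal.ofReal b) := by
        rw [mul_mul_mul_comm, ENNReal.div_mul_cancel (by simpa using ha0) ENNReal.ofReal_ne_top,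
          ENNReal.div_mul_cancel (by simpa using hb0) ENNReal.ofReal_ne_top]
    _ ≤ (I ^ 2 / (ENNReal.ofReal a * ENNReal.ofReal b)) * (ENNReal.ofReal a * ENNReal.ofReal b) := by
        gcongr
    _ = I ^ 2 := ENNReal.div_mul_cancel hab0 habt

/-- The one-dimensional case. -/
theorem pl_one {f g h : ℝ → ℝ≥0∞} (hf : Measurable f) (hg : Measurable g) (hh : Measurable h)
    (H : ∀ x y, f x * g y ≤ h ((x + y) / 2) ^ 2) :
    (∫⁻ x, f x) * (∫⁻ y, g y) ≤ (∫⁻ z, h z) ^ 2 := by
  have trunc : ∀ {f : ℝ → ℝ≥0∞}, Measurable f →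
      ∫⁻ x, f x = ⨆ N : ℕ, ∫⁻ x, min (f x) ((N : NNReal) : ℝ≥0∞) := by
    intro f hf
    rw [← lintegral_iSup]
    · congr 1
      ext x
      have : (f x) ⊓ ⨆ N : ℕ, ((N : NNReal) : ℝ≥0∞) = f x := by
        simp only [ENNReal.coe_natCast, ENNReal.iSup_natCast, le_top, inf_of_le_left]
      rw [inf_iSup_eq] at this
      exact this.symm
    · intro n
      exact hf.min measurable_const
    · intro m n hmn x
      simp only
      gcongr
  rw [trunc hf, trunc hg]
  simp only [ENNReal.iSup_mul, ENNReal.mul_iSup, iSup_le_iff]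
  intro i j
  refine pl_one_bdd (hf.min measurable_const) (hg.min measurable_const) hh
    ((max i j : ℕ) : NNReal) ?_ ?_ ?_
  · intro x
    refine (min_le_right _ _).trans ?_
    gcongr
    omega
  · intro x
    refine (min_le_right _ _).trans ?_
    gcongr
    omega
  · intro x y
    refine le_trans ?_ (H x y)
    gcongr
    · exact min_le_left _ _
    · exact min_le_left _ _

/-- The map `(a, y) ↦ Fin.cons a y` is measurable. -/
theorem measurable_cons {n : ℕ} :
    Measurable fun p : ℝ × (Fin n → ℝ) => (Fin.cons p.1 p.2 : Fin (n + 1) → ℝ) := by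
  rw [measurable_pi_iff]
  intro i
  refine Fin.cases ?_ (fun j => ?_) i
  · simpa using measurable_fst
  · simp only [Fin.cons_succ]
    exact (measurable_pi_apply j).comp measurable_snd

/-- Splitting off the first coordinate. -/
theorem lintegral_cons {n : ℕ} {f : (Fin (n + 1) → ℝ) → ℝ≥0∞} (hf : Measurable f) :
    ∫⁻ x, f x = ∫⁻ a : ℝ, ∫⁻ y : Fin n → ℝ, f (Fin.cons a y) := by
  have h := (volume_preserving_piFinSuccAbove (fun _ : Fin (n + 1) => ℝ) 0).symm
  rw [← h.lintegral_comp_emb (MeasurableEquiv.measurableEmbedding _)]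
  rw [Measure.volume_eq_prod, lintegral_prod]
  · simp_rw [MeasurableEquiv.piFinSuccAbove_symm_apply, Fin.insertNthEquiv, Equiv.coe_fn_mk,
      Fin.insertNth_zero']
  · exact (hf.comp (MeasurableEquiv.measurable _)).aemeasurable

/-- **Midpoint Prékopa–Leindler inequality**. -/
theorem prekopa_leindler_midpoint {n : ℕ} (f g h : (Fin n → ℝ) → ℝ≥0∞)
    (hf : Measurable f) (hg : Measurable g) (hh : Measurable h)
    (H : ∀ x y, f x * g y ≤ h (fun i => (x i + y i) / 2) ^ 2) :
    (∫⁻ x, f x) * (∫⁻ y, g y) ≤ (∫⁻ z, h z) ^ 2 := by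
  induction n with
  | zero =>
    have e : ∀ u : (Fin 0 → ℝ) → ℝ≥0∞, ∫⁻ x, u x = u default := by
      intro u
      rw [volume_pi, Measure.pi_of_empty (fun _ : Fin 0 => (volume : Measure ℝ)) default]
      simp
    rw [e, e, e]
    have h1 := H default default
    have h2 : (fun i : Fin 0 => ((default : Fin 0 → ℝ) i + (default : Fin 0 → ℝ) i) / 2) =
        (default : Fin 0 → ℝ) := funext fun i => i.elim0
    rw [h2] at h1
    exact h1
  | succ n ih =>
    rw [lintegral_cons hf, lintegral_cons hg, lintegral_cons hh]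
    have hm : ∀ {u : (Fin (n + 1) → ℝ) → ℝ≥0∞}, Measurable u →
        Measurable fun a : ℝ => ∫⁻ y : Fin n → ℝ, u (Fin.cons a y) := by
      intro u hu
      exact Measurable.lintegral_prod_right' (f := fun p : ℝ × (Fin n → ℝ) => u (Fin.cons p.1 p.2))
        (hu.comp measurable_cons)
    refine pl_one (hm hf) (hm hg) (hm hh) ?_
    intro a b
    have hs : ∀ {u : (Fin (n + 1) → ℝ) → ℝ≥0∞}, Measurable u → ∀ a : ℝ,
        Measurable fun y : Fin n → ℝ => u (Fin.cons a y) := by
      intro u hu a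
      exact (hu.comp measurable_cons).comp measurable_prodMk_left
    refine ih _ _ _ (hs hf a) (hs hg b) (hs hh ((a + b) / 2)) ?_
    intro x y
    refine (H _ _).trans_eq ?_
    congr 2
    ext i
    refine Fin.cases ?_ (fun j => ?_) i
    · simp
    · simp

end MPe6d203
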