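import Pool.Agent.Lib.MP_e6d203_pr.Mixed
import Pool.Agent.Lib.MP_e6d203_pr.PL

/-!
# Concentration from the Prékopa–Leindler inequality
-/

namespace MPe6d203

open MeasureTheory Set Filter Topology
open scoped ENNReal

/-- the good event -/
def Kset (M : ℝ) (m N n : ℕ) : Set (Fin n → ℝ) :=
  {l | l ∈ chamber n ∧ ∀ i : Fin n, m ≤ (i : ℕ) → (i : ℕ) < 2 * N →
    (((i : ℕ) : ℝ) + 1) ^ 2 / 72 ≤ n * l i ∧ n * l i ≤ M * (((i : ℕ) : ℝ) + 1) ^ 2}

theorem Kset_subset (M : ℝ) (m N n : ℕ) : Kset M m N n ⊆ chamber n := fun _ h => h.1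

theorem measurableSet_Kset (M : ℝ) (m N n : ℕ) : MeasurableSet (Kset M m N n) := by
  have : Kset M m N n = chamber n ∩ ⋂ i : Fin n, {l | m ≤ (i : ℕ) → (i : ℕ) < 2 * N →
      (((i : ℕ) : ℝ) + 1) ^ 2 / 72 ≤ n * l i ∧ n * l i ≤ M * (((i : ℕ) : ℝ) + 1) ^ 2} := by
    ext l
    simp only [Kset, mem_ofPred_eq, mem_inter_iff, mem_iInter]
  rw [this]
  refine (measurableSet_chamber n).inter (MeasurableSet.iInter fun i => ?_)
  by_cases h1 : m ≤ (i : ℕ)
  · by_cases h2 : (i : ℕ) < 2 * N
    · simp only [h1, h2, forall_const]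
      refine MeasurableSet.inter (s₁ := {l : Fin n → ℝ | (((i : ℕ) : ℝ) + 1) ^ 2 / 72 ≤ n * l i})
        (s₂ := {l : Fin n → ℝ | n * l i ≤ M * (((i : ℕ) : ℝ) + 1) ^ 2}) ?_ ?_
      · exact measurableSet_le measurable_const (by fun_prop)
      · exact measurableSet_le (by fun_prop) measurable_const
    · simp [h2]
  · simp [h1]

/-- the good event in mixed coordinates -/
def Dset (M : ℝ) (m N n : ℕ) : Set (Fin n → ℝ) :=
  {u | mixed m u ∈ Kset M m N n ∧ ∀ i : Fin n, m ≤ (i : ℕ) → 0 < u i}

theorem measurable_mixed (m n : ℕ) : Measurable (mixed m (n := n)) := by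
  unfold mixed
  refine measurable_pi_lambda _ fun i => ?_
  split_ifs <;> fun_prop

theorem measurableSet_Dset (M : ℝ) (m N n : ℕ) : MeasurableSet (Dset M m N n) := by
  have : Dset M m N n = (mixed m ⁻¹' (Kset M m N n)) ∩ ⋂ i : Fin n,
      {u : Fin n → ℝ | m ≤ (i : ℕ) → 0 < u i} := by
    ext l
    simp only [Dset, mem_ofPred_eq, mem_inter_iff, mem_iInter, mem_preimage]
  rw [this]
  refine (measurable_mixed m n (measurableSet_Kset M m N n)).inter
    (MeasurableSet.iInter fun i => ?_)
  by_cases h1 : m ≤ (i : ℕ)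
  · simp only [h1, forall_const]
    exact measurableSet_lt measurable_const (measurable_pi_apply i)
  · simp [h1]

theorem measurable_lw (β α : ℝ) (n : ℕ) : Measurable (lw β α (n := n)) := by
  unfold lw
  refine Measurable.add ?_ ?_
  · refine Measurable.const_mul ?_ _
    refine Finset.measurable_sum _ fun i _ => Finset.measurable_sum _ fun j _ => ?_
    fun_prop
  · refine Finset.measurable_sum _ fun i _ => ?_
    fun_prop

theorem measurable_mlw (β α : ℝ) (m n : ℕ) : Measurable (mlw β α m (n := n)) := by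
  unfold mlw
  refine Measurable.add ((measurable_lw β α n).comp (measurable_mixed m n)) ?_
  refine Finset.measurable_sum _ fun i _ => ?_
  split_ifs <;> fun_prop

/-- Change of variables to mixed coordinates. -/
theorem lintegral_mixed (β α M : ℝ) (m N n : ℕ) (g : (Fin n → ℝ) → ℝ≥0∞) :
    ∫⁻ l in Kset M m N n, ENNReal.ofReal (Real.exp (lw β α l)) * g l =
      ∫⁻ u in Dset M m N n, ENNReal.ofReal (Real.exp (mlw β α m u)) * g (mixed m u) := by
  have himg : (fun u : Fin n → ℝ => fun i => (fun (i : Fin n) (x : ℝ) =>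
      if (i : ℕ) < m then Real.exp x else x ^ 2) i (u i)) '' (Dset M m N n) = Kset M m N n := by
    ext l
    constructor
    · rintro ⟨u, hu, rfl⟩
      exact hu.1
    · intro hl
      have hl' : mixed m (fun i : Fin n => if (i : ℕ) < m then Real.log (l i)
          else Real.sqrt (l i)) = l := by
        funext i
        unfold mixed
        by_cases h : (i : ℕ) < m
        · simp only [h, if_true]
          exact Real.exp_log (hl.1.1 i)
        · simp only [h, if_false]
          exact Real.sq_sqrt (hl.1.1 i).le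
      refine ⟨fun i => if (i : ℕ) < m then Real.log (l i) else Real.sqrt (l i), ⟨?_, ?_⟩, ?_⟩
      · rw [hl']; exact hl
      · intro i hi
        dsimp only
        rw [if_neg (by omega)]
        exact Real.sqrt_pos.2 (hl.1.1 i)
      · exact hl'
  have hcv := lintegral_coord (fun (i : Fin n) (x : ℝ) => if (i : ℕ) < m then Real.exp x
      else x ^ 2)
    (fun (i : Fin n) (x : ℝ) => if (i : ℕ) < m then Real.exp x else 2 * x)
    (measurableSet_Dset M m N n) (fun u _ i => ?_) ?_
    (fun l => ENNReal.ofReal (Real.exp (lw β α l)) * g l)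
  · rw [himg] at hcv
    rw [hcv]
    refine setLIntegral_congr_fun (measurableSet_Dset M m N n) fun u hu => ?_
    have hprod : |∏ i : Fin n, (if (i : ℕ) < m then Real.exp (u i) else 2 * u i)| =
        Real.exp (∑ i : Fin n, (if (i : ℕ) < m then u i else Real.log (2 * u i))) := by
      rw [Real.exp_sum, abs_of_pos]
      · refine Finset.prod_congr rfl fun i _ => ?_
        split_ifs with h
        · rfl
        · have := hu.2 i (by omega)
          rw [Real.exp_log (by positivity)]
      · refine Finset.prod_pos fun i _ => ?_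
        split_ifs with h
        · exact Real.exp_pos _
        · have := hu.2 i (by omega)
          positivity
    rw [hprod, ← mul_assoc, ← ENNReal.ofReal_mul (Real.exp_pos _).le, ← Real.exp_add]
    unfold mlw
    rw [add_comm]
    rfl
  · by_cases h : (i : ℕ) < m
    · simp only [h, if_true]
      exact Real.hasDerivAt_exp _
    · simp only [h, if_false]
      simpa using hasDerivAt_pow 2 (u i)
  · intro u hu v hv huv
    funext i
    have h1 := congrFun huv i
    dsimp only at h1
    by_cases h : (i : ℕ) < m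
    · simp only [h, if_true] at h1
      exact Real.exp_injective h1
    · simp only [h, if_false] at h1
      have p1 := hu.2 i (by omega)
      have p2 := hv.2 i (by omega)
      exact (pow_left_inj₀ p1.le p2.le (by norm_num)).1 h1

theorem exp_mid_lt {x x' s s' : ℝ} (hs : 0 < s) (hs' : 0 < s') (h : Real.exp x < s ^ 2)
    (h' : Real.exp x' < s' ^ 2) : Real.exp ((x + x') / 2) < ((s + s') / 2) ^ 2 := by
  obtain ⟨q, hq⟩ : ∃ q : ℝ, q = Real.exp ((x + x') / 2) := ⟨_, rfl⟩
  have hq0 : 0 < q := by rw [hq]; exact Real.exp_pos _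
  have hq2 : q ^ 2 = Real.exp x * Real.exp x' := by
    rw [hq, ← Real.exp_nat_mul, ← Real.exp_add]; congr 1; push_cast; ring
  have hp0 : 0 < s * s' := by positivity
  have hqp : q < s * s' := by
    have h1 : q ^ 2 < (s * s') ^ 2 := by
      rw [hq2, mul_pow]
      exact mul_lt_mul h h'.le (Real.exp_pos _) (by positivity)
    exact lt_of_pow_lt_pow_left₀ 2 hp0.le h1
  rw [← hq]
  nlinarith [sq_nonneg (s - s')]

theorem Dset_mid {M : ℝ} {m N n : ℕ} {u u' : Fin n → ℝ} (hu : u ∈ Dset M m N n)
    (hu' : u' ∈ Dset M m N n) : (fun i => (u i + u' i) / 2) ∈ Dset M m N n := by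
  obtain ⟨⟨⟨hpos, hmono⟩, hK⟩, hup⟩ := hu
  obtain ⟨⟨⟨hpos', hmono'⟩, hK'⟩, hup'⟩ := hu'
  refine ⟨⟨⟨fun i => ?_, fun i j hij => ?_⟩, fun i hmi hiN => ?_⟩, fun i hi => ?_⟩
  · unfold mixed
    dsimp only
    split_ifs with h
    · exact Real.exp_pos _
    · have := hup i (by omega)
      have := hup' i (by omega)
      positivity
  · have h1 := hmono hij
    have h2 := hmono' hij
    have hij' : (i : ℕ) < j := hij
    unfold mixed at h1 h2 ⊢
    dsimp only at h1 h2 ⊢
    by_cases hj : (j : ℕ) < m
    · have hi : (i : ℕ) < m := by omega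
      simp only [hi, hj, if_true] at h1 h2 ⊢
      apply Real.exp_lt_exp.2
      have := Real.exp_lt_exp.1 h1
      have := Real.exp_lt_exp.1 h2
      linarith
    · by_cases hi : (i : ℕ) < m
      · simp only [hi, hj, if_true, if_false] at h1 h2 ⊢
        exact exp_mid_lt (hup j (by omega)) (hup' j (by omega)) h1 h2
      · simp only [hi, hj, if_false] at h1 h2 ⊢
        have p1 := hup i (by omega)
        have p2 := hup' i (by omega)
        have p3 := hup j (by omega)
        have p4 := hup' j (by omega)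
        have q1 : u i < u j := lt_of_pow_lt_pow_left₀ 2 p3.le h1
        have q2 : u' i < u' j := lt_of_pow_lt_pow_left₀ 2 p4.le h2
        apply pow_lt_pow_left₀ _ (by positivity) (by norm_num)
        linarith
  · have h1 := hK i hmi hiN
    have h2 := hK' i hmi hiN
    have p1 := hup i hmi
    have p2 := hup' i hmi
    have hnm : ¬ (i : ℕ) < m := by omega
    unfold mixed at h1 h2 ⊢
    dsimp only at h1 h2 ⊢
    rw [if_neg hnm] at h1 h2 ⊢
    have hn0 : (0 : ℝ) ≤ n := Nat.cast_nonneg _
    rcases le_total (u i) (u' i) with h | h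
    · have e1 : (u i) ^ 2 ≤ ((u i + u' i) / 2) ^ 2 :=
        pow_le_pow_left₀ p1.le (by linarith) 2
      have e2 : ((u i + u' i) / 2) ^ 2 ≤ (u' i) ^ 2 :=
        pow_le_pow_left₀ (by positivity) (by linarith) 2
      exact ⟨h1.1.trans (mul_le_mul_of_nonneg_left e1 hn0),
        (mul_le_mul_of_nonneg_left e2 hn0).trans h2.2⟩
    · have e1 : (u' i) ^ 2 ≤ ((u i + u' i) / 2) ^ 2 :=
        pow_le_pow_left₀ p2.le (by linarith) 2
      have e2 : ((u i + u' i) / 2) ^ 2 ≤ (u i) ^ 2 :=
        pow_le_pow_left₀ (by positivity) (by linarith) 2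
      exact ⟨h2.1.trans (mul_le_mul_of_nonneg_left e1 hn0),
        (mul_le_mul_of_nonneg_left e2 hn0).trans h1.2⟩
  · have p1 := hup i hi
    have p2 := hup' i hi
    dsimp only
    linarith

/-- Exponential concentration from Prékopa–Leindler. -/
theorem exp_conc {β a : ℝ} (hβ : 0 < β) {m N n : ℕ} {M : ℝ} (hM : 0 < M)
    (hm : 0 ≤ 2 * β * m + 2 * alpha β a + 1) (h2N : 2 * N ≤ n)
    (F : (Fin n → ℝ) → ℝ) (hFm : Measurable F) (A : ℝ) (r : ℝ) (hr : 0 ≤ r)
    (hF : ∀ u ∈ Dset M m N n, ∀ u' ∈ Dset M m N n, F (mixed m u) - F (mixed m u') ≤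
      ∑ i : Fin n, (if m ≤ (i : ℕ) ∧ (i : ℕ) < N then
        A * Real.sqrt n / (((i : ℕ) : ℝ) + 1) * |u i - u' i| else 0))
    (E : ℝ) (hE : ∑ i : Fin n, (if m ≤ (i : ℕ) ∧ (i : ℕ) < N then
      r ^ 2 * A ^ 2 * (18 * M) / (4 * β * (((i : ℕ) : ℝ) + 1)) else 0) ≤ E) :
    (∫⁻ l in Kset M m N n, ENNReal.ofReal (Real.exp (r * F l)) ∂(laguerre β a n)) *
    (∫⁻ l in Kset M m N n, ENNReal.ofReal (Real.exp (-(r * F l))) ∂(laguerre β a n)) ≤
    ENNReal.ofReal (Real.exp E) * (laguerre β a n (Kset M m N n)) ^ 2 := by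
  have hKm := measurableSet_Kset M m N n
  have hKc := Kset_subset M m N n
  have hDm := measurableSet_Dset M m N n
  rw [lintegral_laguerre β a hKm hKc, lintegral_laguerre β a hKm hKc, laguerre_apply β a hKm hKc]
  obtain ⟨Z, hZ⟩ : ∃ Z : ℝ≥0∞, Z = (laguerreWeight β a n univ)⁻¹ := ⟨_, rfl⟩
  rw [← hZ]
  have e1 := lintegral_mixed β (alpha β a) M m N n
    (fun l => ENNReal.ofReal (Real.exp (r * F l)))
  have e2 := lintegral_mixed β (alpha β a) M m N n
    (fun l => ENNReal.ofReal (Real.exp (-(r * F l))))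
  have e3 := lintegral_mixed β (alpha β a) M m N n (fun _ => 1)
  simp only [mul_one] at e3
  rw [e1, e2, e3]
  have hmul : ∀ (G : (Fin n → ℝ) → ℝ), (∫⁻ u in Dset M m N n,
      ENNReal.ofReal (Real.exp (mlw β (alpha β a) m u)) *
        ENNReal.ofReal (Real.exp (G (mixed m u)))) =
      ∫⁻ u, (Dset M m N n).indicator (fun u => ENNReal.ofReal
        (Real.exp (mlw β (alpha β a) m u + G (mixed m u)))) u := by
    intro G
    rw [lintegral_indicator hDm]
    refine lintegral_congr fun u => ?_
    rw [← ENNReal.ofReal_mul (Real.exp_pos _).le, ← Real.exp_add]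
  have hmlw := measurable_mlw β (alpha β a) m n
  have hmix := measurable_mixed m n
  have hPL := prekopa_leindler_midpoint
    ((Dset M m N n).indicator (fun u => ENNReal.ofReal
        (Real.exp (mlw β (alpha β a) m u + (fun l => r * F l) (mixed m u)))))
    ((Dset M m N n).indicator (fun u => ENNReal.ofReal
        (Real.exp (mlw β (alpha β a) m u + (fun l => -(r * F l)) (mixed m u)))))
    ((Dset M m N n).indicator (fun u => ENNReal.ofReal (Real.exp (E / 2)) * ENNReal.ofReal
        (Real.exp (mlw β (alpha β a) m u))))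
    (Measurable.indicator (by fun_prop) hDm) (Measurable.indicator (by fun_prop) hDm)
    (Measurable.indicator (by fun_prop) hDm) (fun u u' => ?_)
  · rw [← hmul (fun l => r * F l), ← hmul (fun l => -(r * F l)), lintegral_indicator hDm,
      lintegral_const_mul _ (by fun_prop)] at hPL
    have hEE : ENNReal.ofReal (Real.exp (E / 2)) ^ 2 = ENNReal.ofReal (Real.exp E) := by
      rw [← ENNReal.ofReal_pow (Real.exp_pos _).le, ← Real.exp_nat_mul]
      congr 2; push_cast; ring
    rw [mul_pow, hEE] at hPL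
    calc Z * (∫⁻ u in Dset M m N n, ENNReal.ofReal (Real.exp (mlw β (alpha β a) m u)) *
            ENNReal.ofReal (Real.exp (r * F (mixed m u)))) *
          (Z * (∫⁻ u in Dset M m N n, ENNReal.ofReal (Real.exp (mlw β (alpha β a) m u)) *
            ENNReal.ofReal (Real.exp (-(r * F (mixed m u))))))
        = Z ^ 2 * ((∫⁻ u in Dset M m N n, ENNReal.ofReal (Real.exp (mlw β (alpha β a) m u)) *
            ENNReal.ofReal (Real.exp (r * F (mixed m u)))) *
          (∫⁻ u in Dset M m N n, ENNReal.ofReal (Real.exp (mlw β (alpha β a) m u)) *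
            ENNReal.ofReal (Real.exp (-(r * F (mixed m u)))))) := by ring
      _ ≤ Z ^ 2 * (ENNReal.ofReal (Real.exp E) *
          (∫⁻ u in Dset M m N n, ENNReal.ofReal (Real.exp (mlw β (alpha β a) m u))) ^ 2) := by
          gcongr
      _ = ENNReal.ofReal (Real.exp E) * (Z *
          (∫⁻ u in Dset M m N n, ENNReal.ofReal (Real.exp (mlw β (alpha β a) m u)))) ^ 2 := by
          ring
  · by_cases hu : u ∈ Dset M m N n
    · by_cases hu' : u' ∈ Dset M m N n
      · rw [indicator_of_mem hu, indicator_of_mem hu', indicator_of_mem (Dset_mid hu hu'),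
          ← ENNReal.ofReal_mul (Real.exp_pos _).le, ← ENNReal.ofReal_mul (Real.exp_pos _).le,
          ← ENNReal.ofReal_pow (by positivity), ← Real.exp_add, ← Real.exp_add,
          ← Real.exp_nat_mul]
        apply ENNReal.ofReal_le_ofReal
        apply Real.exp_le_exp.2
        have hmid := midpoint_ineq (α := alpha β a) hβ hM hm h2N hu.2 hu'.2 hu.1.1 hu'.1.1
          (fun i h1 h2 => by
            have h3 := (hu.1.2 i h1 h2).2
            unfold mixed at h3
            rwa [if_neg (by omega)] at h3)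
          (fun i h1 h2 => by
            have h3 := (hu'.1.2 i h1 h2).2
            unfold mixed at h3
            rwa [if_neg (by omega)] at h3)
        have hFF := hF u hu u' hu'
        have hrF := mul_le_mul_of_nonneg_left hFF hr
        have hsum : r * ∑ i : Fin n, (if m ≤ (i : ℕ) ∧ (i : ℕ) < N then
            A * Real.sqrt n / (((i : ℕ) : ℝ) + 1) * |u i - u' i| else 0) ≤
            ∑ i : Fin n, (if m ≤ (i : ℕ) ∧ (i : ℕ) < N then
              r ^ 2 * A ^ 2 * (18 * M) / (4 * β * (((i : ℕ) : ℝ) + 1)) else 0) +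
            ∑ i : Fin n, (if m ≤ (i : ℕ) ∧ (i : ℕ) < N then
              β * n * (u i - u' i) ^ 2 / (18 * M * ((i : ℕ) + 1)) else 0) := by
          rw [Finset.mul_sum, ← Finset.sum_add_distrib]
          refine Finset.sum_le_sum fun i _ => ?_
          split_ifs with h
          · have hi0 : (0 : ℝ) < ((i : ℕ) : ℝ) + 1 := by positivity
            obtain ⟨z, hz⟩ : ∃ z : ℝ, z = Real.sqrt n * |u i - u' i| := ⟨_, rfl⟩
            have hz2 : n * (u i - u' i) ^ 2 = z ^ 2 := by
              rw [hz, mul_pow, sq_abs, Real.sq_sqrt (Nat.cast_nonneg _)]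
            have e1 : r * (A * Real.sqrt n / (((i : ℕ) : ℝ) + 1) * |u i - u' i|) =
                r * A * z / (((i : ℕ) : ℝ) + 1) := by rw [hz]; ring
            have e2 : β * n * (u i - u' i) ^ 2 / (18 * M * (((i : ℕ) : ℝ) + 1)) =
                β * z ^ 2 / (18 * M * (((i : ℕ) : ℝ) + 1)) := by rw [mul_assoc, hz2]
            rw [e1, e2]
            have e3 : r ^ 2 * A ^ 2 * (18 * M) / (4 * β * (((i : ℕ) : ℝ) + 1)) +
                β * z ^ 2 / (18 * M * (((i : ℕ) : ℝ) + 1)) -
                r * A * z / (((i : ℕ) : ℝ) + 1) =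
                (r * A * (18 * M) - 2 * β * z) ^ 2 / (4 * β * (18 * M) * (((i : ℕ) : ℝ) + 1)) := by
              field_simp
              ring
            have e4 : 0 ≤ (r * A * (18 * M) - 2 * β * z) ^ 2 /
              (4 * β * (18 * M) * (((i : ℕ) : ℝ) + 1)) := by positivity
            linarith
          · simp
        dsimp only
        push_cast
        linarith
      · rw [indicator_of_notMem hu', mul_zero]
        exact zero_le
    · rw [indicator_of_notMem hu, zero_mul]
      exact zero_le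

end MPe6d203
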