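import Mathlib

/-!
# Hard edge limits of β-Laguerre ensembles and number rigidity : definitions
-/

namespace MPe6d203

open MeasureTheory Set Filter Topology
open scoped ENNReal BoundedContinuousFunction

/-- The open Weyl chamber `0 < l 0 < l 1 < ⋯ < l (n-1)`. -/
def chamber (n : ℕ) : Set (Fin n → ℝ) := {l | (∀ i, 0 < l i) ∧ StrictMono l}

/-- The unnormalised joint density of the `β`-Laguerre ensemble with parameter `a`:
`∏_{i<j} |l i - l j|^β ∏_i (l i)^{β/2 (a+1) - 1} e^{-β/2 l i}`. -/
noncomputable def weight (β a : ℝ) {n : ℕ} (l : Fin n → ℝ) : ℝ :=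
  (∏ i, ∏ j ∈ Finset.Ioi i, |l i - l j| ^ β) *
    ∏ i, (l i ^ (β / 2 * (a + 1) - 1) * Real.exp (-(β / 2) * l i))

/-- The unnormalised law of the `β`-Laguerre ensemble on the chamber. -/
noncomputable def laguerreWeight (β a : ℝ) (n : ℕ) : Measure (Fin n → ℝ) :=
  (volume.restrict (chamber n)).withDensity fun l => ENNReal.ofReal (weight β a l)

/-- The `β`-Laguerre ensemble of size `n`: the law of the ordered configuration
`0 < l 0 < ⋯ < l (n-1)` with density proportional to `weight β a`. -/
noncomputable def laguerre (β a : ℝ) (n : ℕ) : Measure (Fin n → ℝ) :=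
  (laguerreWeight β a n univ)⁻¹ • laguerreWeight β a n

variable {Ω : Type*} [MeasurableSpace Ω]

/-- A simple point process on `(0, ∞)`: a random subset `X ω` of `(0, ∞)`, locally finite in
`(0, ∞)`, for which the number of points in every Borel set is a random variable. -/
structure IsPointProcess (X : Ω → Set ℝ) : Prop where
  pos : ∀ ω, X ω ⊆ Ioi 0
  locallyFinite : ∀ ω s t, 0 < s → (X ω ∩ Icc s t).Finite
  measurable : ∀ B : Set ℝ, MeasurableSet B → Measurable fun ω => (X ω ∩ B).encard

/-- `X` is the hard-edge scaling limit of the `β`-Laguerre ensembles with parameter `a`: for some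
constant `c > 0` the rescaled configurations `{c n l_i}` converge in law to `X` as point
processes on `(0, ∞)`, i.e. (vague topology) for every continuous function `f` with compact
support contained in `(0, ∞)`, the linear statistic `∑ i, f (c n l_i)` converges in law to
`∑_{x ∈ X} f x`. -/
def IsHardEdgeLimit (β a : ℝ) (P : Measure Ω) (X : Ω → Set ℝ) : Prop :=
  ∃ c : ℝ, 0 < c ∧ ∀ f : ℝ → ℝ, Continuous f → HasCompactSupport f → tsupport f ⊆ Ioi 0 →
    ∀ g : ℝ →ᵇ ℝ, Tendsto (fun n : ℕ => ∫ l, g (∑ i, f (c * n * l i)) ∂(laguerre β a n)) atTop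
      (𝓝 (∫ ω, g (∑ᶠ x ∈ X ω, f x) ∂P))

/-- The σ-algebra generated by the restriction of `X` to `D`, i.e. by the numbers of points of
`X` in Borel subsets of `D`. -/
@[reducible] noncomputable def sigmaRestrict (X : Ω → Set ℝ) (D : Set ℝ) : MeasurableSpace Ω :=
  ⨆ C ∈ {C : Set ℝ | MeasurableSet C ∧ C ⊆ D},
    MeasurableSpace.comap (fun ω => (X ω ∩ C).encard) ⊤

/-- Number rigidity of a point process `X` on `(0, ∞)`: for every bounded Borel set
`B ⊆ (0, ∞)` the number of points of `X` in `B` is almost surely equal to a measurable function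
of the restriction of `X` to `(0, ∞) \ B`. -/
def NumberRigid (P : Measure Ω) (X : Ω → Set ℝ) : Prop :=
  ∀ B : Set ℝ, MeasurableSet B → Bornology.IsBounded B → B ⊆ Ioi 0 →
    ∃ Y : Ω → ℕ∞, Measurable[sigmaRestrict X (Ioi 0 \ B)] Y ∧
      ∀ᵐ ω ∂P, (X ω ∩ B).encard = Y ω

end MPe6d203
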