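import Mathlib
import Pool.Agent.Lib.MP_e6d203_pr.Defs

set_option autoImplicit false

/-!
# An abstract criterion for number rigidity (Ghosh-Peres)
-/

namespace MPe6d203

open MeasureTheory Set Filter Topology
open scoped ENNReal BoundedContinuousFunction

/-- Measurability of linear statistics of a random countable set for a test function vanishing
far away. -/
lemma measurable_finsum_of {Ω' : Type*} [MeasurableSpace Ω'] (S : Ω' → Set ℝ)
    (hSm : ∀ C : Set ℝ, MeasurableSet C → Measurable fun ω => (S ω ∩ C).encard)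
    (hSc : ∀ ω, (S ω).Countable) (φ : ℝ → ℝ) (hφ : Continuous φ)
    (hfin : ∀ ω, {x ∈ S ω | φ x ≠ 0}.Finite) :
    Measurable fun ω => ∑ᶠ x ∈ S ω, φ x := by
  classical
  let κ : Ω' → Measure ℝ := fun ω => Measure.count.restrict (S ω)
  have hκ : Measurable κ := by
    refine Measure.measurable_of_measurable_coe _ (fun C hC => ?_)
    have h1 : (fun ω => κ ω C) = fun ω => ((S ω ∩ C).encard : ℝ≥0∞) := by
      funext ω
      simp only [κ]
      rw [Measure.restrict_apply hC, inter_comm, Measure.count_apply]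
      exact ((hSc ω).measurableSet).inter hC
    rw [h1]
    exact (measurable_of_countable (fun n : ℕ∞ => (n : ℝ≥0∞))).comp (hSm C hC)
  have hlin : ∀ f : ℝ → ℝ≥0∞, Measurable f → Measurable fun ω => ∫⁻ x, f x ∂(κ ω) :=
    fun f hf => (Measure.measurable_lintegral hf).comp hκ
  have hval : ∀ (f : ℝ → ℝ) (ω : Ω'), (∀ x, φ x = 0 → f x = 0) →
      ∫⁻ x, ENNReal.ofReal (f x) ∂(κ ω) = ∑ x ∈ (hfin ω).toFinset, ENNReal.ofReal (f x) := by
    intro f ω hf
    simp only [κ]
    rw [← lintegral_indicator (hSc ω).measurableSet, lintegral_count,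
      tsum_eq_sum (s := (hfin ω).toFinset)]
    · refine Finset.sum_congr rfl (fun x hx => ?_)
      rw [indicator_of_mem]
      exact ((hfin ω).mem_toFinset.1 hx).1
    · intro x hx
      by_cases hxS : x ∈ S ω
      · rw [indicator_of_mem hxS]
        have : φ x = 0 := by
          by_contra h
          exact hx ((hfin ω).mem_toFinset.2 ⟨hxS, h⟩)
        rw [hf x this, ENNReal.ofReal_zero]
      · rw [indicator_of_notMem hxS]
  have hsum : ∀ ω, ∑ᶠ x ∈ S ω, φ x = ∑ x ∈ (hfin ω).toFinset, φ x := by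
    intro ω
    rw [finsum_mem_def, finsum_eq_sum_of_support_subset (s := (hfin ω).toFinset)]
    · refine Finset.sum_congr rfl (fun x hx => ?_)
      rw [indicator_of_mem]
      exact ((hfin ω).mem_toFinset.1 hx).1
    · intro x hx
      rw [Function.mem_support] at hx
      rw [(hfin ω).coe_toFinset]
      by_cases hxS : x ∈ S ω
      · rw [indicator_of_mem hxS] at hx
        exact ⟨hxS, hx⟩
      · rw [indicator_of_notMem hxS] at hx
        exact absurd rfl hx
  have hrep : (fun ω => ∑ᶠ x ∈ S ω, φ x) = fun ω =>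
      (∫⁻ x, ENNReal.ofReal (max (φ x) 0) ∂(κ ω)).toReal -
        (∫⁻ x, ENNReal.ofReal (max (-φ x) 0) ∂(κ ω)).toReal := by
    funext ω
    rw [hsum, hval (fun x => max (φ x) 0) ω (fun x hx => by simp [hx]),
      hval (fun x => max (-φ x) 0) ω (fun x hx => by simp [hx]),
      ENNReal.toReal_sum (fun x _ => ENNReal.ofReal_ne_top),
      ENNReal.toReal_sum (fun x _ => ENNReal.ofReal_ne_top), ← Finset.sum_sub_distrib]
    refine Finset.sum_congr rfl (fun x _ => ?_)
    rw [ENNReal.toReal_ofReal (le_max_right _ _), ENNReal.toReal_ofReal (le_max_right _ _)]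
    rcases le_total (φ x) 0 with h | h
    · rw [max_eq_right h, max_eq_left (by linarith)]; ring
    · rw [max_eq_left h, max_eq_right (by linarith)]; ring
  rw [hrep]
  refine Measurable.sub ?_ ?_
  · exact (hlin _ (by fun_prop)).ennreal_toReal
  · exact (hlin _ (by fun_prop)).ennreal_toReal

lemma measurable_round_limsup_sub {Ω' : Type*} [MeasurableSpace Ω'] (L : ℕ → Ω' → ℝ)
    (M : Ω' → ℕ∞) (hL : ∀ j, Measurable (L j)) (hM : Measurable M) :
    Measurable fun ω => ((⌊limsup (fun j => L j ω) atTop + 1 / 2⌋₊ : ℕ) : ℕ∞) - M ω := by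
  have h1 : Measurable (fun p : ℝ × ℕ∞ => ((⌊p.1 + 1 / 2⌋₊ : ℕ) : ℕ∞) - p.2) := by
    have h2 : Measurable (fun p : ℕ × ℕ∞ => ((p.1 : ℕ) : ℕ∞) - p.2) :=
      measurable_of_countable _
    have h3 : Measurable (fun p : ℝ × ℕ∞ => ((⌊p.1 + 1 / 2⌋₊ : ℕ), p.2)) :=
      (Nat.measurable_floor.comp (measurable_fst.add_const _)).prodMk measurable_snd
    exact h2.comp h3
  exact h1.comp ((Measurable.limsup hL).prodMk hM)

variable {Ω : Type*} [MeasurableSpace Ω]

lemma IsPointProcess.countable_set {X : Ω → Set ℝ} (hX : IsPointProcess X) (ω : Ω) :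
    (X ω).Countable := by
  have : X ω ⊆ ⋃ n : ℕ, (X ω ∩ Icc (1 / (n + 1 : ℝ)) n) := by
    intro x hx
    have hx0 : 0 < x := hX.pos ω hx
    obtain ⟨n, hn⟩ := exists_nat_gt (max x (1 / x))
    refine mem_iUnion.2 ⟨n, hx, ?_, ((le_max_left _ _).trans hn.le)⟩
    have h1 : 1 / x < n := (le_max_right _ _).trans_lt hn
    rw [div_le_iff₀ (by positivity)]
    rw [div_lt_iff₀ hx0] at h1
    nlinarith
  refine (countable_iUnion (fun n => ?_)).mono this
  exact (hX.locallyFinite ω _ _ (by positivity)).countable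

lemma IsPointProcess.finite_Ioc {X : Ω → Set ℝ} (hX : IsPointProcess X) (ω : Ω) {η : ℝ}
    (hη : 0 < η) (hemp : X ω ∩ Ioo 0 η = ∅) (t : ℝ) : (X ω ∩ Iic t).Finite := by
  refine (hX.locallyFinite ω η t hη).subset ?_
  rintro x ⟨hx, hxt⟩
  refine ⟨hx, ?_, hxt⟩
  by_contra h
  have : x ∈ X ω ∩ Ioo 0 η := ⟨hx, hX.pos ω hx, not_le.1 h⟩
  rw [hemp] at this
  exact this

/-- **Criterion for number rigidity.** -/
theorem numberRigid_of_concentration {Ω : Type*} [MeasurableSpace Ω] (P : Measure Ω)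
    [IsProbabilityMeasure P]
    (X : Ω → Set ℝ) (hX : IsPointProcess X)
    (hedge : ∀ δ > 0, ∃ η > 0, P {ω | (X ω ∩ Ioo 0 η).Nonempty} ≤ ENNReal.ofReal δ)
    (hconc : ∀ b > 0, ∀ ε > 0, ∃ φ : ℝ → ℝ, Continuous φ ∧ (∀ x ≤ b, φ x = 1) ∧
      (∃ R, ∀ x, R ≤ x → φ x = 0) ∧
      ∃ C : ℝ, P {ω | ε ≤ |(∑ᶠ x ∈ X ω, φ x) - C|} ≤ ENNReal.ofReal ε) :
    NumberRigid P X := by
  classical
  intro B hBm hBb hBpos
  -- almost surely no points near zero
  have hae0 : ∀ᵐ ω ∂P, ∃ η > 0, X ω ∩ Ioo 0 η = ∅ := by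
    rw [ae_iff]
    refine le_antisymm ?_ bot_le
    refine le_of_forall_pos_le_add (fun δ hδ => ?_)
    rw [zero_add]
    rcases eq_or_ne δ ⊤ with rfl | hδt
    · exact le_top
    obtain ⟨η, hη, h⟩ := hedge δ.toReal (ENNReal.toReal_pos hδ.ne' hδt)
    refine le_trans (measure_mono ?_) (h.trans (ENNReal.ofReal_toReal hδt).le)
    intro ω hω
    simp only [mem_ofPred_eq, not_exists, not_and] at hω
    rw [mem_ofPred_eq, nonempty_iff_ne_empty]
    exact hω η hη
  -- a bound for `B`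
  obtain ⟨b, hb, hBb'⟩ : ∃ b : ℝ, 0 < b ∧ B ⊆ Ioc 0 b := by
    obtain ⟨M, hM⟩ := hBb.subset_closedBall 0
    refine ⟨max M 1, by positivity, fun x hx => ⟨hBpos hx, ?_⟩⟩
    have := hM hx
    rw [Metric.mem_closedBall, dist_zero_right, Real.norm_eq_abs] at this
    exact (le_abs_self x).trans (this.trans (le_max_left _ _))
  -- the test functions
  have hεpos : ∀ j : ℕ, (0 : ℝ) < (1 / 2) ^ j := fun j => by positivity
  choose φ hφc hφ1 hφR C hC using fun j : ℕ => hconc b hb ((1 / 2) ^ j) (hεpos j)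
  choose R hR using hφR
  have hBC : ∀ᵐ ω ∂P, ∀ᶠ j in atTop,
      ¬ ((1 / 2 : ℝ) ^ j ≤ |(∑ᶠ x ∈ X ω, φ j x) - C j|) := by
    refine ae_eventually_notMem
      (s := fun j => {ω | (1 / 2 : ℝ) ^ j ≤ |(∑ᶠ x ∈ X ω, φ j x) - C j|}) ?_
    refine ne_top_of_le_ne_top ?_ (ENNReal.tsum_le_tsum hC)
    have h1 : (fun j : ℕ => ENNReal.ofReal ((1 / 2 : ℝ) ^ j)) = fun j : ℕ => (2⁻¹ : ℝ≥0∞) ^ j := by
      funext j
      rw [ENNReal.ofReal_pow (by norm_num), one_div, ENNReal.ofReal_inv_of_pos (by norm_num)]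
      simp
    rw [h1, ENNReal.tsum_geometric]
    simp
  -- the measurable statistics
  set D : Set ℝ := Ioi 0 \ B with hD
  have hgen : ∀ A : Set ℝ, MeasurableSet A → A ⊆ D →
      Measurable[sigmaRestrict X D] fun ω => (X ω ∩ A).encard := by
    intro A hA hAD
    rw [measurable_iff_comap_le]
    exact le_iSup₂_of_le A ⟨hA, hAD⟩ le_rfl
  have hIoi : Ioi b ⊆ D := by
    intro x hx
    refine ⟨hb.trans hx, fun hxB => ?_⟩
    exact absurd (hBb' hxB).2 (not_le.2 hx)
  have hTfin : ∀ j ω, {x ∈ X ω ∩ Ioi b | φ j x ≠ 0}.Finite := by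
    intro j ω
    refine (hX.locallyFinite ω b (R j) hb).subset ?_
    rintro x ⟨⟨hx, hxb⟩, hx0⟩
    refine ⟨hx, le_of_lt hxb, ?_⟩
    by_contra h
    exact hx0 (hR j x (not_le.1 h).le)
  have hT : ∀ j, Measurable[sigmaRestrict X D] fun ω => ∑ᶠ x ∈ X ω ∩ Ioi b, φ j x := by
    intro j
    refine @measurable_finsum_of Ω (sigmaRestrict X D) (fun ω => X ω ∩ Ioi b) ?_
      (fun ω => (hX.countable_set ω).mono inter_subset_left) (φ j) (hφc j) (hTfin j)
    intro A hA
    have : (fun ω => (X ω ∩ Ioi b ∩ A).encard) = fun ω => (X ω ∩ (Ioi b ∩ A)).encard := by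
      funext ω; rw [inter_assoc]
    rw [this]
    exact hgen _ (measurableSet_Ioi.inter hA) (inter_subset_left.trans hIoi)
  set L : ℕ → Ω → ℝ := fun j ω => C j - ∑ᶠ x ∈ X ω ∩ Ioi b, φ j x with hL
  have hLm : ∀ j, Measurable[sigmaRestrict X D] (L j) := by
    intro j
    have h1 : Measurable (fun t : ℝ => C j - t) := by fun_prop
    exact h1.comp (hT j)
  set Z : Ω → ℝ := fun ω => limsup (fun j => L j ω) atTop with hZ
  set Y : Ω → ℕ∞ := fun ω => ((⌊Z ω + 1 / 2⌋₊ : ℕ) : ℕ∞) - (X ω ∩ (Ioc 0 b \ B)).encard with hY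
  refine ⟨Y, ?_, ?_⟩
  · have h4 : Measurable[sigmaRestrict X D] (fun ω => (X ω ∩ (Ioc 0 b \ B)).encard) := by
      refine hgen _ (measurableSet_Ioc.diff hBm) ?_
      rintro x ⟨hx, hxB⟩
      exact ⟨hx.1, hxB⟩
    exact @measurable_round_limsup_sub Ω (sigmaRestrict X D) L _ hLm h4
  · filter_upwards [hae0, hBC] with ω h0 hBCω
    obtain ⟨η, hη, hemp⟩ := h0
    have hfin := hX.finite_Ioc ω hη hemp
    have hfinb : (X ω ∩ Ioc 0 b).Finite :=
      (hfin b).subset (inter_subset_inter_right _ (fun x hx => hx.2))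
    -- splitting the sum
    have hsplit : ∀ j, ∑ᶠ x ∈ X ω, φ j x =
        (X ω ∩ Ioc 0 b).ncard + ∑ᶠ x ∈ X ω ∩ Ioi b, φ j x := by
      intro j
      have h1 : X ω = (X ω ∩ Ioc 0 b) ∪ (X ω ∩ Ioi b) := by
        rw [← inter_union_distrib_left, Ioc_union_Ioi_eq_Ioi hb.le]
        exact (inter_eq_self_of_subset_left (hX.pos ω)).symm
      have hdisj : Disjoint (X ω ∩ Ioc 0 b) (X ω ∩ Ioi b) := by
        rw [Set.disjoint_left]
        rintro x ⟨-, hx⟩ ⟨-, hx'⟩
        exact absurd hx.2 (not_le.2 hx')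
      conv_lhs => rw [h1]
      rw [finsum_mem_union' hdisj (hfinb.subset inter_subset_left)]
      · congr 1
        rw [finsum_mem_congr rfl (g := fun _ => (1 : ℝ)) (fun x hx => hφ1 j x hx.2.2)]
        rw [finsum_mem_eq_finite_toFinset_sum _ hfinb, Finset.sum_const,
          Set.ncard_eq_toFinset_card _ hfinb]
        simp
      · refine (hTfin j ω).subset ?_
        rintro x ⟨hx, hx'⟩
        exact ⟨hx, hx'⟩
    set N : ℕ := (X ω ∩ Ioc 0 b).ncard with hN
    have hlim : Tendsto (fun j => L j ω) atTop (𝓝 (N : ℝ)) := by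
      rw [tendsto_iff_dist_tendsto_zero]
      refine squeeze_zero' (Eventually.of_forall (fun j => dist_nonneg)) ?_
        (tendsto_pow_atTop_nhds_zero_of_lt_one (r := (1 / 2 : ℝ)) (by norm_num) (by norm_num))
      filter_upwards [hBCω] with j hj
      rw [hsplit j] at hj
      rw [Real.dist_eq]
      have : |L j ω - N| = |(N + ∑ᶠ x ∈ X ω ∩ Ioi b, φ j x) - C j| := by
        rw [← abs_neg]
        congr 1
        simp only [hL]
        ring
      rw [this]
      exact (not_le.1 hj).le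
    have hZω : Z ω = N := hlim.limsup_eq
    have hfloor : ⌊Z ω + 1 / 2⌋₊ = N := by
      rw [hZω, Nat.floor_eq_iff (by positivity)]
      constructor <;> linarith
    simp only [hY]
    rw [hfloor]
    have hB1 : (X ω ∩ B).encard + (X ω ∩ (Ioc 0 b \ B)).encard = N := by
      rw [← encard_union_eq, ← inter_union_distrib_left, union_sdiff_cancel hBb']
      · rw [hN, Set.Finite.cast_ncard_eq hfinb]
      · rw [Set.disjoint_left]
        rintro x ⟨-, hx⟩ ⟨-, -, hx'⟩
        exact hx' hx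
    have hne : (X ω ∩ (Ioc 0 b \ B)).encard ≠ ⊤ := by
      rw [encard_ne_top_iff]
      exact hfinb.subset (inter_subset_inter_right _ sdiff_subset)
    exact (ENat.addLECancellable_of_ne_top hne).eq_tsub_of_add_eq hB1

end MPe6d203
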