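import Pool.Agent.Lib.MP_e6d203_pr.Shift

/-!
# No points escape to zero
-/

namespace MPe6d203

open MeasureTheory Set Filter Topology
open scoped ENNReal

theorem log_one_add_sum_le {ι : Type*} (s : Finset ι) (x : ι → ℝ) (hx : ∀ i, 0 ≤ x i) :
    Real.log (1 + ∑ i ∈ s, x i) ≤ ∑ i ∈ s, Real.log (1 + x i) := by
  classical
  induction s using Finset.induction_on with
  | empty => simp
  | insert a s ha ih =>
    rw [Finset.sum_insert ha, Finset.sum_insert ha]
    have h1 := hx a
    have h2 : 0 ≤ ∑ i ∈ s, x i := Finset.sum_nonneg fun i _ => hx i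
    calc Real.log (1 + (x a + ∑ i ∈ s, x i)) ≤ Real.log ((1 + x a) * (1 + ∑ i ∈ s, x i)) := by
          apply Real.log_le_log (by linarith)
          nlinarith [mul_nonneg h1 h2]
      _ = Real.log (1 + x a) + Real.log (1 + ∑ i ∈ s, x i) :=
          Real.log_mul (by linarith) (by linarith)
      _ ≤ _ := by linarith

/-- the sum of inverses of the points of index `≥ k` -/
noncomputable def invSum {n : ℕ} (k : ℕ) (l : Fin n → ℝ) : ℝ :=
  ∑ i : Fin n, if k ≤ (i : ℕ) then (l i)⁻¹ else 0

theorem measurable_invSum {n : ℕ} (k : ℕ) : Measurable (invSum (n := n) k) := by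
  unfold invSum
  refine Finset.measurable_sum _ fun i _ => ?_
  split_ifs
  · fun_prop
  · fun_prop

/-- Tightness of `invSum k / n`. -/
def TightInv (β a : ℝ) (k : ℕ) : Prop :=
  ∀ δ : ℝ, 0 < δ → ∃ H : ℝ, 0 < H ∧ ∀ n : ℕ, 0 < n →
    laguerre β a n {l | l ∈ chamber n ∧ H * n < invSum k l} ≤ ENNReal.ofReal δ

theorem chamber_upshift' {n : ℕ} (k : ℕ) {t : ℝ} (ht : 0 ≤ t) {l : Fin n → ℝ}
    (hl : l ∈ chamber n) : (fun i : Fin n => l i + if k ≤ (i : ℕ) then t else 0) ∈ chamber n := by
  refine ⟨fun i => ?_, fun i j hij => ?_⟩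
  · have := hl.1 i
    dsimp only
    split_ifs <;> linarith
  · have := hl.2 hij
    have hij' : (i : ℕ) < j := hij
    dsimp only
    split_ifs
    · linarith
    · omega
    · linarith
    · linarith

theorem tightInv_base {β a : ℝ} (hβ : 0 < β) (ha : -1 < a) (k : ℕ)
    (hk : 1 ≤ β * k + alpha β a) : TightInv β a k := by
  intro δ hδ
  refine ⟨Real.exp (β / 2) / δ, by positivity, fun n hn => ?_⟩
  have := isProbabilityMeasure_laguerre hβ ha n
  have hnR : (0 : ℝ) < n := by exact_mod_cast hn
  have hup := upshift hβ k (t := 1 / n) (by positivity) (a := a) (measurableSet_chamber n)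
    (Subset.refl _) (fun l hl => chamber_upshift' k (by positivity) hl)
  set E : Set (Fin n → ℝ) := {l | l ∈ chamber n ∧ Real.exp (β / 2) / δ * n < invSum k l} with hE
  have hEm : MeasurableSet E :=
    (measurableSet_chamber n).inter (measurableSet_lt measurable_const (measurable_invSum k))
  have hEc : E ⊆ chamber n := fun l hl => hl.1
  have hlow : ∀ l ∈ E, δ⁻¹ ≤ Real.exp ((β * k + alpha β a) *
      (∑ i : Fin n, if k ≤ (i : ℕ) then Real.log (1 + 1 / n / l i) else 0) -
        β / 2 * n * (1 / n)) := by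
    intro l hl
    have hpos := hl.1.1
    have h1 : β / 2 * n * (1 / n) = β / 2 := by field_simp
    rw [h1, Real.exp_sub]
    have h2 : Real.log (1 + invSum k l / n) ≤
        ∑ i : Fin n, if k ≤ (i : ℕ) then Real.log (1 + 1 / n / l i) else 0 := by
      have h3 := log_one_add_sum_le Finset.univ
        (fun i : Fin n => if k ≤ (i : ℕ) then 1 / (n : ℝ) / l i else 0) (fun i => by
          have := hpos i
          split_ifs <;> positivity)
      have h4 : invSum k l / n = ∑ i : Fin n, if k ≤ (i : ℕ) then 1 / (n : ℝ) / l i else 0 := by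
        unfold invSum
        rw [Finset.sum_div]
        refine Finset.sum_congr rfl fun i _ => ?_
        split_ifs
        · rw [one_div, div_eq_mul_inv, div_eq_mul_inv, mul_comm]
        · simp
      rw [h4]
      refine h3.trans (le_of_eq ?_)
      refine Finset.sum_congr rfl fun i _ => ?_
      split_ifs <;> simp
    have hS0 : 0 ≤ invSum k l / n := by
      have : 0 < Real.exp (β / 2) / δ * n := by positivity
      have := this.trans hl.2
      positivity
    have h5 : 0 ≤ Real.log (1 + invSum k l / n) := Real.log_nonneg (by linarith)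
    have h6 : Real.log (1 + invSum k l / n) ≤ (β * k + alpha β a) *
        (∑ i : Fin n, if k ≤ (i : ℕ) then Real.log (1 + 1 / n / l i) else 0) := by
      nlinarith
    have h7 : 1 + invSum k l / n ≤ Real.exp ((β * k + alpha β a) *
        (∑ i : Fin n, if k ≤ (i : ℕ) then Real.log (1 + 1 / n / l i) else 0)) := by
      rw [← Real.exp_log (by linarith : 0 < 1 + invSum k l / n)]
      exact Real.exp_le_exp.2 h6
    have h8 : Real.exp (β / 2) / δ ≤ invSum k l / n := by
      rw [le_div_iff₀ hnR]; exact hl.2.le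
    rw [le_div_iff₀ (Real.exp_pos _)]
    calc δ⁻¹ * Real.exp (β / 2) = Real.exp (β / 2) / δ := by field_simp
      _ ≤ _ := by linarith
  have h2 : ENNReal.ofReal δ⁻¹ * laguerre β a n E ≤ 1 := by
    calc ENNReal.ofReal δ⁻¹ * laguerre β a n E
        = ∫⁻ l in E, ENNReal.ofReal δ⁻¹ ∂(laguerre β a n) := by
          rw [setLIntegral_const]
      _ ≤ ∫⁻ l in E, ENNReal.ofReal (Real.exp ((β * k + alpha β a) *
            (∑ i : Fin n, if k ≤ (i : ℕ) then Real.log (1 + 1 / n / l i) else 0) -
              β / 2 * n * (1 / n)))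
            ∂(laguerre β a n) := by
          refine setLIntegral_mono' hEm fun l hl => ?_
          exact ENNReal.ofReal_le_ofReal (hlow l hl)
      _ ≤ ∫⁻ l in chamber n, ENNReal.ofReal (Real.exp ((β * k + alpha β a) *
            (∑ i : Fin n, if k ≤ (i : ℕ) then Real.log (1 + 1 / n / l i) else 0) -
              β / 2 * n * (1 / n)))
            ∂(laguerre β a n) := lintegral_mono_set hEc
      _ ≤ laguerre β a n (chamber n) := hup
      _ ≤ 1 := prob_le_one
  rw [ENNReal.ofReal_inv_of_pos hδ] at h2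
  rwa [mul_comm, ← ENNReal.le_inv_iff_mul_le, inv_inv] at h2

/-- pointwise inequality for scaling the lower points -/
theorem scale_ineq {β α : ℝ} (hβ : 0 < β) {n : ℕ} (k : Fin n) {θ H d : ℝ} (hH : 0 < H)
    (hd : 0 < d) (hθ : θ = 1 / (2 * H * d)) (hθ1 : 1 ≤ θ) {l : Fin n → ℝ} (hl : l ∈ chamber n)
    (hlk : l k < d / n) (hS : invSum ((k : ℕ) + 1) l ≤ H * n) :
    (((k : ℕ) : ℝ) + 1) * ((1 + α) * Real.log θ - (β + β / (4 * H))) + lw β α l ≤
    lw β α (fun i => (if (i : ℕ) ≤ (k : ℕ) then θ else 1) * l i + 0) +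
    ∑ i : Fin n, Real.log (if (i : ℕ) ≤ (k : ℕ) then θ else 1) := by
  have hpos : ∀ i, 0 < l i := hl.1
  have hmono : StrictMono l := hl.2
  have hn : 0 < n := lt_of_le_of_lt (Nat.zero_le _) k.2
  have hnR : (0 : ℝ) < n := by exact_mod_cast hn
  have hθ0 : 0 < θ := by linarith
  have hlogθ : 0 ≤ Real.log θ := Real.log_nonneg hθ1
  have hθd : θ * d = 1 / (2 * H) := by rw [hθ]; field_simp
  -- bounds for the points
  have hlow : ∀ i : Fin n, (i : ℕ) ≤ (k : ℕ) → θ * l i ≤ 1 / (2 * H * n) := by
    intro i hi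
    have h1 : l i ≤ l k := hmono.monotone (Fin.le_def.2 hi)
    calc θ * l i ≤ θ * (d / n) := by
          apply mul_le_mul_of_nonneg_left _ hθ0.le; linarith
      _ = 1 / (2 * H * n) := by rw [← mul_div_assoc, hθd]; field_simp
  have hinv : ∀ j : Fin n, (k : ℕ) + 1 ≤ (j : ℕ) → (l j)⁻¹ ≤ H * n := by
    intro j hj
    refine le_trans ?_ hS
    unfold invSum
    have h1 : (l j)⁻¹ = if (k : ℕ) + 1 ≤ (j : ℕ) then (l j)⁻¹ else 0 := by rw [if_pos hj]
    conv_lhs => rw [h1]
    refine Finset.single_le_sum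
      (f := fun j : Fin n => if (k : ℕ) + 1 ≤ (j : ℕ) then (l j)⁻¹ else 0) (fun i _ => ?_)
      (Finset.mem_univ j)
    have := hpos i
    split_ifs <;> positivity
  have hup : ∀ j : Fin n, (k : ℕ) + 1 ≤ (j : ℕ) → 1 / (H * n) ≤ l j := by
    intro j hj
    have h1 := hinv j hj
    have h2 := hpos j
    rw [div_le_iff₀ (by positivity)]
    have h3 : l j * (l j)⁻¹ ≤ l j * (H * n) := mul_le_mul_of_nonneg_left h1 h2.le
    rwa [mul_inv_cancel₀ h2.ne'] at h3
  -- pair terms
  have hpair : ∀ i : Fin n, ∀ j ∈ Finset.Ioi i,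
      Real.log (l j - l i) + (if (i : ℕ) < (k : ℕ) + 1 ∧ (k : ℕ) + 1 ≤ (j : ℕ) then
        -(1 / (H * n) * (l j)⁻¹) else 0) ≤
      Real.log (((if (j : ℕ) ≤ (k : ℕ) then θ else 1) * l j + 0) -
        ((if (i : ℕ) ≤ (k : ℕ) then θ else 1) * l i + 0)) := by
    intro i j hj
    have hij : i < j := Finset.mem_Ioi.1 hj
    have hij' : (i : ℕ) < j := hij
    have hlt : l i < l j := hmono hij
    have hi := hpos i
    have hj := hpos j
    by_cases h1 : (j : ℕ) ≤ (k : ℕ)
    · rw [if_neg (by omega), if_pos h1, if_pos (by omega)]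
      have : θ * l j + 0 - (θ * l i + 0) = θ * (l j - l i) := by ring
      rw [this, Real.log_mul hθ0.ne' (by linarith)]
      linarith
    · by_cases h2 : (i : ℕ) ≤ (k : ℕ)
      · rw [if_pos ⟨by omega, by omega⟩, if_neg h1, if_pos h2]
        have h3 := hlow i h2
        have h4 := hup j (by omega)
        have h4' : 1 / (2 * H * n) = 1 / (H * n) / 2 := by field_simp
        have h5 : θ * l i ≤ l j / 2 := by rw [h4'] at h3; linarith
        have h6 : 0 < 1 - θ * l i / l j := by
          have : θ * l i / l j ≤ 1 / 2 := by rw [div_le_iff₀ hj]; linarith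
          linarith
        have h7 : 1 * l j + 0 - (θ * l i + 0) = l j * (1 - θ * l i / l j) := by
          field_simp; ring
        have h8 : Real.log (l j - l i) ≤ Real.log (l j) :=
          Real.log_le_log (by linarith) (by linarith)
        have h9 : -(1 / (H * n) * (l j)⁻¹) ≤ Real.log (1 - θ * l i / l j) := by
          have h10 := Real.one_sub_inv_le_log_of_pos h6
          refine le_trans ?_ h10
          have h11 : 1 - (1 - θ * l i / l j)⁻¹ = -(θ * l i / l j) / (1 - θ * l i / l j) := by
            rw [eq_div_iff h6.ne', sub_mul, inv_mul_cancel₀ h6.ne']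
            ring
          rw [h11, le_div_iff₀ h6]
          have h12 : θ * l i / l j ≤ 1 / (H * n) * (l j)⁻¹ / 2 := by
            rw [div_eq_mul_inv]
            have : θ * l i * (l j)⁻¹ ≤ 1 / (2 * H * n) * (l j)⁻¹ :=
              mul_le_mul_of_nonneg_right h3 (by positivity)
            rw [h4'] at this
            linarith
          have h13 : θ * l i / l j ≤ 1 / 2 := by rw [div_le_iff₀ hj]; linarith
          have h14 : 0 ≤ 1 / (H * n) * (l j)⁻¹ := by positivity
          nlinarith
        rw [h7, Real.log_mul hj.ne' h6.ne']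
        linarith
      · rw [if_neg (by omega), if_neg h1, if_neg h2]
        have : 1 * l j + 0 - (1 * l i + 0) = l j - l i := by ring
        rw [this]
        linarith
  have h1 : (∑ i : Fin n, ∑ j ∈ Finset.Ioi i, Real.log (l j - l i)) - (((k : ℕ) : ℝ) + 1) ≤
      ∑ i : Fin n, ∑ j ∈ Finset.Ioi i,
        Real.log (((if (j : ℕ) ≤ (k : ℕ) then θ else 1) * l j + 0) -
        ((if (i : ℕ) ≤ (k : ℕ) then θ else 1) * l i + 0)) := by
    have h3 := sum_pairs_cross (fun j : Fin n => -(1 / (H * n) * (l j)⁻¹)) ((k : ℕ) + 1)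
    have h4 : ∑ i : Fin n, ∑ j ∈ Finset.Ioi i, (Real.log (l j - l i) +
        (if (i : ℕ) < (k : ℕ) + 1 ∧ (k : ℕ) + 1 ≤ (j : ℕ) then
        -(1 / (H * n) * (l j)⁻¹) else 0)) ≤
        ∑ i : Fin n, ∑ j ∈ Finset.Ioi i,
        Real.log (((if (j : ℕ) ≤ (k : ℕ) then θ else 1) * l j + 0) -
        ((if (i : ℕ) ≤ (k : ℕ) then θ else 1) * l i + 0)) :=
      Finset.sum_le_sum fun i _ => Finset.sum_le_sum fun j hj => hpair i j hj
    simp only [Finset.sum_add_distrib] at h4
    have h5 : ∑ j : Fin n, (if (k : ℕ) + 1 ≤ (j : ℕ) then (((k : ℕ) + 1 : ℕ) : ℝ) *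
        (-(1 / (H * n) * (l j)⁻¹)) else 0) = -((((k : ℕ) : ℝ) + 1) * (1 / (H * n)) *
          invSum ((k : ℕ) + 1) l) := by
      unfold invSum
      rw [Finset.mul_sum, ← Finset.sum_neg_distrib]
      refine Finset.sum_congr rfl fun j _ => ?_
      split_ifs
      · push_cast; ring
      · simp
    rw [h5] at h3
    rw [h3] at h4
    have h6 : (((k : ℕ) : ℝ) + 1) * (1 / (H * n)) * invSum ((k : ℕ) + 1) l ≤
        ((k : ℕ) : ℝ) + 1 := by
      calc (((k : ℕ) : ℝ) + 1) * (1 / (H * n)) * invSum ((k : ℕ) + 1) l ≤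
            (((k : ℕ) : ℝ) + 1) * (1 / (H * n)) * (H * n) :=
              mul_le_mul_of_nonneg_left hS (by positivity)
        _ = ((k : ℕ) : ℝ) + 1 := by field_simp
    linarith
  have hcard : ∀ c : ℝ, ∑ i : Fin n, (if (i : ℕ) ≤ (k : ℕ) then c else 0) =
      (((k : ℕ) : ℝ) + 1) * c := by
    intro c
    rw [← Finset.sum_filter, Finset.sum_const, nsmul_eq_mul]
    congr 1
    have : Finset.univ.filter (fun j : Fin n => (j : ℕ) ≤ (k : ℕ)) = Finset.Iic k := by
      ext j
      rw [Finset.mem_filter, Finset.mem_Iic, Fin.le_def]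
      simp only [Finset.mem_univ, true_and]
    rw [this, Fin.card_Iic]
    push_cast; ring
  have h2 : (∑ i, (α * Real.log (l i) - β / 2 * l i)) +
      (((k : ℕ) : ℝ) + 1) * (α * Real.log θ - β / (4 * H)) ≤
      ∑ i : Fin n, (α * Real.log ((if (i : ℕ) ≤ (k : ℕ) then θ else 1) * l i + 0) -
        β / 2 * ((if (i : ℕ) ≤ (k : ℕ) then θ else 1) * l i + 0)) := by
    rw [← hcard, ← Finset.sum_add_distrib]
    refine Finset.sum_le_sum fun i _ => ?_
    have hi := hpos i
    split_ifs with h
    · rw [add_zero, Real.log_mul hθ0.ne' hi.ne']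
      have h3 := hlow i h
      have h4 : 1 / (2 * H * n) ≤ 1 / (2 * H) := by
        apply one_div_le_one_div_of_le (by positivity)
        have : (1 : ℝ) ≤ n := by exact_mod_cast hn
        nlinarith
      have h5 : β / 2 * (θ * l i) ≤ β / (4 * H) := by
        calc β / 2 * (θ * l i) ≤ β / 2 * (1 / (2 * H)) := by
              apply mul_le_mul_of_nonneg_left _ (by positivity); linarith
          _ = β / (4 * H) := by field_simp; ring
      have h6 : 0 < β * l i := mul_pos hβ hi
      linarith
    · simp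
  have h5 : ∑ i : Fin n, Real.log (if (i : ℕ) ≤ (k : ℕ) then θ else 1) =
      (((k : ℕ) : ℝ) + 1) * Real.log θ := by
    rw [← hcard]
    refine Finset.sum_congr rfl fun i _ => ?_
    split_ifs <;> simp
  unfold lw
  rw [h5]
  have h8 := mul_le_mul_of_nonneg_left h1 hβ.le
  nlinarith [h8, h2]

/-- Down-induction step for the tightness of `invSum k / n`. -/
theorem tightInv_step {β a : ℝ} (hβ : 0 < β) (ha : -1 < a) (k : ℕ)
    (hk : TightInv β a (k + 1)) : TightInv β a k := by
  intro δ hδ
  obtain ⟨H, hH, hH'⟩ := hk (δ / 2) (by positivity)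
  have hα := alpha_gt hβ ha
  obtain ⟨α, hαdef⟩ : ∃ α : ℝ, α = alpha β a := ⟨_, rfl⟩
  rw [← hαdef] at hα
  -- choose θ large
  obtain ⟨C, hC⟩ : ∃ C : ℝ, C = (((k : ℕ) : ℝ) + 1) * (β + β / (4 * H)) := ⟨_, rfl⟩
  have hlim : ∃ x : ℝ, 0 ≤ x ∧ Real.exp (-(((k : ℝ) + 1) * ((1 + α) * x) - C)) ≤ δ / 2 := by
    refine ⟨max 0 ((C - Real.log (δ / 2)) / (((k : ℝ) + 1) * (1 + α))), le_max_left _ _, ?_⟩
    rw [← Real.le_log_iff_exp_le (by positivity)]
    have h1 : 0 < ((k : ℝ) + 1) * (1 + α) := by
      apply mul_pos (by positivity) (by linarith)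
    have h2 := le_max_right 0 ((C - Real.log (δ / 2)) / (((k : ℝ) + 1) * (1 + α)))
    rw [div_le_iff₀ h1] at h2
    nlinarith
  obtain ⟨x, hx0, hx⟩ := hlim
  obtain ⟨θ, hθ⟩ : ∃ θ : ℝ, θ = Real.exp x := ⟨_, rfl⟩
  have hθ1 : 1 ≤ θ := by rw [hθ]; exact Real.one_le_exp hx0
  have hθ0 : 0 < θ := by linarith
  obtain ⟨d, hd⟩ : ∃ d : ℝ, d = 1 / (2 * H * θ) := ⟨_, rfl⟩
  have hd0 : 0 < d := by rw [hd]; positivity
  have hθd : θ = 1 / (2 * H * d) := by rw [hd]; field_simp
  refine ⟨H + 1 / d, by positivity, fun n hn => ?_⟩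
  have := isProbabilityMeasure_laguerre hβ ha n
  have hnR : (0 : ℝ) < n := by exact_mod_cast hn
  by_cases hkn : k < n
  · obtain ⟨kk, hkk⟩ : ∃ kk : Fin n, (kk : ℕ) = k := ⟨⟨k, hkn⟩, rfl⟩
    subst hkk
    obtain ⟨A, hA⟩ : ∃ A : Set (Fin n → ℝ), A = {l | (l ∈ chamber n ∧ l kk < d / n) ∧
      invSum ((kk : ℕ) + 1) l ≤ H * n} := ⟨_, rfl⟩
    have hAm : MeasurableSet A := by
      rw [hA]
      exact ((measurableSet_chamber n).inter (measurableSet_lt (measurable_pi_apply kk)
        measurable_const)).inter (measurableSet_le (measurable_invSum _) measurable_const)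
    have hAc : A ⊆ chamber n := by rw [hA]; exact fun l hl => hl.1.1
    have hPA : laguerre β a n A ≤ ENNReal.ofReal (δ / 2) := by
      have htr := transport β a (fun i : Fin n => if (i : ℕ) ≤ (kk : ℕ) then θ else 1)
        (fun _ : Fin n => 0) (fun i => by split_ifs <;> linarith) hAm hAc
        (measurableSet_chamber n) (Subset.refl _) (fun l hl => ?_)
        (fun _ => (((kk : ℕ) : ℝ) + 1) * ((1 + alpha β a) * Real.log θ - (β + β / (4 * H))))
        (fun l hl => by
          rw [hA] at hl
          exact scale_ineq hβ kk hH hd0 hθd hθ1 hl.1.1 hl.1.2 hl.2)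
      · rw [setLIntegral_const] at htr
        have h1 : (((kk : ℕ) : ℝ) + 1) * ((1 + alpha β a) * Real.log θ - (β + β / (4 * H))) =
            ((kk : ℕ) + 1) * ((1 + α) * x) - C := by
          rw [hC, hθ, Real.log_exp, ← hαdef]; ring
        rw [h1] at htr
        have h2 := htr.trans prob_le_one
        rw [mul_comm, ← ENNReal.le_inv_iff_mul_le, ← ENNReal.ofReal_inv_of_pos (Real.exp_pos _),
          ← Real.exp_neg] at h2
        exact h2.trans (ENNReal.ofReal_le_ofReal hx)
      · rw [hA] at hl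
        obtain ⟨⟨hlc, hlk⟩, hS⟩ := hl
        -- membership in the chamber
        have hlow : ∀ i : Fin n, (i : ℕ) ≤ (kk : ℕ) → θ * l i ≤ 1 / (2 * H * n) := by
          intro i hi
          have h1 : l i ≤ l kk := hlc.2.monotone (Fin.le_def.2 hi)
          calc θ * l i ≤ θ * (d / n) := by
                apply mul_le_mul_of_nonneg_left _ hθ0.le; linarith
            _ = 1 / (2 * H * n) := by rw [hd]; field_simp
        have hup : ∀ j : Fin n, (kk : ℕ) + 1 ≤ (j : ℕ) → 1 / (H * n) ≤ l j := by
          intro j hj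
          have h2 := hlc.1 j
          have h1 : (l j)⁻¹ ≤ H * n := by
            refine le_trans ?_ hS
            unfold invSum
            have h1 : (l j)⁻¹ = if (kk : ℕ) + 1 ≤ (j : ℕ) then (l j)⁻¹ else 0 := by
              rw [if_pos hj]
            conv_lhs => rw [h1]
            refine Finset.single_le_sum
              (f := fun j : Fin n => if (kk : ℕ) + 1 ≤ (j : ℕ) then (l j)⁻¹ else 0)
              (fun i _ => ?_) (Finset.mem_univ j)
            have := hlc.1 i
            split_ifs <;> positivity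
          rw [div_le_iff₀ (by positivity)]
          have h3 : l j * (l j)⁻¹ ≤ l j * (H * n) := mul_le_mul_of_nonneg_left h1 h2.le
          rwa [mul_inv_cancel₀ h2.ne'] at h3
        refine ⟨fun i => ?_, fun i j hij => ?_⟩
        · have := hlc.1 i
          dsimp only
          split_ifs
          · rw [add_zero]; positivity
          · linarith
        · have h1 := hlc.2 hij
          have hij' : (i : ℕ) < j := hij
          dsimp only
          split_ifs with h h' h'
          · simp only [add_zero]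
            exact mul_lt_mul_of_pos_left h1 hθ0
          · have h2 := hlow i h
            have h3 := hup j (by omega)
            have h4 : 1 / (2 * H * n) < 1 / (H * n) := by
              apply one_div_lt_one_div_of_lt (by positivity)
              have : 0 < H * n := by positivity
              linarith
            linarith
          · omega
          · linarith
    have hsub : {l : Fin n → ℝ | l ∈ chamber n ∧ (H + 1 / d) * n < invSum (kk : ℕ) l} ⊆
        {l | l ∈ chamber n ∧ H * n < invSum ((kk : ℕ) + 1) l} ∪ A := by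
      rintro l ⟨hlc, hS⟩
      by_cases h1 : H * n < invSum ((kk : ℕ) + 1) l
      · exact Or.inl ⟨hlc, h1⟩
      · right
        push Not at h1
        rw [hA]
        refine ⟨⟨hlc, ?_⟩, h1⟩
        have h2 : invSum (kk : ℕ) l = (l kk)⁻¹ + invSum ((kk : ℕ) + 1) l := by
          unfold invSum
          have h3 : (l kk)⁻¹ = ∑ i : Fin n, if i = kk then (l i)⁻¹ else 0 := by simp
          rw [h3, ← Finset.sum_add_distrib]
          refine Finset.sum_congr rfl fun i _ => ?_
          by_cases h4 : i = kk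
          · subst h4
            rw [if_pos le_rfl, if_pos rfl, if_neg (by omega), add_zero]
          · have h5 : (i : ℕ) ≠ (kk : ℕ) := fun h => h4 (Fin.ext h)
            rw [if_neg h4, zero_add]
            by_cases h6 : (kk : ℕ) ≤ (i : ℕ)
            · rw [if_pos h6, if_pos (by omega)]
            · rw [if_neg h6, if_neg (by omega)]
        rw [h2] at hS
        have h3 : 1 / d * n < (l kk)⁻¹ := by linarith
        have h4 := hlc.1 kk
        rw [lt_div_iff₀ hnR]
        rw [one_div, inv_mul_eq_div, div_lt_iff₀ hd0] at h3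
        have h5 : l kk * n < l kk * ((l kk)⁻¹ * d) := mul_lt_mul_of_pos_left h3 h4
        rwa [← mul_assoc, mul_inv_cancel₀ h4.ne', one_mul] at h5
    calc laguerre β a n {l | l ∈ chamber n ∧ (H + 1 / d) * n < invSum (kk : ℕ) l}
        ≤ laguerre β a n {l | l ∈ chamber n ∧ H * n < invSum ((kk : ℕ) + 1) l} +
          laguerre β a n A := (measure_mono hsub).trans (measure_union_le _ _)
      _ ≤ ENNReal.ofReal (δ / 2) + ENNReal.ofReal (δ / 2) := add_le_add (hH' n hn) hPA
      _ = ENNReal.ofReal δ := by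
          rw [← ENNReal.ofReal_add (by positivity) (by positivity)]; congr 1; ring
  · have : {l : Fin n → ℝ | l ∈ chamber n ∧ (H + 1 / d) * n < invSum k l} = ∅ := by
      ext l
      simp only [mem_empty_iff_false, iff_false]
      rintro ⟨-, h⟩
      have h1 : invSum k l = 0 := by
        unfold invSum
        refine Finset.sum_eq_zero fun i _ => ?_
        rw [if_neg]
        have := i.2
        omega
      rw [h1] at h
      have : 0 < (H + 1 / d) * n := by positivity
      linarith
    rw [this]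
    simp

theorem tightInv_zero {β a : ℝ} (hβ : 0 < β) (ha : -1 < a) : TightInv β a 0 := by
  obtain ⟨k, hk⟩ := exists_nat_ge ((1 - alpha β a) / β)
  have hk' : 1 ≤ β * k + alpha β a := by
    rw [div_le_iff₀ hβ] at hk; linarith
  have h : ∀ j : ℕ, j ≤ k → TightInv β a (k - j) := by
    intro j
    induction j with
    | zero => intro _; exact tightInv_base hβ ha k hk'
    | succ j ih =>
      intro hj
      apply tightInv_step hβ ha
      have h1 := ih (by omega)
      have h2 : k - (j + 1) + 1 = k - j := by omega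
      rwa [h2]
  have := h k le_rfl
  simpa using this

theorem laguerre_compl_chamber (β a : ℝ) (n : ℕ) : laguerre β a n (chamber n)ᶜ = 0 := by
  unfold laguerre laguerreWeight
  rw [Measure.smul_apply, withDensity_apply _ (measurableSet_chamber n).compl,
    Measure.restrict_restrict (measurableSet_chamber n).compl]
  simp

theorem edge_tight {β a : ℝ} (hβ : 0 < β) (ha : -1 < a) (c : ℝ) (hc : 0 < c) :
    ∀ δ : ℝ, 0 < δ → ∃ η : ℝ, 0 < η ∧ ∀ᶠ n : ℕ in atTop,
      laguerre β a n {l | ∃ i, c * n * l i < η} ≤ ENNReal.ofReal δ := by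
  intro δ hδ
  obtain ⟨H, hH, hH'⟩ := tightInv_zero hβ ha δ hδ
  refine ⟨c / H, by positivity, ?_⟩
  filter_upwards [eventually_gt_atTop 0] with n hn
  have hnR : (0 : ℝ) < n := by exact_mod_cast hn
  have hsub : {l : Fin n → ℝ | ∃ i, c * n * l i < c / H} ⊆
      {l | l ∈ chamber n ∧ H * n < invSum 0 l} ∪ (chamber n)ᶜ := by
    rintro l ⟨i, hi⟩
    by_cases hlc : l ∈ chamber n
    · left
      refine ⟨hlc, ?_⟩
      have h1 : (l i)⁻¹ ≤ invSum 0 l := by
        unfold invSum
        have h1 : (l i)⁻¹ = if 0 ≤ (i : ℕ) then (l i)⁻¹ else 0 := by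
          rw [if_pos (Nat.zero_le _)]
        conv_lhs => rw [h1]
        refine Finset.single_le_sum
          (f := fun j : Fin n => if 0 ≤ (j : ℕ) then (l j)⁻¹ else 0)
          (fun i _ => ?_) (Finset.mem_univ i)
        have := hlc.1 i
        split_ifs <;> positivity
      have h2 := hlc.1 i
      refine lt_of_lt_of_le ?_ h1
      rw [lt_inv_comm₀ (by positivity) h2]
      rw [lt_div_iff₀ hH] at hi
      rw [← one_div, lt_div_iff₀ (by positivity)]
      have h3 : c * n * l i * H = c * (l i * (H * n)) := by ring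
      rw [h3] at hi
      have h4 : c * (l i * (H * n)) < c * 1 := by linarith
      exact lt_of_mul_lt_mul_left h4 hc.le
    · right; exact hlc
  calc laguerre β a n {l | ∃ i, c * n * l i < c / H}
      ≤ laguerre β a n {l | l ∈ chamber n ∧ H * n < invSum 0 l} +
        laguerre β a n (chamber n)ᶜ := (measure_mono hsub).trans (measure_union_le _ _)
    _ ≤ ENNReal.ofReal δ := by rw [laguerre_compl_chamber, add_zero]; exact hH' n hn

end MPe6d203
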