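import Pool.Agent.Lib.MP_e6d203_pr.Stat

/-!
# Concentration of the log-cutoff statistic for the Laguerre ensemble
-/

namespace MPe6d203

open MeasureTheory Set Filter Topology
open scoped ENNReal

/-- the tail sequence -/
noncomputable def tailSeq (β : ℝ) (i : ℕ) : ℝ :=
  Real.exp (-(β / 18 * ((i : ℝ) + 1) ^ 2)) + Real.exp (-((i : ℝ) + 1) ^ 2)

theorem tailSeq_nonneg (β : ℝ) (i : ℕ) : 0 ≤ tailSeq β i := by
  unfold tailSeq; positivity

theorem summable_exp_sq {b : ℝ} (hb : 0 < b) :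
    Summable fun i : ℕ => Real.exp (-(b * ((i : ℝ) + 1) ^ 2)) := by
  have h : Summable fun i : ℕ => Real.exp (-b) ^ i :=
    summable_geometric_of_lt_one (Real.exp_pos _).le (by rw [Real.exp_lt_one_iff]; linarith)
  refine Summable.of_nonneg_of_le (fun i => (Real.exp_pos _).le) (fun i => ?_) h
  rw [← Real.exp_nat_mul]
  apply Real.exp_le_exp.2
  have hi : (0 : ℝ) ≤ i := Nat.cast_nonneg i
  have : (i : ℝ) ≤ ((i : ℝ) + 1) ^ 2 := by nlinarith
  nlinarith

theorem summable_tailSeq {β : ℝ} (hβ : 0 < β) : Summable (tailSeq β) := by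
  unfold tailSeq
  refine Summable.add (summable_exp_sq (by positivity)) ?_
  have := summable_exp_sq (b := 1) one_pos
  simpa using this

theorem tailSeq_small {β : ℝ} (hβ : 0 < β) {δ : ℝ} (hδ : 0 < δ) :
    ∃ m₀ : ℕ, ∀ m, m₀ ≤ m → ∀ N, ∑ i ∈ Finset.Ico m N, tailSeq β i ≤ δ := by
  have h := tendsto_sum_nat_add (tailSeq β)
  have h2 : ∀ᶠ m : ℕ in atTop, ∑' k, tailSeq β (k + m) < δ :=
    h.eventually (gt_mem_nhds hδ)
  obtain ⟨m₀, hm₀⟩ := eventually_atTop.1 h2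
  refine ⟨m₀, fun m hm N => ?_⟩
  refine le_trans ?_ (hm₀ m hm).le
  rw [Finset.sum_Ico_eq_sum_range]
  have hs : Summable fun k => tailSeq β (k + m) :=
    (summable_nat_add_iff m).2 (summable_tailSeq hβ)
  have := hs.sum_le_tsum (Finset.range (N - m)) (fun i _ => tailSeq_nonneg β _)
  simpa [add_comm] using this

theorem Kset_compl {β a : ℝ} (hβ : 0 < β) (ha : -1 < a) {M : ℝ}
    (hM : ∀ n : ℕ, ∀ k : Fin n, 2 * (k : ℕ) ≤ n →
      laguerre β a n {l | l ∈ chamber n ∧ M * ((k : ℕ) + 1) ^ 2 / n < l k} ≤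
        ENNReal.ofReal (Real.exp (-(((k : ℕ) : ℝ) + 1) ^ 2)))
    {m N n : ℕ} (hm1 : 1 ≤ m) (hm2 : 1 ≤ β / 2 * ((m + 1) / 2 : ℕ)) (hn : 4 * N ≤ n) :
    laguerre β a n (Kset M m N n)ᶜ ≤
      ENNReal.ofReal (∑ i ∈ Finset.Ico m (2 * N), tailSeq β i) := by
  have hα := alpha_gt hβ ha
  rcases Nat.eq_zero_or_pos n with hn0 | hn0
  · subst hn0
    have : (Kset M m N 0)ᶜ ⊆ (chamber 0)ᶜ := by
      apply compl_subset_compl.2
      intro l hl
      exact ⟨hl, fun i => i.elim0⟩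
    exact (measure_mono this).trans (by rw [laguerre_compl_chamber]; exact zero_le)
  have hnR : (0 : ℝ) < n := by exact_mod_cast hn0
  -- bad events
  obtain ⟨L, hL⟩ : ∃ L : Fin n → Set (Fin n → ℝ), L = fun i : Fin n =>
    if m ≤ (i : ℕ) ∧ (i : ℕ) < 2 * N then
      ({l | l ∈ chamber n ∧ l i < (((i : ℕ) : ℝ) + 1) ^ 2 / (72 * n)} ∪
        {l | l ∈ chamber n ∧ M * (((i : ℕ) : ℝ) + 1) ^ 2 / n < l i}) else ∅ := ⟨_, rfl⟩
  have hsub : (Kset M m N n)ᶜ ⊆ (chamber n)ᶜ ∪ ⋃ i, L i := by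
    intro l hl
    by_cases hlc : l ∈ chamber n
    · right
      have h1 : ∃ i : Fin n, m ≤ (i : ℕ) ∧ (i : ℕ) < 2 * N ∧
          ¬ ((((i : ℕ) : ℝ) + 1) ^ 2 / 72 ≤ n * l i ∧ n * l i ≤ M * (((i : ℕ) : ℝ) + 1) ^ 2) := by
        by_contra hcon
        push Not at hcon
        exact hl ⟨hlc, fun i h2 h3 => hcon i h2 h3⟩
      obtain ⟨i, h2, h3, h4⟩ := h1
      rw [mem_iUnion]
      refine ⟨i, ?_⟩
      rw [hL]
      dsimp only
      rw [if_pos ⟨h2, h3⟩]
      rw [not_and_or, not_le, not_le] at h4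
      rcases h4 with h4 | h4
      · left
        refine ⟨hlc, ?_⟩
        rw [lt_div_iff₀ (by positivity)]
        linarith
      · right
        refine ⟨hlc, ?_⟩
        rw [div_lt_iff₀ hnR]
        linarith
    · left; exact hlc
  have hLi : ∀ i : Fin n, laguerre β a n (L i) ≤
      ENNReal.ofReal (if m ≤ (i : ℕ) ∧ (i : ℕ) < 2 * N then tailSeq β i else 0) := by
    intro i
    rw [hL]
    dsimp only
    split_ifs with h
    · refine (measure_union_le _ _).trans ?_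
      unfold tailSeq
      rw [ENNReal.ofReal_add (Real.exp_pos _).le (Real.exp_pos _).le]
      refine add_le_add (lower_tail hβ ha i (by omega) ?_) (hM n i (by omega))
      have h5 : ((m + 1) / 2 : ℕ) ≤ (((i : ℕ) + 1) / 2 : ℕ) := by
        apply Nat.div_le_div_right; omega
      have h6 : (((m + 1) / 2 : ℕ) : ℝ) ≤ ((((i : ℕ) + 1) / 2 : ℕ) : ℝ) := by exact_mod_cast h5
      have h7 := mul_le_mul_of_nonneg_left h6 (by positivity : 0 ≤ β / 2)
      linarith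
    · simp
  calc laguerre β a n (Kset M m N n)ᶜ
      ≤ laguerre β a n (chamber n)ᶜ + laguerre β a n (⋃ i, L i) :=
        (measure_mono hsub).trans (measure_union_le _ _)
    _ ≤ ∑ i, laguerre β a n (L i) := by
        rw [laguerre_compl_chamber, zero_add]
        exact measure_iUnion_fintype_le _ _
    _ ≤ ∑ i : Fin n, ENNReal.ofReal (if m ≤ (i : ℕ) ∧ (i : ℕ) < 2 * N then tailSeq β i else 0) :=
        Finset.sum_le_sum fun i _ => hLi i
    _ = ENNReal.ofReal (∑ i : Fin n,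
          (if m ≤ (i : ℕ) ∧ (i : ℕ) < 2 * N then tailSeq β i else 0)) := by
        rw [ENNReal.ofReal_sum_of_nonneg]
        intro i _
        split_ifs
        · exact tailSeq_nonneg β _
        · exact le_rfl
    _ ≤ ENNReal.ofReal (∑ i ∈ Finset.Ico m (2 * N), tailSeq β i) := by
        apply ENNReal.ofReal_le_ofReal
        rw [Fin.sum_univ_eq_sum_range
          (fun i => if m ≤ i ∧ i < 2 * N then tailSeq β i else 0) n, ← Finset.sum_filter]
        refine Finset.sum_le_sum_of_subset_of_nonneg ?_ (fun i _ _ => tailSeq_nonneg β i)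
        intro i hi
        rw [Finset.mem_filter] at hi
        rw [Finset.mem_Ico]
        exact hi.2

theorem sum_inv_le {N n : ℕ} (m : ℕ) {B : ℝ} (hB : 0 ≤ B) :
    ∑ i : Fin n, (if m ≤ (i : ℕ) ∧ (i : ℕ) < N then B / (((i : ℕ) : ℝ) + 1) else 0) ≤
      B * (1 + Real.log N) := by
  rw [Fin.sum_univ_eq_sum_range
    (fun i => if m ≤ i ∧ i < N then B / ((i : ℝ) + 1) else 0) n, ← Finset.sum_filter]
  calc ∑ i ∈ (Finset.range n).filter (fun i => m ≤ i ∧ i < N), B / ((i : ℝ) + 1)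
      ≤ ∑ i ∈ Finset.range N, B / ((i : ℝ) + 1) := by
        refine Finset.sum_le_sum_of_subset_of_nonneg ?_ (fun i _ _ => by positivity)
        intro i hi
        rw [Finset.mem_filter] at hi
        rw [Finset.mem_range]
        exact hi.2.2
    _ = B * ((harmonic N : ℚ) : ℝ) := by
        unfold harmonic
        push_cast
        rw [Finset.mul_sum]
        refine Finset.sum_congr rfl fun i _ => ?_
        rw [div_eq_mul_inv]
    _ ≤ B * (1 + Real.log N) := mul_le_mul_of_nonneg_left (harmonic_le_one_add_log N) hB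

/-- Concentration of a log-cutoff linear statistic, uniformly in the size of the ensemble. -/
theorem conc_laguerre {β a : ℝ} (hβ : 0 < β) (ha : -1 < a) {c : ℝ} (hc : 0 < c) :
    ∀ b : ℝ, 0 < b → ∀ ε : ℝ, 0 < ε → ∃ φ : ℝ → ℝ, Continuous φ ∧ (∀ x ≤ b, φ x = 1) ∧
      (∃ R, ∀ x, R ≤ x → φ x = 0) ∧ ∀ᶠ n : ℕ in atTop,
        ∃ C : ℝ, laguerre β a n {l | ε ≤ |∑ i, φ (c * n * l i) - C|} ≤ ENNReal.ofReal ε := by
  intro b hb ε hε
  have hα := alpha_gt hβ ha
  obtain ⟨M, hM0, hM⟩ := upper_tail hβ ha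
  obtain ⟨m₀, hm₀⟩ := tailSeq_small hβ (half_pos hε)
  -- choice of m
  obtain ⟨m₁, hm₁⟩ := exists_nat_ge (4 / β)
  obtain ⟨m₂, hm₂⟩ := exists_nat_ge (b / (c * M))
  obtain ⟨m, hmdef⟩ : ∃ m : ℕ, m = max m₀ (max m₁ m₂) + 1 := ⟨_, rfl⟩
  have hmm₀ : m₀ ≤ m := by rw [hmdef]; exact (le_max_left _ _).trans (Nat.le_succ _)
  have hmm₁ : m₁ ≤ m := by
    rw [hmdef]; exact ((le_max_left _ _).trans (le_max_right _ _)).trans (Nat.le_succ _)
  have hmm₂ : m₂ ≤ m := by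
    rw [hmdef]; exact ((le_max_right _ _).trans (le_max_right _ _)).trans (Nat.le_succ _)
  have hm1 : 1 ≤ m := by omega
  have hmβ : 4 / β ≤ m := hm₁.trans (by exact_mod_cast hmm₁)
  have hmβ' : 4 ≤ β * m := by rw [div_le_iff₀ hβ] at hmβ; linarith
  have hm2 : 1 ≤ β / 2 * ((m + 1) / 2 : ℕ) := by
    have h1 : m ≤ 2 * ((m + 1) / 2) := by omega
    have h2 : (m : ℝ) ≤ 2 * (((m + 1) / 2 : ℕ) : ℝ) := by exact_mod_cast h1
    have h3 := mul_le_mul_of_nonneg_left h2 hβ.le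
    linarith
  have hmm : 0 ≤ 2 * β * m + 2 * alpha β a + 1 := by linarith
  obtain ⟨X₀, hX₀⟩ : ∃ X₀ : ℝ, X₀ = c * M * ((m : ℝ) + 1) ^ 2 := ⟨_, rfl⟩
  have hX₀0 : 0 < X₀ := by rw [hX₀]; positivity
  have hbX₀ : b ≤ X₀ := by
    have h1 : b / (c * M) ≤ m := hm₂.trans (by exact_mod_cast hmm₂)
    rw [div_le_iff₀ (by positivity)] at h1
    rw [hX₀]
    have h2 : (m : ℝ) ≤ ((m : ℝ) + 1) ^ 2 := by
      have : (0 : ℝ) ≤ m := Nat.cast_nonneg m
      nlinarith
    have h3 := mul_le_mul_of_nonneg_left h2 (by positivity : 0 ≤ c * M)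
    linarith
  -- choice of r
  obtain ⟨r, hr⟩ : ∃ r : ℝ, r = (1 + |Real.log (ε / 4)|) / ε := ⟨_, rfl⟩
  have hr0 : 0 < r := by rw [hr]; positivity
  have hrε : 2 * Real.exp (1 - r * ε) ≤ ε / 2 := by
    have h1 : r * ε = 1 + |Real.log (ε / 4)| := by rw [hr]; field_simp
    have h2 : 1 - r * ε ≤ Real.log (ε / 4) := by
      rw [h1]
      have := neg_abs_le (Real.log (ε / 4))
      linarith
    have h3 : Real.exp (1 - r * ε) ≤ ε / 4 := by
      rw [← Real.le_log_iff_exp_le (by positivity)]; exact h2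
    linarith
  -- choice of N
  obtain ⟨Kc, hKc⟩ : ∃ Kc : ℝ, Kc = r ^ 2 * (2 * Real.sqrt 72) ^ 2 * (18 * M) / (4 * β) := ⟨_, rfl⟩
  have hKc0 : 0 < Kc := by rw [hKc]; positivity
  obtain ⟨Cc, hCc⟩ : ∃ Cc : ℝ, Cc = Real.log (72 * M * ((m : ℝ) + 1) ^ 2) := ⟨_, rfl⟩
  have hlim : Tendsto (fun N : ℕ => Real.log ((N : ℝ) + 1)) atTop atTop :=
    Real.tendsto_log_atTop.comp
      (tendsto_atTop_add_const_right _ _ tendsto_natCast_atTop_atTop)
  obtain ⟨N, hN1, hN2⟩ : ∃ N : ℕ, m < N ∧ max (Kc + 1) (|Cc| + 1) ≤ Real.log ((N : ℝ) + 1) :=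
    ((eventually_gt_atTop m).and (hlim.eventually_ge_atTop (max (Kc + 1) (|Cc| + 1)))).exists
  obtain ⟨y, hy⟩ : ∃ y : ℝ, y = Real.log ((N : ℝ) + 1) := ⟨_, rfl⟩
  rw [← hy] at hN2
  have hyK : Kc + 1 ≤ y := (le_max_left _ _).trans hN2
  have hyC : |Cc| + 1 ≤ y := (le_max_right _ _).trans hN2
  obtain ⟨X₁, hX₁⟩ : ∃ X₁ : ℝ, X₁ = c * ((N : ℝ) + 1) ^ 2 / 72 := ⟨_, rfl⟩
  have hΛ : Real.log (X₁ / X₀) = 2 * y - Cc := by
    have h1 : X₁ / X₀ = ((N : ℝ) + 1) ^ 2 / (72 * M * ((m : ℝ) + 1) ^ 2) := by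
      rw [hX₁, hX₀]; field_simp
    rw [h1, Real.log_div (by positivity) (by positivity), Real.log_pow, hCc, hy]
    push_cast; ring
  have hCle := le_abs_self Cc
  have hyΛ : y ≤ 2 * y - Cc := by linarith
  have hCnn := abs_nonneg Cc
  have hy1 : 1 ≤ y := by linarith
  have hX01 : X₀ < X₁ := by
    by_contra hcon
    push Not at hcon
    have h2 : X₁ / X₀ ≤ 1 := by rw [div_le_one hX₀0]; exact hcon
    have h3 : 0 < X₁ / X₀ := by
      rw [hX₁]; positivity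
    have h4 := Real.log_nonpos h3.le h2
    rw [hΛ] at h4
    linarith
  obtain ⟨Λ, hΛdef⟩ : ∃ Λ : ℝ, Λ = Real.log (X₁ / X₀) := ⟨_, rfl⟩
  have hΛy : y ≤ Λ := by rw [hΛdef, hΛ]; exact hyΛ
  have hΛ0 : 0 < Λ := by linarith
  refine ⟨cutoff X₀ X₁, cutoff_continuous hX₀0 hX01, fun x hx => cutoff_one hX₀0 hX01
    (hx.trans hbX₀), ⟨X₁, fun x hx => cutoff_zero hX₀0 hX01 hx⟩, ?_⟩
  filter_upwards [eventually_ge_atTop (4 * N)] with n hn
  have := isProbabilityMeasure_laguerre hβ ha n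
  obtain ⟨F, hF⟩ : ∃ F : (Fin n → ℝ) → ℝ, F = fun l => ∑ i, cutoff X₀ X₁ (c * n * l i) :=
    ⟨_, rfl⟩
  have hFm : Measurable F := by
    rw [hF]
    refine Finset.measurable_sum _ fun i _ => ?_
    exact (cutoff_continuous hX₀0 hX01).measurable.comp (by fun_prop)
  have hFle : ∀ l, F l ≤ n := by
    intro l
    rw [hF]
    calc ∑ i, cutoff X₀ X₁ (c * n * l i) ≤ ∑ _i : Fin n, (1 : ℝ) :=
          Finset.sum_le_sum fun i _ => cutoff_le_one _ _ _
      _ = n := by simp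
  have hexp := exp_conc (a := a) hβ hM0 hmm (by omega : 2 * N ≤ n) F hFm
    (2 * Real.sqrt 72 / Λ) r hr0.le (fun u hu u' hu' => by
      rw [hF, hΛdef, hX₁, hX₀]
      exact stat_lip hM0 hc hN1 (by omega) (by rw [← hX₀, ← hX₁]; exact hX01) hu hu') 1 (by
      have h1 : ∀ i : Fin n, (if m ≤ (i : ℕ) ∧ (i : ℕ) < N then
          r ^ 2 * (2 * Real.sqrt 72 / Λ) ^ 2 * (18 * M) / (4 * β * (((i : ℕ) : ℝ) + 1)) else 0) =
          (if m ≤ (i : ℕ) ∧ (i : ℕ) < N then (Kc / Λ ^ 2) / (((i : ℕ) : ℝ) + 1) else 0) := by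
        intro i
        split_ifs
        · rw [hKc]; field_simp
        · rfl
      rw [Finset.sum_congr rfl fun i _ => h1 i]
      refine (sum_inv_le m (by positivity)).trans ?_
      have h2 : Real.log N ≤ y := by
        rw [hy]
        apply Real.log_le_log
        · have : 0 < N := by omega
          exact_mod_cast this
        · linarith
      rw [div_mul_eq_mul_div, div_le_one (by positivity)]
      calc Kc * (1 + Real.log N) ≤ Kc * (1 + y) := by gcongr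
        _ ≤ y ^ 2 := by nlinarith
        _ ≤ Λ ^ 2 := by gcongr)
  have hfin : ∫⁻ l in Kset M m N n, ENNReal.ofReal (Real.exp (r * F l)) ∂(laguerre β a n) ≠ ∞ := by
    have h1 : ∫⁻ l in Kset M m N n, ENNReal.ofReal (Real.exp (r * F l)) ∂(laguerre β a n) ≤
        ∫⁻ l in Kset M m N n, ENNReal.ofReal (Real.exp (r * n)) ∂(laguerre β a n) := by
      refine lintegral_mono fun l => ?_
      exact ENNReal.ofReal_le_ofReal (Real.exp_le_exp.2 (mul_le_mul_of_nonneg_left (hFle l)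
        hr0.le))
    refine ne_top_of_le_ne_top ?_ h1
    rw [setLIntegral_const]
    exact ENNReal.mul_ne_top ENNReal.ofReal_ne_top (measure_ne_top _ _)
  obtain ⟨C, hC⟩ := two_sided (laguerre β a n) (measurableSet_Kset M m N n) hFm (ε := ε) hr0
    zero_le_one hexp hfin
  refine ⟨C, ?_⟩
  have hK := Kset_compl hβ ha hM hm1 hm2 hn
  rw [hF] at hC
  refine hC.trans ?_
  calc laguerre β a n (Kset M m N n)ᶜ + ENNReal.ofReal (2 * Real.exp (1 - r * ε))
      ≤ ENNReal.ofReal (ε / 2) + ENNReal.ofReal (ε / 2) := by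
        refine add_le_add (hK.trans (ENNReal.ofReal_le_ofReal (hm₀ m hmm₀ _)))
          (ENNReal.ofReal_le_ofReal hrε)
    _ = ENNReal.ofReal ε := by
        rw [← ENNReal.ofReal_add (by positivity) (by positivity)]; congr 1; ring

end MPe6d203
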