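import Pool.Agent.Lib.MP_e6d203_pr.Shift

/-!
# The midpoint inequality for the Laguerre density in mixed coordinates
-/

namespace MPe6d203

open MeasureTheory Set Filter Topology
open scoped ENNReal

theorem geom_mean_ineq {a b a' b' p q : ℝ} (ha : 0 < a) (ha' : 0 < a') (hb : 0 < b) (hb' : 0 < b')
    (_hp : 0 < p) (_hq : 0 < q) (hp2 : p ^ 2 = b * b') (hq2 : q ^ 2 = a * a') :
    (b - a) * (b' - a') ≤ (p - q) ^ 2 := by
  have h1 : 2 * (p * q) ≤ a * b' + a' * b := by
    by_contra hcon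
    push Not at hcon
    have h2 : 0 < a * b' + a' * b := by positivity
    have h3 : (a * b' + a' * b) ^ 2 < (2 * (p * q)) ^ 2 := by
      apply pow_lt_pow_left₀ hcon h2.le (by norm_num)
    have h4 : (2 * (p * q)) ^ 2 = 4 * ((a * b') * (a' * b)) := by
      calc (2 * (p * q)) ^ 2 = 4 * (p ^ 2 * q ^ 2) := by ring
        _ = 4 * ((a * b') * (a' * b)) := by rw [hp2, hq2]; ring
    nlinarith [sq_nonneg (a * b' - a' * b)]
  nlinarith

theorem pair_aa {x y x' y' : ℝ} (h : Real.exp x < Real.exp y) (h' : Real.exp x' < Real.exp y') :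
    Real.log (Real.exp y - Real.exp x) + Real.log (Real.exp y' - Real.exp x') ≤
      2 * Real.log (Real.exp ((y + y') / 2) - Real.exp ((x + x') / 2)) := by
  have hxy : x < y := Real.exp_lt_exp.1 h
  have hxy' : x' < y' := Real.exp_lt_exp.1 h'
  have h1 : Real.exp ((x + x') / 2) < Real.exp ((y + y') / 2) :=
    Real.exp_lt_exp.2 (by linarith)
  have h2 := geom_mean_ineq (Real.exp_pos x) (Real.exp_pos x') (Real.exp_pos y) (Real.exp_pos y')
    (Real.exp_pos ((y + y') / 2)) (Real.exp_pos ((x + x') / 2))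
    (by rw [← Real.exp_nat_mul, ← Real.exp_add]; congr 1; push_cast; ring)
    (by rw [← Real.exp_nat_mul, ← Real.exp_add]; congr 1; push_cast; ring)
  rw [← Real.log_mul (by linarith) (by linarith)]
  have h3 : (2 : ℝ) * Real.log (Real.exp ((y + y') / 2) - Real.exp ((x + x') / 2)) =
      Real.log ((Real.exp ((y + y') / 2) - Real.exp ((x + x') / 2)) ^ 2) := by
    rw [Real.log_pow]; norm_num
  rw [h3]
  apply Real.log_le_log (mul_pos (by linarith) (by linarith)) h2

theorem pair_ab {x x' s s' : ℝ} (hs : 0 < s) (hs' : 0 < s') (h : Real.exp x < s ^ 2)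
    (h' : Real.exp x' < s' ^ 2) :
    Real.log (s ^ 2 - Real.exp x) + Real.log (s' ^ 2 - Real.exp x') +
      2 * (2 * Real.log ((s + s') / 2) - Real.log s - Real.log s') ≤
      2 * Real.log (((s + s') / 2) ^ 2 - Real.exp ((x + x') / 2)) := by
  obtain ⟨q, hq⟩ : ∃ q : ℝ, q = Real.exp ((x + x') / 2) := ⟨_, rfl⟩
  have hq0 : 0 < q := by rw [hq]; exact Real.exp_pos _
  have hq2 : q ^ 2 = Real.exp x * Real.exp x' := by
    rw [hq, ← Real.exp_nat_mul, ← Real.exp_add]; congr 1; push_cast; ring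
  have hp0 : 0 < s * s' := by positivity
  have hqp : q < s * s' := by
    have h1 : q ^ 2 < (s * s') ^ 2 := by
      rw [hq2, mul_pow]
      exact mul_lt_mul h h'.le (Real.exp_pos _) (by positivity)
    exact lt_of_pow_lt_pow_left₀ 2 hp0.le h1
  have h2 := geom_mean_ineq (Real.exp_pos x) (Real.exp_pos x') (by positivity : 0 < s ^ 2)
    (by positivity : 0 < s' ^ 2) hp0 hq0 (by ring) hq2
  obtain ⟨μ, hμ⟩ : ∃ μ : ℝ, μ = ((s + s') / 2) ^ 2 := ⟨_, rfl⟩
  have hμp : s * s' ≤ μ := by rw [hμ]; nlinarith [sq_nonneg (s - s')]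
  have hμ0 : 0 < μ := by linarith
  rw [← hq, ← hμ]
  have h3 : 2 * Real.log ((s + s') / 2) - Real.log s - Real.log s' = Real.log (μ / (s * s')) := by
    rw [Real.log_div hμ0.ne' hp0.ne', hμ, Real.log_pow, Real.log_mul hs.ne' hs'.ne']
    push_cast; ring
  have h4 : (2 : ℝ) * Real.log (μ / (s * s')) = Real.log ((μ / (s * s')) ^ 2) := by
    rw [Real.log_pow]; norm_num
  have h5 : (2 : ℝ) * Real.log (μ - q) = Real.log ((μ - q) ^ 2) := by
    rw [Real.log_pow]; norm_num
  have h6 : 0 < s ^ 2 - Real.exp x := by linarith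
  have h7 : 0 < s' ^ 2 - Real.exp x' := by linarith
  rw [h3, h4, h5, ← Real.log_mul h6.ne' h7.ne', ← Real.log_mul (by positivity) (by positivity)]
  apply Real.log_le_log (by positivity)
  have h8 : μ / (s * s') * (s * s' - q) ≤ μ - q := by
    have : μ / (s * s') * (s * s' - q) = μ - μ / (s * s') * q := by field_simp
    rw [this]
    have h9 : 1 ≤ μ / (s * s') := by rw [le_div_iff₀ hp0]; linarith
    nlinarith
  have h10 : 0 ≤ μ / (s * s') * (s * s' - q) := by
    apply mul_nonneg (by positivity) (by linarith)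
  calc (s ^ 2 - Real.exp x) * (s' ^ 2 - Real.exp x') * (μ / (s * s')) ^ 2
      ≤ (s * s' - q) ^ 2 * (μ / (s * s')) ^ 2 := by
        apply mul_le_mul_of_nonneg_right h2 (by positivity)
    _ = (μ / (s * s') * (s * s' - q)) ^ 2 := by ring
    _ ≤ (μ - q) ^ 2 := pow_le_pow_left₀ h10 h8 2

theorem log_strong {B B' U : ℝ} (hB : 0 < B) (hB' : 0 < B') (hBU : B ≤ U) (hBU' : B' ≤ U) :
    Real.log B + Real.log B' + (B - B') ^ 2 / (4 * U ^ 2) ≤ 2 * Real.log ((B + B') / 2) := by
  obtain ⟨P, hP⟩ : ∃ P : ℝ, P = (B + B') / 2 := ⟨_, rfl⟩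
  obtain ⟨D, hD⟩ : ∃ D : ℝ, D = (B - B') / 2 := ⟨_, rfl⟩
  have hP0 : 0 < P := by rw [hP]; positivity
  have hPU : P ≤ U := by rw [hP]; linarith
  have hU0 : 0 < U := by linarith
  have h1 : B * B' = P ^ 2 * (1 - D ^ 2 / P ^ 2) := by
    rw [mul_sub, mul_one, mul_div_cancel₀ _ (by positivity), hP, hD]; ring
  have h2 : 0 < 1 - D ^ 2 / P ^ 2 := by
    have : 0 < P ^ 2 * (1 - D ^ 2 / P ^ 2) := by rw [← h1]; positivity
    exact (mul_pos_iff_of_pos_left (by positivity)).1 this
  rw [← hP, ← Real.log_mul hB.ne' hB'.ne', h1, Real.log_mul (by positivity) h2.ne', Real.log_pow]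
  have h3 := Real.log_le_sub_one_of_pos h2
  have h4 : (B - B') ^ 2 / (4 * U ^ 2) = D ^ 2 / U ^ 2 := by rw [hD]; field_simp; ring
  have h5 : D ^ 2 / U ^ 2 ≤ D ^ 2 / P ^ 2 := by gcongr
  rw [h4]
  push_cast
  linarith

theorem pair_bb {s t s' t' U : ℝ} (hs : 0 < s) (hs' : 0 < s') (hst : s < t) (hst' : s' < t')
    (hU : s + t ≤ U) (hU' : s' + t' ≤ U) :
    Real.log (t ^ 2 - s ^ 2) + Real.log (t' ^ 2 - s' ^ 2) + (s - s') ^ 2 / (2 * U ^ 2) ≤
      2 * Real.log (((t + t') / 2) ^ 2 - ((s + s') / 2) ^ 2) := by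
  have ht : 0 < t := by linarith
  have ht' : 0 < t' := by linarith
  have hU0 : 0 < U := by linarith
  have h1 := log_strong (B := t + s) (B' := t' + s') (U := U) (by linarith) (by linarith)
    (by linarith) (by linarith)
  have h2 := log_strong (B := t - s) (B' := t' - s') (U := U) (by linarith) (by linarith)
    (by linarith) (by linarith)
  have e1 : t ^ 2 - s ^ 2 = (t + s) * (t - s) := by ring
  have e2 : t' ^ 2 - s' ^ 2 = (t' + s') * (t' - s') := by ring
  have e3 : ((t + t') / 2) ^ 2 - ((s + s') / 2) ^ 2 =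
      ((t + s + (t' + s')) / 2) * ((t - s + (t' - s')) / 2) := by ring
  have p1 : 0 < t + s := by linarith
  have p2 : 0 < t - s := by linarith
  have p3 : 0 < t' + s' := by linarith
  have p4 : 0 < t' - s' := by linarith
  rw [e1, e2, e3, Real.log_mul p1.ne' p2.ne', Real.log_mul p3.ne' p4.ne',
    Real.log_mul (by positivity) (by positivity)]
  have h3 : (s - s') ^ 2 / (2 * U ^ 2) ≤ (t + s - (t' + s')) ^ 2 / (4 * U ^ 2) +
      (t - s - (t' - s')) ^ 2 / (4 * U ^ 2) := by
    rw [← add_div, div_le_div_iff₀ (by positivity) (by positivity)]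
    have : 0 ≤ U ^ 2 * (t - t') ^ 2 := by positivity
    nlinarith
  linarith

theorem pair_bb' {s t s' t' : ℝ} (hs : 0 < s) (hs' : 0 < s') (hst : s < t) (hst' : s' < t') :
    Real.log (t ^ 2 - s ^ 2) + Real.log (t' ^ 2 - s' ^ 2) ≤
      2 * Real.log (((t + t') / 2) ^ 2 - ((s + s') / 2) ^ 2) := by
  have h := pair_bb hs hs' hst hst' (U := s + t + (s' + t')) (by linarith) (by linarith)
  have : 0 ≤ (s - s') ^ 2 / (2 * (s + t + (s' + t')) ^ 2) := by positivity
  linarith

/-- Mixed coordinates: `l i = exp (u i)` for `i < m`, `l i = (u i)^2` for `i ≥ m`. -/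
noncomputable def mixed (m : ℕ) {n : ℕ} (u : Fin n → ℝ) : Fin n → ℝ :=
  fun i => if (i : ℕ) < m then Real.exp (u i) else (u i) ^ 2

/-- log density in mixed coordinates, with the Jacobian. -/
noncomputable def mlw (β α : ℝ) (m : ℕ) {n : ℕ} (u : Fin n → ℝ) : ℝ :=
  lw β α (mixed m u) + ∑ i : Fin n, (if (i : ℕ) < m then u i else Real.log (2 * u i))

theorem sum_gain {n : ℕ} (m N : ℕ) (h2N : 2 * N ≤ n) (G : Fin n → ℝ) :
    ∑ i : Fin n, ∑ j ∈ Finset.Ioi i,
      (if m ≤ (i : ℕ) ∧ (i : ℕ) < N ∧ (j : ℕ) ≤ 2 * (i : ℕ) + 1 then G i else 0) =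
    ∑ i : Fin n, (if m ≤ (i : ℕ) ∧ (i : ℕ) < N then (((i : ℕ) : ℝ) + 1) * G i else 0) := by
  refine Finset.sum_congr rfl fun i _ => ?_
  by_cases h : m ≤ (i : ℕ) ∧ (i : ℕ) < N
  · rw [if_pos h]
    have h1 : ∀ j ∈ Finset.Ioi i, (if m ≤ (i : ℕ) ∧ (i : ℕ) < N ∧ (j : ℕ) ≤ 2 * (i : ℕ) + 1
        then G i else 0) = if (j : ℕ) ≤ 2 * (i : ℕ) + 1 then G i else 0 := by
      intro j _
      have := h.1
      have := h.2
      by_cases h2 : (j : ℕ) ≤ 2 * (i : ℕ) + 1
      · rw [if_pos ⟨h.1, h.2, h2⟩, if_pos h2]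
      · rw [if_neg (fun h3 => h2 h3.2.2), if_neg h2]
    rw [Finset.sum_congr rfl h1, ← Finset.sum_filter, Finset.sum_const, nsmul_eq_mul]
    congr 1
    have h3 : (Finset.Ioi i).filter (fun j : Fin n => (j : ℕ) ≤ 2 * (i : ℕ) + 1) =
        Finset.Ioc i (⟨2 * (i : ℕ) + 1, by omega⟩ : Fin n) := by
      ext j
      rw [Finset.mem_filter, Finset.mem_Ioi, Finset.mem_Ioc, Fin.le_def]
    rw [h3, Fin.card_Ioc]
    simp only
    have : 2 * (i : ℕ) + 1 - (i : ℕ) = (i : ℕ) + 1 := by omega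
    rw [this]; push_cast; ring
  · rw [if_neg h]
    refine Finset.sum_eq_zero fun j _ => ?_
    rw [if_neg (fun h3 => h ⟨h3.1, h3.2.1⟩)]

/-- The midpoint inequality. -/
theorem midpoint_ineq {β α : ℝ} (hβ : 0 < β) {m N n : ℕ} {M : ℝ} (hM : 0 < M)
    (hm : 0 ≤ 2 * β * m + 2 * α + 1) (h2N : 2 * N ≤ n) {u u' : Fin n → ℝ}
    (hu : ∀ i : Fin n, m ≤ (i : ℕ) → 0 < u i) (hu' : ∀ i : Fin n, m ≤ (i : ℕ) → 0 < u' i)
    (hc : mixed m u ∈ chamber n) (hc' : mixed m u' ∈ chamber n)
    (hK : ∀ i : Fin n, m ≤ (i : ℕ) → (i : ℕ) < 2 * N → n * (u i) ^ 2 ≤ M * ((i : ℕ) + 1) ^ 2)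
    (hK' : ∀ i : Fin n, m ≤ (i : ℕ) → (i : ℕ) < 2 * N →
      n * (u' i) ^ 2 ≤ M * ((i : ℕ) + 1) ^ 2) :
    mlw β α m u + mlw β α m u' + ∑ i : Fin n, (if m ≤ (i : ℕ) ∧ (i : ℕ) < N then
      β * n * (u i - u' i) ^ 2 / (18 * M * ((i : ℕ) + 1)) else 0) ≤
      2 * mlw β α m (fun i => (u i + u' i) / 2) := by
  obtain ⟨q, hq⟩ : ∃ q : Fin n → ℝ, q = fun j => 2 * Real.log ((u j + u' j) / 2) -
    Real.log (u j) - Real.log (u' j) := ⟨_, rfl⟩
  have hq0 : ∀ j : Fin n, m ≤ (j : ℕ) → 0 ≤ q j := by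
    intro j hj
    have h1 := hu j hj
    have h2 := hu' j hj
    have h3 := log_strong h1 h2 (le_max_left (u j) (u' j)) (le_max_right (u j) (u' j))
    have h4 : 0 ≤ (u j - u' j) ^ 2 / (4 * (max (u j) (u' j)) ^ 2) := by positivity
    rw [hq]
    dsimp only
    linarith
  obtain ⟨G, hG⟩ : ∃ G : Fin n → ℝ, G = fun i : Fin n =>
    n * (u i - u' i) ^ 2 / (18 * M * (((i : ℕ) : ℝ) + 1) ^ 2) := ⟨_, rfl⟩
  have hpair : ∀ i : Fin n, ∀ j ∈ Finset.Ioi i,
      Real.log (mixed m u j - mixed m u i) + Real.log (mixed m u' j - mixed m u' i) +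
      ((if (i : ℕ) < m ∧ m ≤ (j : ℕ) then 2 * q j else 0) +
      (if m ≤ (i : ℕ) ∧ (i : ℕ) < N ∧ (j : ℕ) ≤ 2 * (i : ℕ) + 1 then G i else 0)) ≤
      2 * Real.log (mixed m (fun i => (u i + u' i) / 2) j -
        mixed m (fun i => (u i + u' i) / 2) i) := by
    intro i j hj
    have hij : i < j := Finset.mem_Ioi.1 hj
    have hij' : (i : ℕ) < j := hij
    have hlt := hc.2 hij
    have hlt' := hc'.2 hij
    unfold mixed at hlt hlt' ⊢
    by_cases h1 : (j : ℕ) < m
    · have h2 : (i : ℕ) < m := by omega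
      simp only [h1, h2, if_true] at hlt hlt' ⊢
      rw [if_neg (by omega), if_neg (by omega)]
      have := pair_aa hlt hlt'
      linarith
    · by_cases h2 : (i : ℕ) < m
      · simp only [h1, h2, if_true, if_false] at hlt hlt' ⊢
        rw [if_pos ⟨trivial, by omega⟩, if_neg (by omega)]
        have := pair_ab (hu j (by omega)) (hu' j (by omega)) hlt hlt'
        rw [hq]
        dsimp only
        linarith
      · simp only [h1, h2, if_false] at hlt hlt' ⊢
        rw [if_neg (by simp)]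
        have p1 := hu i (by omega)
        have p2 := hu' i (by omega)
        have p3 := hu j (by omega)
        have p4 := hu' j (by omega)
        have hlt2 : u i < u j := lt_of_pow_lt_pow_left₀ 2 p3.le hlt
        have hlt2' : u' i < u' j := lt_of_pow_lt_pow_left₀ 2 p4.le hlt'
        split_ifs with h3
        · obtain ⟨h4, h5, h6⟩ := h3
          have hn : 0 < n := by omega
          have hnR : (0 : ℝ) < n := by exact_mod_cast hn
          -- bounds
          obtain ⟨ρ, hρ⟩ : ∃ ρ : ℝ, ρ = Real.sqrt (M / n) := ⟨_, rfl⟩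
          have hρ0 : 0 < ρ := by rw [hρ]; positivity
          have hρ2 : ρ ^ 2 = M / n := by rw [hρ, Real.sq_sqrt (by positivity)]
          have hbd : ∀ (x : ℝ) (k : ℝ), 0 < x → 0 ≤ k → n * x ^ 2 ≤ M * (k + 1) ^ 2 →
              x ≤ ρ * (k + 1) := by
            intro x k hx hk hxk
            have h7 : x ^ 2 ≤ (ρ * (k + 1)) ^ 2 := by
              rw [mul_pow, hρ2, div_mul_eq_mul_div, le_div_iff₀ hnR]
              linarith
            exact (pow_le_pow_iff_left₀ hx.le (by positivity) (by norm_num)).1 h7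
          have b1 := hbd (u i) (i : ℕ) p1 (by positivity) (hK i h4 (by omega))
          have b2 := hbd (u' i) (i : ℕ) p2 (by positivity) (hK' i h4 (by omega))
          have b3 := hbd (u j) (j : ℕ) p3 (by positivity) (hK j (by omega) (by omega))
          have b4 := hbd (u' j) (j : ℕ) p4 (by positivity) (hK' j (by omega) (by omega))
          have hj2 : (((j : ℕ) : ℝ) + 1) ≤ 2 * (((i : ℕ) : ℝ) + 1) := by
            have : ((j : ℕ) : ℝ) ≤ 2 * ((i : ℕ) : ℝ) + 1 := by exact_mod_cast h6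
            linarith
          have b5 : ρ * (((j : ℕ) : ℝ) + 1) ≤ ρ * (2 * (((i : ℕ) : ℝ) + 1)) :=
            mul_le_mul_of_nonneg_left hj2 hρ0.le
          have hmain := pair_bb p1 p2 hlt2 hlt2' (U := 3 * ρ * (((i : ℕ) : ℝ) + 1))
            (by linarith) (by linarith)
          have hGe : (u i - u' i) ^ 2 / (2 * (3 * ρ * (((i : ℕ) : ℝ) + 1)) ^ 2) = G i := by
            rw [hG]
            dsimp only
            rw [mul_pow, mul_pow, hρ2]
            field_simp
            ring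
          rw [hGe] at hmain
          linarith
        · have hmain := pair_bb' p1 p2 hlt2 hlt2'
          linarith
  have hsum : (∑ i : Fin n, ∑ j ∈ Finset.Ioi i, Real.log (mixed m u j - mixed m u i)) +
      (∑ i : Fin n, ∑ j ∈ Finset.Ioi i, Real.log (mixed m u' j - mixed m u' i)) +
      (∑ j : Fin n, (if m ≤ (j : ℕ) then (m : ℝ) * (2 * q j) else 0) +
      ∑ i : Fin n, (if m ≤ (i : ℕ) ∧ (i : ℕ) < N then (((i : ℕ) : ℝ) + 1) * G i else 0)) ≤
      2 * ∑ i : Fin n, ∑ j ∈ Finset.Ioi i,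
        Real.log (mixed m (fun i => (u i + u' i) / 2) j -
        mixed m (fun i => (u i + u' i) / 2) i) := by
    rw [← sum_gain m N h2N G, ← sum_pairs_cross (fun j => 2 * q j) m, Finset.mul_sum]
    simp only [Finset.mul_sum]
    rw [← Finset.sum_add_distrib, ← Finset.sum_add_distrib, ← Finset.sum_add_distrib]
    refine Finset.sum_le_sum fun i _ => ?_
    rw [← Finset.sum_add_distrib, ← Finset.sum_add_distrib, ← Finset.sum_add_distrib]
    exact Finset.sum_le_sum fun j hj => hpair i j hj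
  have hsing : (∑ i : Fin n, ((α * Real.log (mixed m u i) - β / 2 * mixed m u i) +
        (if (i : ℕ) < m then u i else Real.log (2 * u i)))) +
      (∑ i : Fin n, ((α * Real.log (mixed m u' i) - β / 2 * mixed m u' i) +
        (if (i : ℕ) < m then u' i else Real.log (2 * u' i)))) +
      ∑ j : Fin n, (if m ≤ (j : ℕ) then (2 * α + 1) * q j else 0) ≤
      2 * ∑ i : Fin n, ((α * Real.log (mixed m (fun i => (u i + u' i) / 2) i) -
        β / 2 * mixed m (fun i => (u i + u' i) / 2) i) +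
        (if (i : ℕ) < m then (u i + u' i) / 2 else Real.log (2 * ((u i + u' i) / 2)))) := by
    rw [← Finset.sum_add_distrib, ← Finset.sum_add_distrib, Finset.mul_sum]
    refine Finset.sum_le_sum fun i _ => ?_
    unfold mixed
    by_cases h1 : (i : ℕ) < m
    · simp only [h1, if_true, Real.log_exp]
      rw [if_neg (by omega)]
      have h2 : Real.exp ((u i + u' i) / 2) ≤ (Real.exp (u i) + Real.exp (u' i)) / 2 := by
        have e1 : Real.exp ((u i + u' i) / 2) = Real.exp (u i / 2) * Real.exp (u' i / 2) := by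
          rw [← Real.exp_add]; ring_nf
        have e2 : Real.exp (u i) = Real.exp (u i / 2) ^ 2 := by
          rw [← Real.exp_nat_mul]; congr 1; push_cast; ring
        have e3 : Real.exp (u' i) = Real.exp (u' i / 2) ^ 2 := by
          rw [← Real.exp_nat_mul]; congr 1; push_cast; ring
        rw [e1, e2, e3]
        nlinarith [sq_nonneg (Real.exp (u i / 2) - Real.exp (u' i / 2))]
      have h3 := mul_le_mul_of_nonneg_left h2 hβ.le
      nlinarith
    · simp only [h1, if_false]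
      rw [if_pos (by omega)]
      have p1 := hu i (by omega)
      have p2 := hu' i (by omega)
      have p3 : 0 < (u i + u' i) / 2 := by linarith
      rw [Real.log_pow, Real.log_pow, Real.log_pow, Real.log_mul (by norm_num) p1.ne',
        Real.log_mul (by norm_num) p2.ne', Real.log_mul (by norm_num) p3.ne', hq]
      dsimp only
      push_cast
      have h3 : β * ((u i + u' i) / 2) ^ 2 ≤ β / 2 * ((u i) ^ 2 + (u' i) ^ 2) := by
        have : ((u i + u' i) / 2) ^ 2 ≤ ((u i) ^ 2 + (u' i) ^ 2) / 2 := by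
          nlinarith [sq_nonneg (u i - u' i)]
        have := mul_le_mul_of_nonneg_left this hβ.le
        linarith
      nlinarith
  have hq1 : 0 ≤ β * (∑ j : Fin n, (if m ≤ (j : ℕ) then (m : ℝ) * (2 * q j) else 0)) +
      ∑ j : Fin n, (if m ≤ (j : ℕ) then (2 * α + 1) * q j else 0) := by
    rw [Finset.mul_sum, ← Finset.sum_add_distrib]
    refine Finset.sum_nonneg fun j _ => ?_
    split_ifs with h
    · have := hq0 j h
      have h2 : 0 ≤ (2 * β * m + 2 * α + 1) * q j := mul_nonneg hm this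
      nlinarith
    · simp
  have hGs : ∑ i : Fin n, (if m ≤ (i : ℕ) ∧ (i : ℕ) < N then
      β * n * (u i - u' i) ^ 2 / (18 * M * ((i : ℕ) + 1)) else 0) =
      β * ∑ i : Fin n, (if m ≤ (i : ℕ) ∧ (i : ℕ) < N then (((i : ℕ) : ℝ) + 1) * G i else 0) := by
    rw [Finset.mul_sum]
    refine Finset.sum_congr rfl fun i _ => ?_
    split_ifs
    · rw [hG]
      dsimp only
      field_simp
    · simp
  rw [hGs]
  unfold mlw lw
  simp only [Finset.sum_add_distrib] at hsing
  have h8 := mul_le_mul_of_nonneg_left hsum hβ.le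
  nlinarith [h8, hsing, hq1]

end MPe6d203
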