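import Pool.Agent.Lib.MP_e6d203_pr.Transport

/-!
# Shifting the upper points: lower tail estimates
-/

namespace MPe6d203

open MeasureTheory Set Filter Topology
open scoped ENNReal

theorem sum_pairs_swap {n : ℕ} (F : Fin n → Fin n → ℝ) :
    ∑ i, ∑ j ∈ Finset.Ioi i, F i j = ∑ j, ∑ i ∈ Finset.Iio j, F i j := by
  refine Finset.sum_comm' fun i j => ?_
  simp

theorem sum_pairs_cross {n : ℕ} (u : Fin n → ℝ) (k : ℕ) :
    ∑ i : Fin n, ∑ j ∈ Finset.Ioi i, (if (i : ℕ) < k ∧ k ≤ (j : ℕ) then u j else 0) =
      ∑ j : Fin n, (if k ≤ (j : ℕ) then (k : ℝ) * u j else 0) := by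
  rw [sum_pairs_swap]
  refine Finset.sum_congr rfl fun j _ => ?_
  split_ifs with h
  · simp only [h, and_true]
    rw [← Finset.sum_filter, Finset.sum_const, nsmul_eq_mul]
    congr 2
    have hk : k < n := lt_of_le_of_lt h j.2
    have : (Finset.Iio j).filter (fun i : Fin n => (i : ℕ) < k) = Finset.Iio (⟨k, hk⟩ : Fin n) := by
      ext i
      simp only [Finset.mem_filter, Finset.mem_Iio, Fin.lt_def]
      omega
    rw [this, Fin.card_Iio]
  · simp [h]

/-- Upward shift of the points with index `≥ k`. -/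
theorem upshift {β a : ℝ} (hβ : 0 < β) {n : ℕ} (k : ℕ) {t : ℝ} (ht : 0 ≤ t)
    {A : Set (Fin n → ℝ)} (hA : MeasurableSet A) (hAc : A ⊆ chamber n)
    (hinv : ∀ l ∈ A, (fun i : Fin n => l i + if k ≤ (i : ℕ) then t else 0) ∈ A) :
    ∫⁻ l in A, ENNReal.ofReal (Real.exp ((β * k + alpha β a) *
      (∑ i : Fin n, if k ≤ (i : ℕ) then Real.log (1 + t / l i) else 0) - β / 2 * n * t))
        ∂(laguerre β a n) ≤ laguerre β a n A := by
  refine transport β a (fun _ => 1) (fun i : Fin n => if k ≤ (i : ℕ) then t else 0)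
    (fun _ => one_pos) hA hAc hA hAc (fun l hl => by simpa using hinv l hl) _ fun l hl => ?_
  simp only [one_mul, Real.log_one, Finset.sum_const_zero, add_zero]
  have hpos : ∀ i, 0 < l i := (hAc hl).1
  have hmono : StrictMono l := (hAc hl).2
  unfold lw
  -- pair terms
  have hpair : ∀ i : Fin n, ∀ j ∈ Finset.Ioi i,
      Real.log (l j - l i) + (if (i : ℕ) < k ∧ k ≤ (j : ℕ) then Real.log (1 + t / l j) else 0) ≤
      Real.log ((l j + if k ≤ (j : ℕ) then t else 0) - (l i + if k ≤ (i : ℕ) then t else 0)) := by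
    intro i j hj
    have hij : i < j := Finset.mem_Ioi.1 hj
    have hij' : (i : ℕ) < j := hij
    have hlt : l i < l j := hmono hij
    have hi := hpos i
    have hj := hpos j
    by_cases h1 : k ≤ (j : ℕ)
    · by_cases h2 : k ≤ (i : ℕ)
      · rw [if_neg (by omega), if_pos h1, if_pos h2]
        simp
      · rw [if_pos ⟨by omega, h1⟩, if_pos h1, if_neg h2, ← Real.log_mul (by linarith) (by positivity)]
        apply Real.log_le_log
        · apply mul_pos (by linarith) (by positivity)
        · have : (l j - l i) * (1 + t / l j) = l j - l i + t - l i * (t / l j) := by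
            field_simp; ring
          rw [this]
          have : 0 ≤ l i * (t / l j) := by positivity
          linarith
    · rw [if_neg (by omega), if_neg h1, if_neg (by omega)]
      simp
  have h1 : (∑ i, ∑ j ∈ Finset.Ioi i, Real.log (l j - l i)) +
      ∑ j : Fin n, (if k ≤ (j : ℕ) then (k : ℝ) * Real.log (1 + t / l j) else 0) ≤
      ∑ i, ∑ j ∈ Finset.Ioi i,
        Real.log ((l j + if k ≤ (j : ℕ) then t else 0) - (l i + if k ≤ (i : ℕ) then t else 0)) := by
    rw [← sum_pairs_cross (fun j => Real.log (1 + t / l j)), ← Finset.sum_add_distrib]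
    refine Finset.sum_le_sum fun i _ => ?_
    rw [← Finset.sum_add_distrib]
    exact Finset.sum_le_sum fun j hj => hpair i j hj
  have h2 : (∑ i, (alpha β a * Real.log (l i) - β / 2 * l i)) +
      (∑ j : Fin n, (if k ≤ (j : ℕ) then alpha β a * Real.log (1 + t / l j) else 0)) -
      β / 2 * n * t ≤
      ∑ i : Fin n, (alpha β a * Real.log (l i + if k ≤ (i : ℕ) then t else 0) -
        β / 2 * (l i + if k ≤ (i : ℕ) then t else 0)) := by
    have : β / 2 * n * t = ∑ _i : Fin n, β / 2 * t := by
      rw [Finset.sum_const, Finset.card_univ, Fintype.card_fin, nsmul_eq_mul]; ring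
    rw [this, ← Finset.sum_add_distrib, ← Finset.sum_sub_distrib]
    refine Finset.sum_le_sum fun i _ => ?_
    have hi := hpos i
    split_ifs with h
    · have : Real.log (l i + t) = Real.log (l i) + Real.log (1 + t / l i) := by
        rw [← Real.log_mul hi.ne' (by positivity)]
        congr 1
        field_simp
      rw [this]
      nlinarith
    · simp only [add_zero]
      nlinarith [mul_nonneg hβ.le ht]
  have h3 := mul_le_mul_of_nonneg_left h1 hβ.le
  have h4 : (β * k + alpha β a) *
      (∑ i : Fin n, if k ≤ (i : ℕ) then Real.log (1 + t / l i) else 0) =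
      β * (∑ j : Fin n, (if k ≤ (j : ℕ) then (k : ℝ) * Real.log (1 + t / l j) else 0)) +
      ∑ j : Fin n, (if k ≤ (j : ℕ) then alpha β a * Real.log (1 + t / l j) else 0) := by
    rw [Finset.mul_sum, Finset.mul_sum, ← Finset.sum_add_distrib]
    refine Finset.sum_congr rfl fun i _ => ?_
    split_ifs <;> ring
  rw [h4]
  linarith

end MPe6d203
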