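import Pool.Agent.Lib.MP_e6d203_pr.Upper

/-!
# Upper tail estimates for the points of the Laguerre ensemble: conclusion
-/

namespace MPe6d203

open MeasureTheory Set Filter Topology
open scoped ENNReal

theorem chamber_downshift {n : ℕ} (k : Fin n) {T : ℝ} (hT : 0 < T) {l : Fin n → ℝ}
    (hl : l ∈ chamber n) (hTl : T < l k) :
    (fun i : Fin n => (if (i : ℕ) < (k : ℕ) then 1 / 2 else 1) * l i +
      (if (i : ℕ) < (k : ℕ) then 0 else -(T / 2))) ∈ chamber n := by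
  refine ⟨fun i => ?_, fun i j hij => ?_⟩
  · have h1 := hl.1 i
    dsimp only
    split_ifs with h
    · linarith
    · have h2 : l k ≤ l i := hl.2.monotone (Fin.le_def.2 (by omega))
      linarith
  · have h1 := hl.2 hij
    have hij' : (i : ℕ) < j := hij
    have h3 := hl.1 i
    dsimp only
    split_ifs with h h' h'
    · linarith
    · have h2 : l k ≤ l j := hl.2.monotone (Fin.le_def.2 (by omega))
      linarith
    · omega
    · linarith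

theorem measurable_sumlog {n : ℕ} (k' : ℕ) (T : ℝ) :
    Measurable fun l : Fin n → ℝ =>
      ∑ i : Fin n, if k' ≤ (i : ℕ) then Real.log (1 + T / l i) else 0 := by
  refine Finset.measurable_sum _ fun i _ => ?_
  split_ifs
  · fun_prop
  · fun_prop

theorem final_numeric {β A κ L C₁ k' n T M p lg : ℝ} (hβ : 0 < β) (hA : 0 ≤ A) (hκ0 : 0 ≤ κ)
    (hL1 : 1 ≤ L) (hC₁ : C₁ = 1 + β + A + (β + A) * L) (hk'R : k' = L * (κ + 1))
    (hκn : 2 * κ ≤ n) (hT0 : 0 < T) (hnT : n * T = M * (κ + 1) ^ 2)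
    (hMβ : β / 16 * M = C₁ + 1) (hn : 0 < n) (hp1 : p ≤ 1 / 8) (hlog2 : 0 < lg)
    (hlog2' : lg < 1) :
    -(-lg * (κ + β * κ ^ 2 + A * κ + (β * κ + A) * (k' - κ)) +
      β / 4 * (n - κ) * T - p * (β / 2 * n * T)) ≤ -(κ + 1) ^ 2 := by
  have hκ1 : (1 : ℝ) ≤ (κ + 1) ^ 2 := by nlinarith
  have e7 : 0 ≤ L * (κ + 1) - κ := by nlinarith
  have hC : κ + β * κ ^ 2 + A * κ + (β * κ + A) * (k' - κ) ≤ C₁ * (κ + 1) ^ 2 := by
    rw [hk'R, hC₁]
    have e1 : κ ≤ (κ + 1) ^ 2 := by nlinarith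
    have e2 : β * κ ^ 2 ≤ β * (κ + 1) ^ 2 := by
      apply mul_le_mul_of_nonneg_left _ hβ.le; nlinarith
    have e3 : A * κ ≤ A * (κ + 1) ^ 2 := mul_le_mul_of_nonneg_left e1 hA
    have e4 : (β * κ + A) * (L * (κ + 1) - κ) ≤ (β + A) * L * (κ + 1) ^ 2 := by
      have e5 : β * κ + A ≤ (β + A) * (κ + 1) := by
        have := mul_nonneg hA hκ0
        linarith
      have e6 : L * (κ + 1) - κ ≤ L * (κ + 1) := by linarith
      calc (β * κ + A) * (L * (κ + 1) - κ) ≤ ((β + A) * (κ + 1)) * (L * (κ + 1)) :=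
            mul_le_mul e5 e6 e7 (by positivity)
        _ = (β + A) * L * (κ + 1) ^ 2 := by ring
    have e8 : (1 + β + A + (β + A) * L) * (κ + 1) ^ 2 =
      (κ + 1) ^ 2 + β * (κ + 1) ^ 2 + A * (κ + 1) ^ 2 + (β + A) * L * (κ + 1) ^ 2 := by ring
    rw [e8]
    linarith
  have hC0 : 0 ≤ κ + β * κ ^ 2 + A * κ + (β * κ + A) * (k' - κ) := by
    rw [hk'R]
    positivity
  have hD : lg * (κ + β * κ ^ 2 + A * κ + (β * κ + A) * (k' - κ)) ≤
      C₁ * (κ + 1) ^ 2 := by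
    calc lg * (κ + β * κ ^ 2 + A * κ + (β * κ + A) * (k' - κ))
        ≤ 1 * (κ + β * κ ^ 2 + A * κ + (β * κ + A) * (k' - κ)) :=
          mul_le_mul_of_nonneg_right hlog2'.le hC0
      _ ≤ C₁ * (κ + 1) ^ 2 := by rw [one_mul]; exact hC
  have hE : β / 16 * (n * T) ≤ β / 4 * (n - κ) * T - p * (β / 2 * n * T) := by
    have h2 : p * (β / 2 * n * T) ≤ 1 / 8 * (β / 2 * n * T) :=
      mul_le_mul_of_nonneg_right hp1 (by positivity)
    have h3 : β / 4 * (n / 2) * T ≤ β / 4 * (n - κ) * T := by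
      apply mul_le_mul_of_nonneg_right _ hT0.le
      apply mul_le_mul_of_nonneg_left _ (by positivity)
      linarith
    have h4 : β / 4 * (n / 2) * T - 1 / 8 * (β / 2 * n * T) = β / 16 * (n * T) := by ring
    linarith
  rw [hnT] at hE
  have hF : β / 16 * (M * (κ + 1) ^ 2) = (C₁ + 1) * (κ + 1) ^ 2 := by rw [← hMβ]; ring
  rw [hF] at hE
  have hG : (C₁ + 1) * (κ + 1) ^ 2 = C₁ * (κ + 1) ^ 2 + (κ + 1) ^ 2 := by ring
  linarith

/-- Upper tail estimate. -/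
theorem upper_tail {β a : ℝ} (hβ : 0 < β) (ha : -1 < a) :
    ∃ M : ℝ, 0 < M ∧ ∀ n : ℕ, ∀ k : Fin n, 2 * (k : ℕ) ≤ n →
      laguerre β a n {l | l ∈ chamber n ∧ M * ((k : ℕ) + 1) ^ 2 / n < l k} ≤
        ENNReal.ofReal (Real.exp (-(((k : ℕ) : ℝ) + 1) ^ 2)) := by
  obtain ⟨α, hα⟩ : ∃ α : ℝ, α = alpha β a := ⟨_, rfl⟩
  obtain ⟨L, hL⟩ := exists_nat_ge ((8 * (β + |α|) + |α|) / β)
  have hL' : 8 * (β + |α|) + |α| ≤ β * L := by
    rw [div_le_iff₀ hβ] at hL; linarith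
  have hαa := abs_nonneg α
  have hα1 := le_abs_self α
  have hα2 := neg_abs_le α
  have hlog2 : 0 < Real.log 2 := Real.log_pos (by norm_num)
  have hlog2' : Real.log 2 < 1 := by
    have := Real.log_two_lt_d9; linarith
  have hL1 : (1 : ℝ) ≤ L := by
    by_contra hcon
    push Not at hcon
    have : β * L < β * 1 := by
      apply mul_lt_mul_of_pos_left hcon hβ
    nlinarith
  obtain ⟨C₁, hC₁⟩ : ∃ C₁ : ℝ, C₁ = 1 + β + |α| + (β + |α|) * L := ⟨_, rfl⟩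
  have hC₁0 : 0 < C₁ := by rw [hC₁]; positivity
  refine ⟨16 / β * (C₁ + 1), by positivity, fun n k hkn => ?_⟩
  obtain ⟨M, hM⟩ : ∃ M : ℝ, M = 16 / β * (C₁ + 1) := ⟨_, rfl⟩
  rw [← hM]
  have hM0 : 0 < M := by rw [hM]; positivity
  have := isProbabilityMeasure_laguerre hβ ha n
  have hn : 0 < n := lt_of_le_of_lt (Nat.zero_le _) k.2
  have hnR : (0 : ℝ) < n := by exact_mod_cast hn
  obtain ⟨κ, hκ⟩ : ∃ κ : ℝ, κ = ((k : ℕ) : ℝ) := ⟨_, rfl⟩
  have hκ0 : 0 ≤ κ := by rw [hκ]; exact Nat.cast_nonneg _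
  have hκn : 2 * κ ≤ n := by rw [hκ]; exact_mod_cast hkn
  obtain ⟨T, hT⟩ : ∃ T : ℝ, T = M * (κ + 1) ^ 2 / n := ⟨_, rfl⟩
  have hT0 : 0 < T := by rw [hT]; positivity
  obtain ⟨k', hk'⟩ : ∃ k' : ℕ, k' = L * ((k : ℕ) + 1) := ⟨_, rfl⟩
  have hk'R : (k' : ℝ) = L * (κ + 1) := by rw [hk', hκ]; push_cast; ring
  have hkk' : (k : ℕ) ≤ k' := by
    have : (κ : ℝ) ≤ k' := by rw [hk'R]; nlinarith
    rw [hκ] at this
    exact_mod_cast this
  obtain ⟨γ', hγ'⟩ : ∃ γ' : ℝ, γ' = β * k' + α := ⟨_, rfl⟩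
  have hγ'1 : 8 * (β * κ + |α|) ≤ γ' := by
    rw [hγ', hk'R]
    have : (8 * (β + |α|) + |α|) * (κ + 1) ≤ β * L * (κ + 1) := by gcongr
    nlinarith [mul_nonneg hαa hκ0, mul_nonneg hβ.le hκ0]
  have hγ'0 : 0 < γ' := by
    rw [hγ', hk'R]
    have : (8 * (β + |α|) + |α|) * (κ + 1) ≤ β * L * (κ + 1) := by gcongr
    nlinarith [mul_nonneg hαa hκ0, mul_nonneg hβ.le hκ0]
  obtain ⟨g, hg⟩ : ∃ g : ℝ, g = β * κ + |α| := ⟨_, rfl⟩
  have hg0 : 0 ≤ g := by rw [hg]; positivity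
  obtain ⟨p, hp⟩ : ∃ p : ℝ, p = g / γ' := ⟨_, rfl⟩
  have hp0 : 0 ≤ p := by rw [hp]; positivity
  have hp1 : p ≤ 1 / 8 := by
    rw [hp, div_le_iff₀ hγ'0, hg]; linarith
  have hpγ : p * γ' = g := by rw [hp]; field_simp
  have hTκ : T = M * ((k : ℕ) + 1) ^ 2 / n := by rw [hT, hκ]
  rw [← hTκ]
  obtain ⟨A, hA⟩ : ∃ A : Set (Fin n → ℝ), A = {l | l ∈ chamber n ∧ T < l k} := ⟨_, rfl⟩
  rw [← hA]
  have hAm : MeasurableSet A := by rw [hA]; exact measurableSet_gt_coord k T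
  have hAc : A ⊆ chamber n := by rw [hA]; exact fun l hl => hl.1
  obtain ⟨Q, hQ⟩ : ∃ Q : (Fin n → ℝ) → ℝ, Q = fun l => (β * k' + alpha β a) *
      (∑ i : Fin n, if k' ≤ (i : ℕ) then Real.log (1 + T / l i) else 0) - β / 2 * n * T :=
    ⟨_, rfl⟩
  have hQm : Measurable Q := by
    rw [hQ]
    exact ((measurable_sumlog k' T).const_mul _).sub_const _
  have hQ1 : ∫⁻ l in A, ENNReal.ofReal (Real.exp (Q l)) ∂(laguerre β a n) ≤
      laguerre β a n A := by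
    rw [hQ]
    refine upshift hβ k' hT0.le hAm hAc fun l hl => ?_
    rw [hA] at hl ⊢
    refine ⟨chamber_upshift k' hT0.le hl.1, ?_⟩
    have := hl.2
    dsimp only
    split_ifs <;> linarith
  obtain ⟨b, hb⟩ : ∃ b : ℝ, b = -Real.log 2 * (κ + β * κ ^ 2 + |α| * κ +
      (β * κ + |α|) * ((k' : ℝ) - κ)) + β / 4 * (n - κ) * T - p * (β / 2 * n * T) := ⟨_, rfl⟩
  have hR : ∫⁻ l in A, ENNReal.ofReal (Real.exp (b - p * Q l)) ∂(laguerre β a n) ≤ 1 := by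
    refine le_trans (transport β a (fun i : Fin n => if (i : ℕ) < (k : ℕ) then 1 / 2 else 1)
      (fun i : Fin n => if (i : ℕ) < (k : ℕ) then 0 else -(T / 2)) (fun i => ?_) hAm hAc
      (measurableSet_chamber n) (Subset.refl _) (fun l hl => ?_) _ fun l hl => ?_) prob_le_one
    · split_ifs <;> norm_num
    · rw [hA] at hl
      exact chamber_downshift k hT0 hl.1 hl.2
    · rw [hA] at hl
      have h1 := downshift_ineq (α := alpha β a) hβ k k' hkk' hT0 hl.1 hl.2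
      have h2 : b - p * Q l = -Real.log 2 * ((k : ℕ) + β * ((k : ℕ) : ℝ) ^ 2 +
          |alpha β a| * (k : ℕ) + (β * (k : ℕ) + |alpha β a|) * ((k' : ℝ) - (k : ℕ))) -
          (β * (k : ℕ) + |alpha β a|) *
          (∑ i : Fin n, if k' ≤ (i : ℕ) then Real.log (1 + T / l i) else 0) +
          β / 4 * (n - (k : ℕ)) * T := by
        rw [hb, hQ, ← hα, ← hκ]
        dsimp only
        rw [← hγ', ← hg]
        obtain ⟨S, hS⟩ : ∃ S : ℝ,
          S = (∑ i : Fin n, if k' ≤ (i : ℕ) then Real.log (1 + T / l i) else 0) := ⟨_, rfl⟩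
        rw [← hS, ← hpγ]
        ring
      rw [h2]
      exact h1
  have hfin := combo (laguerre β a n) Q hQm hp0 hAm hR hQ1
  refine hfin.trans (ENNReal.ofReal_le_ofReal (Real.exp_le_exp.2 ?_))
  have hnT : n * T = M * (κ + 1) ^ 2 := by rw [hT]; field_simp
  have hMβ : β / 16 * M = C₁ + 1 := by rw [hM]; field_simp
  rw [← hκ, hb]
  exact final_numeric hβ hαa hκ0 hL1 hC₁ hk'R hκn hT0 hnT hMβ hnR hp1 hlog2 hlog2'

end MPe6d203
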