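import Pool.Agent.Lib.MP_e6d203_pr.Conc
import Pool.Agent.Lib.MP_e6d203_pr.UpperTail
import Pool.Agent.Lib.MP_e6d203_pr.Edge

/-!
# The log-cutoff linear statistic
-/

namespace MPe6d203

open MeasureTheory Set Filter Topology
open scoped ENNReal

/-- truncation to `[0,1]` -/
noncomputable def clamp (y : ℝ) : ℝ := max 0 (min 1 y)

theorem clamp_lip (x y : ℝ) : |clamp x - clamp y| ≤ |x - y| := by
  unfold clamp
  have h1 : |max 0 (min 1 x) - max 0 (min 1 y)| ≤ |min 1 x - min 1 y| := by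
    have := abs_max_sub_max_le_abs (min 1 x) (min 1 y) 0
    rwa [max_comm _ 0, max_comm _ 0] at this
  have h2 : |min 1 x - min 1 y| ≤ |x - y| := by
    have := abs_min_sub_min_le_max 1 x 1 y
    simpa using this
  exact h1.trans h2

theorem clamp_nonneg (x : ℝ) : 0 ≤ clamp x := le_max_left _ _
theorem clamp_le_one (x : ℝ) : clamp x ≤ 1 := max_le zero_le_one (min_le_left _ _)
theorem clamp_one : clamp 1 = 1 := by unfold clamp; simp
theorem clamp_of_nonpos {x : ℝ} (hx : x ≤ 0) : clamp x = 0 := by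
  unfold clamp
  exact max_eq_left (by rw [min_eq_right (by linarith)]; exact hx)
theorem clamp_continuous : Continuous clamp := by unfold clamp; fun_prop

/-- The log-cutoff function: `1` on `(-∞, X₀]`, `0` on `[X₁, ∞)`. -/
noncomputable def cutoff (X₀ X₁ : ℝ) (x : ℝ) : ℝ :=
  clamp (Real.log (X₁ / max x X₀) / Real.log (X₁ / X₀))

theorem cutoff_nonneg (X₀ X₁ x : ℝ) : 0 ≤ cutoff X₀ X₁ x := clamp_nonneg _
theorem cutoff_le_one (X₀ X₁ x : ℝ) : cutoff X₀ X₁ x ≤ 1 := clamp_le_one _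

theorem cutoff_continuous {X₀ X₁ : ℝ} (h₀ : 0 < X₀) (h₁ : X₀ < X₁) :
    Continuous (cutoff X₀ X₁) := by
  unfold cutoff
  refine clamp_continuous.comp (Continuous.div_const ?_ _)
  refine Continuous.log ?_ ?_
  · refine Continuous.div continuous_const (by fun_prop) fun x => ?_
    have : 0 < max x X₀ := lt_max_of_lt_right h₀
    exact this.ne'
  · intro x
    have : 0 < max x X₀ := lt_max_of_lt_right h₀
    have : 0 < X₁ := by linarith
    positivity

theorem cutoff_one {X₀ X₁ : ℝ} (h₀ : 0 < X₀) (h₁ : X₀ < X₁) {x : ℝ} (hx : x ≤ X₀) :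
    cutoff X₀ X₁ x = 1 := by
  unfold cutoff
  rw [max_eq_right hx, div_self, clamp_one]
  have : 0 < Real.log (X₁ / X₀) := Real.log_pos (by rw [lt_div_iff₀ h₀]; linarith)
  exact this.ne'

theorem cutoff_zero {X₀ X₁ : ℝ} (h₀ : 0 < X₀) (h₁ : X₀ < X₁) {x : ℝ} (hx : X₁ ≤ x) :
    cutoff X₀ X₁ x = 0 := by
  unfold cutoff
  apply clamp_of_nonpos
  have h2 : 0 < Real.log (X₁ / X₀) := Real.log_pos (by rw [lt_div_iff₀ h₀]; linarith)
  have h3 : Real.log (X₁ / max x X₀) ≤ 0 := by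
    have h4 : X₁ ≤ max x X₀ := hx.trans (le_max_left _ _)
    have h5 : 0 < max x X₀ := lt_max_of_lt_right h₀
    apply Real.log_nonpos
    · have : 0 < X₁ := by linarith
      positivity
    · rw [div_le_one h5]; exact h4
  exact div_nonpos_of_nonpos_of_nonneg h3 h2.le

theorem log_max_eq {x y : ℝ} (hx : 0 < x) (hy : 0 < y) :
    Real.log (max x y) = max (Real.log x) (Real.log y) := by
  rcases le_total x y with h | h
  · rw [max_eq_right h, max_eq_right (Real.log_le_log hx h)]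
  · rw [max_eq_left h, max_eq_left (Real.log_le_log hy h)]

theorem cutoff_lip {X₀ X₁ : ℝ} (h₀ : 0 < X₀) (h₁ : X₀ < X₁) {x y : ℝ} (hx : 0 < x) (hy : 0 < y) :
    |cutoff X₀ X₁ x - cutoff X₀ X₁ y| ≤ |Real.log x - Real.log y| / Real.log (X₁ / X₀) := by
  unfold cutoff
  refine (clamp_lip _ _).trans ?_
  have h2 : 0 < Real.log (X₁ / X₀) := Real.log_pos (by rw [lt_div_iff₀ h₀]; linarith)
  have hX1 : 0 < X₁ := by linarith
  have h5 : 0 < max x X₀ := lt_max_of_lt_right h₀
  have h6 : 0 < max y X₀ := lt_max_of_lt_right h₀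
  rw [← sub_div, abs_div, abs_of_pos h2]
  apply div_le_div_of_nonneg_right _ h2.le
  rw [Real.log_div hX1.ne' h5.ne', Real.log_div hX1.ne' h6.ne', log_max_eq hx h₀,
    log_max_eq hy h₀]
  have h7 := abs_max_sub_max_le_abs (Real.log x) (Real.log y) (Real.log X₀)
  have h8 : Real.log X₁ - max (Real.log x) (Real.log X₀) -
      (Real.log X₁ - max (Real.log y) (Real.log X₀)) =
      -(max (Real.log x) (Real.log X₀) - max (Real.log y) (Real.log X₀)) := by ring
  rw [h8, abs_neg]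
  exact h7

theorem log_sub_le {x y ρ : ℝ} (hρ : 0 < ρ) (hx : ρ ≤ x) (hy : ρ ≤ y) :
    |Real.log x - Real.log y| ≤ |x - y| / ρ := by
  have key : ∀ x y : ℝ, ρ ≤ x → ρ ≤ y → Real.log x - Real.log y ≤ |x - y| / ρ := by
    intro x y hx hy
    have hx0 : 0 < x := by linarith
    have hy0 : 0 < y := by linarith
    rw [← Real.log_div hx0.ne' hy0.ne']
    have h1 := Real.log_le_sub_one_of_pos (by positivity : 0 < x / y)
    have h2 : x / y - 1 = (x - y) / y := by field_simp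
    rw [h2] at h1
    refine h1.trans ?_
    calc (x - y) / y ≤ |x - y| / y := by gcongr; exact le_abs_self _
      _ ≤ |x - y| / ρ := by gcongr
  rw [abs_le]
  constructor
  · have := key y x hy hx
    rw [abs_sub_comm] at this
    linarith
  · exact key x y hx hy

/-- The Lipschitz bound for the log-cutoff statistic on the good event. -/
theorem stat_lip {M c : ℝ} (hM : 0 < M) (hc : 0 < c) {m N n : ℕ} (hmN : m < N) (h2N : 2 * N ≤ n)
    (hX : c * M * ((m : ℝ) + 1) ^ 2 < c * ((N : ℝ) + 1) ^ 2 / 72)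
    {u u' : Fin n → ℝ} (hu : u ∈ Dset M m N n) (hu' : u' ∈ Dset M m N n) :
    (∑ i, cutoff (c * M * ((m : ℝ) + 1) ^ 2) (c * ((N : ℝ) + 1) ^ 2 / 72)
      (c * n * mixed m u i)) -
    (∑ i, cutoff (c * M * ((m : ℝ) + 1) ^ 2) (c * ((N : ℝ) + 1) ^ 2 / 72)
      (c * n * mixed m u' i)) ≤
    ∑ i : Fin n, (if m ≤ (i : ℕ) ∧ (i : ℕ) < N then
        2 * Real.sqrt 72 / Real.log ((c * ((N : ℝ) + 1) ^ 2 / 72) / (c * M * ((m : ℝ) + 1) ^ 2)) *
          Real.sqrt n / (((i : ℕ) : ℝ) + 1) * |u i - u' i| else 0) := by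
  obtain ⟨X₀, hX₀⟩ : ∃ X₀ : ℝ, X₀ = c * M * ((m : ℝ) + 1) ^ 2 := ⟨_, rfl⟩
  obtain ⟨X₁, hX₁⟩ : ∃ X₁ : ℝ, X₁ = c * ((N : ℝ) + 1) ^ 2 / 72 := ⟨_, rfl⟩
  rw [← hX₀, ← hX₁] at hX ⊢
  have h₀ : 0 < X₀ := by rw [hX₀]; positivity
  obtain ⟨Λ, hΛ⟩ : ∃ Λ : ℝ, Λ = Real.log (X₁ / X₀) := ⟨_, rfl⟩
  have hΛ0 : 0 < Λ := by rw [hΛ]; exact Real.log_pos (by rw [lt_div_iff₀ h₀]; linarith)
  rw [← hΛ]
  have hn : 0 < n := by omega
  have hnR : (0 : ℝ) < n := by exact_mod_cast hn
  rw [← Finset.sum_sub_distrib]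
  refine Finset.sum_le_sum fun i _ => ?_
  by_cases h1 : (i : ℕ) < m
  · rw [if_neg (by omega)]
    have hone : ∀ v ∈ Dset M m N n, cutoff X₀ X₁ (c * n * mixed m v i) = 1 := by
      intro v hv
      apply cutoff_one h₀ hX
      obtain ⟨mm, hmm⟩ : ∃ mm : Fin n, (mm : ℕ) = m := ⟨⟨m, by omega⟩, rfl⟩
      have h2 := (hv.1.2 mm (by omega) (by omega)).2
      have h3 : mixed m v i ≤ mixed m v mm := hv.1.1.2.monotone (Fin.le_def.2 (by omega))
      rw [hmm] at h2
      rw [hX₀]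
      have h4 : c * n * mixed m v i ≤ c * (n * mixed m v mm) := by
        rw [mul_assoc]
        gcongr
      calc c * n * mixed m v i ≤ c * (n * mixed m v mm) := h4
        _ ≤ c * (M * ((m : ℝ) + 1) ^ 2) := by gcongr
        _ = _ := by ring
    rw [hone u hu, hone u' hu']
    simp
  · by_cases h2 : (i : ℕ) < N
    · rw [if_pos ⟨by omega, h2⟩]
      have hpos : 0 < mixed m u i := hu.1.1.1 i
      have hpos' : 0 < mixed m u' i := hu'.1.1.1 i
      have h3 := cutoff_lip h₀ hX (x := c * n * mixed m u i) (y := c * n * mixed m u' i)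
        (by positivity) (by positivity)
      refine (le_abs_self _).trans (h3.trans ?_)
      rw [← hΛ]
      have p1 := hu.2 i (by omega)
      have p2 := hu'.2 i (by omega)
      have b1 := (hu.1.2 i (by omega) (by omega)).1
      have b2 := (hu'.1.2 i (by omega) (by omega)).1
      have e1 : mixed m u i = (u i) ^ 2 := by unfold mixed; rw [if_neg h1]
      have e2 : mixed m u' i = (u' i) ^ 2 := by unfold mixed; rw [if_neg h1]
      rw [e1] at b1 ⊢
      rw [e2] at b2 ⊢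
      have e3 : Real.log (c * n * (u i) ^ 2) - Real.log (c * n * (u' i) ^ 2) =
          2 * (Real.log (u i) - Real.log (u' i)) := by
        have e4 : ∀ x : ℝ, 0 < x → Real.log (c * n * x ^ 2) =
            Real.log (c * n) + 2 * Real.log x := by
          intro x hx
          rw [Real.log_mul (by positivity) (by positivity), Real.log_pow]
          push_cast; ring
        rw [e4 _ p1, e4 _ p2]; ring
      obtain ⟨ρ, hρ⟩ : ∃ ρ : ℝ, ρ = (((i : ℕ) : ℝ) + 1) / (Real.sqrt 72 * Real.sqrt n) :=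
        ⟨_, rfl⟩
      have hρ0 : 0 < ρ := by rw [hρ]; positivity
      have hρ2 : ∀ x : ℝ, 0 < x → (((i : ℕ) : ℝ) + 1) ^ 2 / 72 ≤ n * x ^ 2 → ρ ≤ x := by
        intro x hx hxx
        have h4 : ρ ^ 2 ≤ x ^ 2 := by
          rw [hρ, div_pow, mul_pow, Real.sq_sqrt (by norm_num), Real.sq_sqrt hnR.le,
            div_le_iff₀ (by positivity)]
          rw [div_le_iff₀ (by norm_num)] at hxx
          linarith
        exact (pow_le_pow_iff_left₀ hρ0.le hx.le (by norm_num)).1 h4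
      have h4 := log_sub_le hρ0 (hρ2 _ p1 b1) (hρ2 _ p2 b2)
      rw [e3, abs_mul, abs_of_pos (by norm_num : (0:ℝ) < 2)]
      calc 2 * |Real.log (u i) - Real.log (u' i)| / Λ ≤ 2 * (|u i - u' i| / ρ) / Λ := by
            gcongr
        _ = _ := by rw [hρ]; field_simp
    · rw [if_neg (by omega)]
      have hzero : ∀ v ∈ Dset M m N n, cutoff X₀ X₁ (c * n * mixed m v i) = 0 := by
        intro v hv
        apply cutoff_zero h₀ hX
        obtain ⟨NN, hNN⟩ : ∃ NN : Fin n, (NN : ℕ) = N := ⟨⟨N, by omega⟩, rfl⟩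
        have h3 := (hv.1.2 NN (by omega) (by omega)).1
        have h4 : mixed m v NN ≤ mixed m v i := hv.1.1.2.monotone (Fin.le_def.2 (by omega))
        rw [hNN] at h3
        rw [hX₁]
        calc c * ((N : ℝ) + 1) ^ 2 / 72 = c * (((N : ℝ) + 1) ^ 2 / 72) := by ring
          _ ≤ c * (n * mixed m v NN) := by gcongr
          _ ≤ c * (n * mixed m v i) := by gcongr
          _ = _ := by ring
      rw [hzero u hu, hzero u' hu']
      simp

/-- Two-sided concentration from the product bound on exponential moments. -/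
theorem two_sided {Ω : Type*} [MeasurableSpace Ω] (μ : Measure Ω) [IsProbabilityMeasure μ]
    {K : Set Ω} (hK : MeasurableSet K) {F : Ω → ℝ} (hF : Measurable F) {r E ε : ℝ} (hr : 0 < r)
    (hE : 0 ≤ E)
    (h : (∫⁻ x in K, ENNReal.ofReal (Real.exp (r * F x)) ∂μ) *
      (∫⁻ x in K, ENNReal.ofReal (Real.exp (-(r * F x))) ∂μ) ≤
      ENNReal.ofReal (Real.exp E) * (μ K) ^ 2)
    (hfin : ∫⁻ x in K, ENNReal.ofReal (Real.exp (r * F x)) ∂μ ≠ ∞) :
    ∃ C : ℝ, μ {x | ε ≤ |F x - C|} ≤ μ Kᶜ + ENNReal.ofReal (2 * Real.exp (E - r * ε)) := by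
  by_cases hK0 : μ K = 0
  · refine ⟨0, ?_⟩
    have h1 : μ Kᶜ = 1 := by
      rw [prob_compl_eq_one_sub hK, hK0, tsub_zero]
    rw [h1]
    exact prob_le_one.trans le_self_add
  obtain ⟨x, hx⟩ : ∃ x : ℝ≥0∞, x = ∫⁻ x in K, ENNReal.ofReal (Real.exp (r * F x)) ∂μ := ⟨_, rfl⟩
  obtain ⟨y, hy⟩ : ∃ y : ℝ≥0∞, y = ∫⁻ x in K, ENNReal.ofReal (Real.exp (-(r * F x))) ∂μ :=
    ⟨_, rfl⟩
  rw [← hx, ← hy] at h
  rw [← hx] at hfin
  have hx0 : x ≠ 0 := by
    rw [hx]
    intro h0
    rw [lintegral_eq_zero_iff (by fun_prop)] at h0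
    have h1 : ∀ᵐ z ∂(μ.restrict K), False := by
      filter_upwards [h0] with z hz
      simp only [Pi.zero_apply, ENNReal.ofReal_eq_zero] at hz
      exact absurd hz (not_le.2 (Real.exp_pos _))
    rw [ae_iff] at h1
    simp only [not_false_eq_true, ofPred_true, Measure.restrict_apply MeasurableSet.univ,
      univ_inter] at h1
    exact hK0 h1
  obtain ⟨p, hp⟩ : ∃ p : ℝ, p = (μ K).toReal := ⟨_, rfl⟩
  have hp0 : 0 < p := by rw [hp]; exact ENNReal.toReal_pos hK0 (measure_ne_top μ K)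
  have hp1 : p ≤ 1 := by
    rw [hp]
    have := ENNReal.toReal_mono ENNReal.one_ne_top (prob_le_one : μ K ≤ 1)
    simpa using this
  have hpK : μ K = ENNReal.ofReal p := by rw [hp, ENNReal.ofReal_toReal (measure_ne_top μ K)]
  obtain ⟨xr, hxr⟩ : ∃ xr : ℝ, xr = x.toReal := ⟨_, rfl⟩
  have hxr0 : 0 < xr := by rw [hxr]; exact ENNReal.toReal_pos hx0 hfin
  have hxx : x = ENNReal.ofReal xr := by rw [hxr, ENNReal.ofReal_toReal hfin]
  have hyfin : y ≠ ∞ := by
    intro hy0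
    rw [hy0, ENNReal.mul_top hx0] at h
    have : ENNReal.ofReal (Real.exp E) * μ K ^ 2 ≠ ∞ :=
      ENNReal.mul_ne_top ENNReal.ofReal_ne_top (ENNReal.pow_ne_top (measure_ne_top μ K))
    exact this (top_le_iff.1 h)
  obtain ⟨yr, hyr⟩ : ∃ yr : ℝ, yr = y.toReal := ⟨_, rfl⟩
  have hyr0 : 0 ≤ yr := by rw [hyr]; exact ENNReal.toReal_nonneg
  have hyy : y = ENNReal.ofReal yr := by rw [hyr, ENNReal.ofReal_toReal hyfin]
  have hxy : xr * yr ≤ Real.exp E * p ^ 2 := by
    rw [hxx, hyy, hpK, ← ENNReal.ofReal_mul hxr0.le, ← ENNReal.ofReal_pow hp0.le,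
      ← ENNReal.ofReal_mul (Real.exp_pos _).le] at h
    exact (ENNReal.ofReal_le_ofReal_iff (by positivity)).1 h
  refine ⟨Real.log (xr / p) / r, ?_⟩
  obtain ⟨C, hC⟩ : ∃ C : ℝ, C = Real.log (xr / p) / r := ⟨_, rfl⟩
  have hrC : Real.exp (r * C) = xr / p := by
    rw [hC, mul_div_cancel₀ _ hr.ne', Real.exp_log (by positivity)]
  rw [← hC]
  have hsub : {z | ε ≤ |F z - C|} ⊆ Kᶜ ∪ ((K ∩ {z | C + ε ≤ F z}) ∪ (K ∩ {z | F z ≤ C - ε})) := by
    intro z hz
    by_cases hzK : z ∈ K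
    · right
      have hz' : ε ≤ |F z - C| := hz
      rcases le_abs.1 hz' with h1 | h1
      · left; exact ⟨hzK, by change C + ε ≤ F z; linarith⟩
      · right; exact ⟨hzK, by change F z ≤ C - ε; linarith⟩
    · left; exact hzK
  have hm1 : MeasurableSet (K ∩ {z | C + ε ≤ F z}) :=
    hK.inter (measurableSet_le measurable_const hF)
  have hm2 : MeasurableSet (K ∩ {z | F z ≤ C - ε}) :=
    hK.inter (measurableSet_le hF measurable_const)
  have hEr : 0 < Real.exp (E - r * ε) := Real.exp_pos _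
  have b1 : μ (K ∩ {z | C + ε ≤ F z}) ≤ ENNReal.ofReal (Real.exp (E - r * ε)) := by
    have h1 : ENNReal.ofReal (Real.exp (r * (C + ε))) * μ (K ∩ {z | C + ε ≤ F z}) ≤ x := by
      rw [← setLIntegral_const, hx]
      refine le_trans (setLIntegral_mono' hm1 fun z hz => ?_) (lintegral_mono_set inter_subset_left)
      apply ENNReal.ofReal_le_ofReal
      apply Real.exp_le_exp.2
      exact mul_le_mul_of_nonneg_left hz.2 hr.le
    have h2 : μ (K ∩ {z | C + ε ≤ F z}) ≤ x / ENNReal.ofReal (Real.exp (r * (C + ε))) := by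
      rw [ENNReal.le_div_iff_mul_le (Or.inl (by simp [Real.exp_pos]))
        (Or.inl ENNReal.ofReal_ne_top), mul_comm]
      exact h1
    refine h2.trans ?_
    rw [hxx, ← ENNReal.ofReal_div_of_pos (Real.exp_pos _)]
    apply ENNReal.ofReal_le_ofReal
    rw [mul_add, Real.exp_add, hrC]
    have h3 : xr / (xr / p * Real.exp (r * ε)) = p * Real.exp (-(r * ε)) := by
      rw [Real.exp_neg]; field_simp
    rw [h3]
    calc p * Real.exp (-(r * ε)) ≤ 1 * Real.exp (-(r * ε)) := by gcongr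
      _ ≤ Real.exp (E - r * ε) := by rw [one_mul]; apply Real.exp_le_exp.2; linarith
  have b2 : μ (K ∩ {z | F z ≤ C - ε}) ≤ ENNReal.ofReal (Real.exp (E - r * ε)) := by
    have h1 : ENNReal.ofReal (Real.exp (-(r * (C - ε)))) * μ (K ∩ {z | F z ≤ C - ε}) ≤ y := by
      rw [← setLIntegral_const, hy]
      refine le_trans (setLIntegral_mono' hm2 fun z hz => ?_) (lintegral_mono_set inter_subset_left)
      apply ENNReal.ofReal_le_ofReal
      apply Real.exp_le_exp.2
      have := mul_le_mul_of_nonneg_left (hz.2 : F z ≤ C - ε) hr.le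
      linarith
    have h2 : μ (K ∩ {z | F z ≤ C - ε}) ≤ y / ENNReal.ofReal (Real.exp (-(r * (C - ε)))) := by
      rw [ENNReal.le_div_iff_mul_le (Or.inl (by simp [Real.exp_pos]))
        (Or.inl ENNReal.ofReal_ne_top), mul_comm]
      exact h1
    refine h2.trans ?_
    rw [hyy, ← ENNReal.ofReal_div_of_pos (Real.exp_pos _)]
    apply ENNReal.ofReal_le_ofReal
    have h3 : Real.exp (-(r * (C - ε))) = p / xr * Real.exp (r * ε) := by
      have : -(r * (C - ε)) = -(r * C) + r * ε := by ring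
      rw [this, Real.exp_add, Real.exp_neg, hrC, inv_div]
    rw [h3, div_le_iff₀ (by positivity)]
    have h4 : Real.exp (E - r * ε) * (p / xr * Real.exp (r * ε)) = Real.exp E * p / xr := by
      have : Real.exp (E - r * ε) * Real.exp (r * ε) = Real.exp E := by
        rw [← Real.exp_add]; ring_nf
      calc Real.exp (E - r * ε) * (p / xr * Real.exp (r * ε)) =
            (Real.exp (E - r * ε) * Real.exp (r * ε)) * p / xr := by ring
        _ = _ := by rw [this]
    rw [h4, le_div_iff₀ hxr0]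
    calc yr * xr = xr * yr := mul_comm _ _
      _ ≤ Real.exp E * p ^ 2 := hxy
      _ ≤ Real.exp E * p := by
          apply mul_le_mul_of_nonneg_left _ (Real.exp_pos _).le
          nlinarith
  calc μ {z | ε ≤ |F z - C|} ≤ μ (Kᶜ ∪ ((K ∩ {z | C + ε ≤ F z}) ∪ (K ∩ {z | F z ≤ C - ε}))) :=
        measure_mono hsub
    _ ≤ μ Kᶜ + (μ (K ∩ {z | C + ε ≤ F z}) + μ (K ∩ {z | F z ≤ C - ε})) :=
        (measure_union_le _ _).trans (by gcongr; exact measure_union_le _ _)
    _ ≤ μ Kᶜ + (ENNReal.ofReal (Real.exp (E - r * ε)) + ENNReal.ofReal (Real.exp (E - r * ε))) := by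
        gcongr
    _ = _ := by
        rw [← ENNReal.ofReal_add hEr.le hEr.le]; congr 2; ring

end MPe6d203
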