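import Pool.Agent.Lib.MP_e6d203_pr.Shift

/-!
# Tail estimates for the points of the Laguerre ensemble
-/

namespace MPe6d203

open MeasureTheory Set Filter Topology
open scoped ENNReal

theorem two_le_log_nine : 2 ≤ Real.log 9 := by
  rw [Real.le_log_iff_exp_le (by norm_num)]
  have h := Real.exp_one_lt_d9
  have h2 : Real.exp 2 = Real.exp 1 * Real.exp 1 := by rw [← Real.exp_add]; norm_num
  rw [h2]
  nlinarith [Real.exp_pos 1]

theorem measurableSet_lt_coord {n : ℕ} (i : Fin n) (v : ℝ) :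
    MeasurableSet {l : Fin n → ℝ | l ∈ chamber n ∧ l i < v} :=
  (measurableSet_chamber n).inter (measurableSet_lt (measurable_pi_apply i) measurable_const)

theorem measurableSet_gt_coord {n : ℕ} (i : Fin n) (v : ℝ) :
    MeasurableSet {l : Fin n → ℝ | l ∈ chamber n ∧ v < l i} :=
  (measurableSet_chamber n).inter (measurableSet_lt measurable_const (measurable_pi_apply i))

theorem chamber_upshift {n : ℕ} (k : ℕ) {t : ℝ} (ht : 0 ≤ t) {l : Fin n → ℝ}
    (hl : l ∈ chamber n) : (fun i : Fin n => l i + if k ≤ (i : ℕ) then t else 0) ∈ chamber n := by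
  refine ⟨fun i => ?_, fun i j hij => ?_⟩
  · have := hl.1 i
    dsimp only
    split_ifs <;> linarith
  · have := hl.2 hij
    have hij' : (i : ℕ) < j := hij
    dsimp only
    split_ifs
    · linarith
    · omega
    · linarith
    · linarith

/-- Lower tail estimate. -/
theorem lower_tail {β a : ℝ} (hβ : 0 < β) (ha : -1 < a) {n : ℕ} (i : Fin n) (hi : 1 ≤ (i : ℕ))
    (hk : -(alpha β a) ≤ β / 2 * (((i : ℕ) + 1) / 2 : ℕ)) :
    laguerre β a n {l | l ∈ chamber n ∧ l i < ((i : ℕ) + 1) ^ 2 / (72 * n)} ≤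
      ENNReal.ofReal (Real.exp (-(β / 18 * ((i : ℕ) + 1) ^ 2))) := by
  have := isProbabilityMeasure_laguerre hβ ha n
  obtain ⟨k, hkdef⟩ : ∃ k : ℕ, k = ((i : ℕ) + 1) / 2 := ⟨_, rfl⟩
  rw [← hkdef] at hk
  have hk1 : 1 ≤ k := by omega
  have hki : 2 * k ≤ (i : ℕ) + 1 := by omega
  have hki' : (i : ℕ) + 1 ≤ 3 * k := by omega
  have hn : 0 < n := lt_of_le_of_lt (Nat.zero_le _) i.2
  have hnR : (0 : ℝ) < n := by exact_mod_cast hn
  have hkR : (1 : ℝ) ≤ k := by exact_mod_cast hk1
  have hiR : ((i : ℕ) : ℝ) + 1 ≤ 3 * k := by exact_mod_cast hki'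
  have hi0 : (0 : ℝ) ≤ ((i : ℕ) : ℝ) := Nat.cast_nonneg _
  obtain ⟨t, ht⟩ : ∃ t : ℝ, t = k ^ 2 / n := ⟨_, rfl⟩
  have ht0 : 0 < t := by rw [ht]; positivity
  have hup := upshift hβ k ht0.le (a := a) (measurableSet_chamber n) (Subset.refl _)
    (fun l hl => chamber_upshift k ht0.le hl)
  set E : Set (Fin n → ℝ) := {l | l ∈ chamber n ∧ l i < ((i : ℕ) + 1) ^ 2 / (72 * n)} with hE
  have hEm : MeasurableSet E := measurableSet_lt_coord i _
  have hEc : E ⊆ chamber n := fun l hl => hl.1
  have hlow : ∀ l ∈ E, β / 2 * k ^ 2 ≤ (β * k + alpha β a) *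
      (∑ i : Fin n, if k ≤ (i : ℕ) then Real.log (1 + t / l i) else 0) - β / 2 * n * t := by
    intro l hl
    have hpos := hl.1.1
    have hmono := hl.1.2
    have hsum : (k : ℝ) * 2 ≤ ∑ i : Fin n, if k ≤ (i : ℕ) then Real.log (1 + t / l i) else 0 := by
      have hterm : ∀ j : Fin n, k ≤ (j : ℕ) → (j : ℕ) ≤ 2 * k - 1 →
          2 ≤ Real.log (1 + t / l j) := by
        intro j hj1 hj2
        have hji : l j ≤ l i := hmono.monotone (by
          rw [Fin.le_def]; omega)
        have hj := hpos j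
        have h9 : 9 ≤ 1 + t / l j := by
          have : 8 ≤ t / l j := by
            rw [le_div_iff₀ hj, ht]
            have h2 : l j < ((i : ℕ) + 1) ^ 2 / (72 * n) := lt_of_le_of_lt hji hl.2
            have h3 : (((i : ℕ) : ℝ) + 1) ^ 2 / (72 * n) ≤ (3 * k) ^ 2 / (72 * n) := by
              gcongr
            have h4 : (3 * (k : ℝ)) ^ 2 / (72 * n) = k ^ 2 / n / 8 := by
              field_simp; ring
            linarith
          linarith
        exact two_le_log_nine.trans (Real.log_le_log (by norm_num) h9)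
      have hnn : ∀ j : Fin n, 0 ≤ (if k ≤ (j : ℕ) then Real.log (1 + t / l j) else 0) := by
        intro j
        have hj := hpos j
        split_ifs
        · exact Real.log_nonneg (by
            have : 0 ≤ t / l j := by positivity
            linarith)
        · exact le_rfl
      rw [← Finset.sum_sdiff (Finset.subset_univ
        (Finset.Icc (⟨k, by omega⟩ : Fin n) ⟨2 * k - 1, by omega⟩))]
      have h5 : ∑ j ∈ Finset.Icc (⟨k, by omega⟩ : Fin n) ⟨2 * k - 1, by omega⟩, (2 : ℝ) ≤
          ∑ j ∈ Finset.Icc (⟨k, by omega⟩ : Fin n) ⟨2 * k - 1, by omega⟩,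
            (if k ≤ (j : ℕ) then Real.log (1 + t / l j) else 0) := by
        refine Finset.sum_le_sum fun j hj => ?_
        rw [Finset.mem_Icc, Fin.le_def, Fin.le_def] at hj
        simp only at hj
        rw [if_pos hj.1]
        exact hterm j hj.1 hj.2
      have h6 : 0 ≤ ∑ j ∈ Finset.univ \ Finset.Icc (⟨k, by omega⟩ : Fin n) ⟨2 * k - 1, by omega⟩,
            (if k ≤ (j : ℕ) then Real.log (1 + t / l j) else 0) :=
        Finset.sum_nonneg fun j _ => hnn j
      have h7 : ∑ j ∈ Finset.Icc (⟨k, by omega⟩ : Fin n) ⟨2 * k - 1, by omega⟩, (2 : ℝ) =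
          k * 2 := by
        rw [Finset.sum_const, Fin.card_Icc, nsmul_eq_mul]
        simp only
        congr 2
        omega
      linarith
    have hnt : β / 2 * n * t = β / 2 * k ^ 2 := by
      rw [ht]; field_simp
    rw [hnt]
    have hγ : β / 2 * k ≤ β * k + alpha β a := by linarith
    have hγ0 : 0 ≤ β / 2 * k := by positivity
    have := mul_le_mul hγ hsum (by positivity) (by linarith)
    nlinarith
  have h2 : ENNReal.ofReal (Real.exp (β / 2 * k ^ 2)) * laguerre β a n E ≤ 1 := by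
    calc ENNReal.ofReal (Real.exp (β / 2 * k ^ 2)) * laguerre β a n E
        = ∫⁻ l in E, ENNReal.ofReal (Real.exp (β / 2 * k ^ 2)) ∂(laguerre β a n) := by
          rw [setLIntegral_const]
      _ ≤ ∫⁻ l in E, ENNReal.ofReal (Real.exp ((β * k + alpha β a) *
            (∑ i : Fin n, if k ≤ (i : ℕ) then Real.log (1 + t / l i) else 0) - β / 2 * n * t))
            ∂(laguerre β a n) := by
          refine setLIntegral_mono' hEm fun l hl => ?_
          exact ENNReal.ofReal_le_ofReal (Real.exp_le_exp.2 (hlow l hl))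
      _ ≤ ∫⁻ l in chamber n, ENNReal.ofReal (Real.exp ((β * k + alpha β a) *
            (∑ i : Fin n, if k ≤ (i : ℕ) then Real.log (1 + t / l i) else 0) - β / 2 * n * t))
            ∂(laguerre β a n) := lintegral_mono_set hEc
      _ ≤ laguerre β a n (chamber n) := hup
      _ ≤ 1 := prob_le_one
  have h3 : laguerre β a n E ≤ ENNReal.ofReal (Real.exp (-(β / 2 * k ^ 2))) := by
    rw [Real.exp_neg, ENNReal.ofReal_inv_of_pos (Real.exp_pos _), ENNReal.le_inv_iff_mul_le,
      mul_comm]
    exact h2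
  refine h3.trans (ENNReal.ofReal_le_ofReal (Real.exp_le_exp.2 ?_))
  have : (((i : ℕ) : ℝ) + 1) ^ 2 ≤ (3 * k) ^ 2 := by gcongr
  nlinarith

end MPe6d203
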