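import Pool.Agent.Lib.MP_e6d203_pr.Defs

/-!
# Transfer of concentration from finite ensembles to the limiting point process
-/

namespace MPe6d203

open MeasureTheory Set Filter Topology
open scoped ENNReal BoundedContinuousFunction

section

variable {Ω : Type*} [MeasurableSpace Ω]

theorem IsPointProcess.countable {X : Ω → Set ℝ} (hX : IsPointProcess X) (ω : Ω) :
    (X ω).Countable := by
  have h : X ω ⊆ ⋃ n : ℕ, X ω ∩ Icc (1 / ((n : ℝ) + 1)) ((n : ℝ) + 1) := by
    intro x hx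
    have hx0 : 0 < x := hX.pos ω hx
    obtain ⟨n, hn⟩ := exists_nat_gt (max x (1 / x))
    have h1 : x < n := (le_max_left _ _).trans_lt hn
    have h2 : 1 / x < n := (le_max_right _ _).trans_lt hn
    refine mem_iUnion.2 ⟨n, hx, ?_, by linarith⟩
    rw [div_le_iff₀ (by positivity)]
    rw [div_lt_iff₀ hx0] at h2
    nlinarith
  refine Countable.mono h (countable_iUnion fun n => ?_)
  exact (hX.locallyFinite ω _ _ (by positivity)).countable

/-- The counting measure of `X ω` depends measurably on `ω`. -/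
theorem IsPointProcess.measurable_count {X : Ω → Set ℝ} (hX : IsPointProcess X) :
    Measurable fun ω => (Measure.count : Measure ℝ).restrict (X ω) := by
  refine Measure.measurable_of_measurable_coe _ fun C hC => ?_
  have : (fun ω => (Measure.count : Measure ℝ).restrict (X ω) C) =
      fun ω => ((X ω ∩ C).encard : ℝ≥0∞) := by
    funext ω
    rw [Measure.restrict_apply hC, Measure.count_apply (hC.inter (hX.countable ω).measurableSet),
      inter_comm]
  rw [this]
  exact (measurable_from_top (f := fun n : ℕ∞ => (n : ℝ≥0∞))).comp (hX.measurable C hC)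

theorem lintegral_count_eq {X : Ω → Set ℝ} (hX : IsPointProcess X) {f : ℝ → ℝ}
    (hf0 : ∀ x, 0 ≤ f x) {s t : ℝ} (hs : 0 < s) (hst : ∀ x, x ∉ Icc s t → f x = 0) (ω : Ω) :
    (∫⁻ x, ENNReal.ofReal (f x) ∂((Measure.count : Measure ℝ).restrict (X ω))).toReal =
      ∑ᶠ x ∈ X ω, f x := by
  have hfin : (X ω ∩ Icc s t).Finite := hX.locallyFinite ω s t hs
  rw [lintegral_countable _ (hX.countable ω)]
  have h1 : ∀ a : X ω, ENNReal.ofReal (f a) * (Measure.count : Measure ℝ) {(a : ℝ)} =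
      ENNReal.ofReal (f a) := by
    intro a; simp
  simp_rw [h1]
  rw [tsum_subtype (X ω) (fun a => ENNReal.ofReal (f a))]
  rw [tsum_eq_sum (s := hfin.toFinset)]
  · rw [ENNReal.toReal_sum]
    · rw [finsum_mem_eq_sum_of_inter_support_eq (s := X ω) (t := hfin.toFinset)]
      · refine Finset.sum_congr rfl fun x hx => ?_
        have hx' : x ∈ X ω := by
          have := (Set.Finite.mem_toFinset hfin).1 hx
          exact this.1
        rw [indicator_of_mem hx', ENNReal.toReal_ofReal (hf0 x)]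
      · ext x
        simp only [mem_inter_iff, Function.mem_support, Finite.coe_toFinset]
        constructor
        · rintro ⟨hx, hfx⟩
          exact ⟨⟨hx, by_contra fun h => hfx (hst x h)⟩, hfx⟩
        · rintro ⟨⟨hx, -⟩, hfx⟩
          exact ⟨hx, hfx⟩
    · intro x _
      by_cases hx : x ∈ X ω
      · rw [indicator_of_mem hx]; exact ENNReal.ofReal_ne_top
      · rw [indicator_of_notMem hx]; exact ENNReal.zero_ne_top
  · intro x hx
    by_cases hx' : x ∈ X ω
    · have : x ∉ Icc s t := fun h => hx ((Set.Finite.mem_toFinset hfin).2 ⟨hx', h⟩)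
      rw [indicator_of_mem hx', hst x this, ENNReal.ofReal_zero]
    · rw [indicator_of_notMem hx']

/-- Linear statistics of point processes are measurable. -/
theorem IsPointProcess.measurable_finsum {X : Ω → Set ℝ} (hX : IsPointProcess X) {f : ℝ → ℝ}
    (hf : Measurable f) {s t : ℝ} (hs : 0 < s) (hst : ∀ x, x ∉ Icc s t → f x = 0) :
    Measurable fun ω => ∑ᶠ x ∈ X ω, f x := by
  have key : ∀ g : ℝ → ℝ, Measurable g → (∀ x, 0 ≤ g x) → (∀ x, x ∉ Icc s t → g x = 0) →
      Measurable fun ω => ∑ᶠ x ∈ X ω, g x := by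
    intro g hg hg0 hgs
    have : (fun ω => ∑ᶠ x ∈ X ω, g x) = fun ω =>
        (∫⁻ x, ENNReal.ofReal (g x) ∂((Measure.count : Measure ℝ).restrict (X ω))).toReal := by
      funext ω
      rw [lintegral_count_eq hX hg0 hs hgs]
    rw [this]
    exact ((Measure.measurable_lintegral (hg.ennreal_ofReal)).comp hX.measurable_count).ennreal_toReal
  have h2 : (fun ω => ∑ᶠ x ∈ X ω, f x) =
      fun ω => (∑ᶠ x ∈ X ω, max (f x) 0) - ∑ᶠ x ∈ X ω, max (-f x) 0 := by
    funext ω
    have hfin : (X ω ∩ Icc s t).Finite := hX.locallyFinite ω s t hs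
    have hsup : ∀ g : ℝ → ℝ, (∀ x, x ∉ Icc s t → g x = 0) →
        (X ω ∩ Function.support g).Finite := by
      intro g hg
      refine hfin.subset fun x hx => ⟨hx.1, by_contra fun h => hx.2 (hg x h)⟩
    rw [eq_sub_iff_add_eq, ← finsum_mem_add_distrib' (hsup _ ?_) (hsup _ ?_)]
    · refine finsum_mem_congr rfl fun x _ => ?_
      rcases le_total 0 (f x) with h | h
      · rw [max_eq_left h, max_eq_right (by linarith)]; ring
      · rw [max_eq_right h, max_eq_left (by linarith)]; ring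
    · intro x hx; simp [hst x hx]
    · intro x hx; simp [hst x hx]
  rw [h2]
  refine (key _ (hf.max measurable_const) (fun x => le_max_right _ _) ?_).sub
    (key _ (hf.neg.max measurable_const) (fun x => le_max_right _ _) ?_)
  · intro x hx; simp [hst x hx]
  · intro x hx; simp [hst x hx]

end

section

/-- Clamp to `[0,1]`. -/
noncomputable def cl (y : ℝ) : ℝ := max 0 (min 1 y)

theorem cl_continuous : Continuous cl := by unfold cl; fun_prop
theorem cl_nonneg (y : ℝ) : 0 ≤ cl y := le_max_left _ _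
theorem cl_le_one (y : ℝ) : cl y ≤ 1 := max_le zero_le_one (min_le_left _ _)
theorem cl_of_nonpos {y : ℝ} (h : y ≤ 0) : cl y = 0 := by
  unfold cl; rw [min_eq_right (by linarith), max_eq_left h]
theorem cl_of_one_le {y : ℝ} (h : 1 ≤ y) : cl y = 1 := by
  unfold cl; rw [min_eq_left h, max_eq_right zero_le_one]

/-- The bounded continuous function `y ↦ cl (h y)`. -/
noncomputable def bcl (h : ℝ → ℝ) (hh : Continuous h) : ℝ →ᵇ ℝ :=
  BoundedContinuousFunction.ofNormedAddCommGroup (fun y => cl (h y)) (cl_continuous.comp hh) 1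
    (fun y => by rw [Real.norm_of_nonneg (cl_nonneg _)]; exact cl_le_one _)

theorem bcl_apply (h : ℝ → ℝ) (hh : Continuous h) (y : ℝ) : bcl h hh y = cl (h y) := rfl

variable {α : Type*} [MeasurableSpace α]

theorem integrable_bcl (μ : Measure α) [IsProbabilityMeasure μ] {Y : α → ℝ} (hY : Measurable Y)
    (h : ℝ → ℝ) (hh : Continuous h) : Integrable (fun a => bcl h hh (Y a)) μ := by
  refine Integrable.of_bound (C := 1) ?_ (Eventually.of_forall fun a => ?_)
  · exact ((bcl h hh).continuous.measurable.comp hY).aestronglyMeasurable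
  · rw [bcl_apply, Real.norm_of_nonneg (cl_nonneg _)]; exact cl_le_one _

theorem integral_bcl_le (μ : Measure α) [IsProbabilityMeasure μ] {Y : α → ℝ} (hY : Measurable Y)
    (h : ℝ → ℝ) (hh : Continuous h) {A : Set α} {δ : ℝ} (hδ : 0 ≤ δ)
    (hA : ∀ a, a ∉ A → h (Y a) ≤ 0) (hμ : μ A ≤ ENNReal.ofReal δ) :
    ∫ a, bcl h hh (Y a) ∂μ ≤ δ := by
  set B := toMeasurable μ A with hB
  have hBm : MeasurableSet B := measurableSet_toMeasurable μ A
  have hBA : μ B = μ A := measure_toMeasurable A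
  have h1 : ∫ a, bcl h hh (Y a) ∂μ ≤ ∫ a, B.indicator (fun _ => (1 : ℝ)) a ∂μ := by
    refine integral_mono (integrable_bcl μ hY h hh)
      ((integrable_const (1 : ℝ)).indicator hBm) fun a => ?_
    by_cases ha : a ∈ B
    · simp only [indicator_of_mem ha]
      rw [bcl_apply]; exact cl_le_one _
    · simp only [indicator_of_notMem ha]
      rw [bcl_apply, cl_of_nonpos (hA a fun h => ha (subset_toMeasurable μ A h))]
  refine h1.trans ?_
  rw [integral_indicator_const _ hBm, smul_eq_mul, mul_one, measureReal_def, hBA]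
  exact ENNReal.toReal_le_of_le_ofReal hδ hμ

theorem le_integral_bcl (μ : Measure α) [IsProbabilityMeasure μ] {Y : α → ℝ} (hY : Measurable Y)
    (h : ℝ → ℝ) (hh : Continuous h) {A : Set α} {δ : ℝ}
    (hA : ∀ a ∈ A, 1 ≤ h (Y a)) (hμ : ∫ a, bcl h hh (Y a) ∂μ ≤ δ) :
    μ A ≤ ENNReal.ofReal δ := by
  set B := {a | 1 ≤ h (Y a)} with hB
  have hBm : MeasurableSet B := measurableSet_le measurable_const (hh.measurable.comp hY)
  have hAB : A ⊆ B := hA
  refine (measure_mono hAB).trans ?_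
  have h1 : ∫ a, B.indicator (fun _ => (1 : ℝ)) a ∂μ ≤ ∫ a, bcl h hh (Y a) ∂μ := by
    refine integral_mono ((integrable_const (1 : ℝ)).indicator hBm)
      (integrable_bcl μ hY h hh) fun a => ?_
    by_cases ha : a ∈ B
    · simp only [indicator_of_mem ha]
      rw [bcl_apply, cl_of_one_le ha]
    · simp only [indicator_of_notMem ha]
      rw [bcl_apply]; exact cl_nonneg _
  rw [integral_indicator_const _ hBm, smul_eq_mul, mul_one] at h1
  rw [← ENNReal.ofReal_toReal (measure_ne_top μ B)]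
  exact ENNReal.ofReal_le_ofReal (h1.trans hμ)

theorem tsupport_subset_Icc {f : ℝ → ℝ} {s t : ℝ} (h : ∀ x, x ∉ Icc s t → f x = 0) :
    tsupport f ⊆ Icc s t := by
  refine closure_minimal (fun x hx => by_contra fun hx' => hx (h x hx')) isClosed_Icc

section

variable {Ω : Type*} [MeasurableSpace Ω] (P : Measure Ω) [IsProbabilityMeasure P]
    (X : Ω → Set ℝ) (hX : IsPointProcess X)
    (ν : ∀ n : ℕ, Measure (Fin n → ℝ)) (hν : ∀ n, IsProbabilityMeasure (ν n))
    (c : ℝ) (hc : 0 < c)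
    (hlim : ∀ f : ℝ → ℝ, Continuous f → HasCompactSupport f → tsupport f ⊆ Ioi 0 →
      ∀ g : ℝ →ᵇ ℝ, Tendsto (fun n : ℕ => ∫ l, g (∑ i, f (c * n * l i)) ∂(ν n)) atTop
        (𝓝 (∫ ω, g (∑ᶠ x ∈ X ω, f x) ∂P)))

theorem measurable_stat {f : ℝ → ℝ} (hf : Continuous f) (c : ℝ) (n : ℕ) :
    Measurable fun l : Fin n → ℝ => ∑ i, f (c * n * l i) := by
  refine Finset.measurable_sum _ fun i _ => ?_
  exact hf.measurable.comp (measurable_const.mul (measurable_pi_apply i))

include hX hν hlim in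
theorem transfer_edge
    (hedge : ∀ δ > 0, ∃ η > 0, ∀ᶠ n : ℕ in atTop,
      ν n {l | ∃ i, c * n * l i < η} ≤ ENNReal.ofReal δ) :
    ∀ δ > 0, ∃ η > 0, P {ω | (X ω ∩ Ioo 0 η).Nonempty} ≤ ENNReal.ofReal δ := by
  intro δ hδ
  obtain ⟨η, hη, hev⟩ := hedge δ hδ
  refine ⟨η / 2, by positivity, ?_⟩
  set A : ℕ → Set Ω := fun k => {ω | (X ω ∩ Icc (1 / ((k : ℝ) + 1)) (η / 2)).Nonempty} with hA
  have hsub : {ω | (X ω ∩ Ioo 0 (η / 2)).Nonempty} ⊆ ⋃ k, A k := by
    rintro ω ⟨x, hx, hx0, hx1⟩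
    obtain ⟨k, hk⟩ := exists_nat_one_div_lt hx0
    exact mem_iUnion.2 ⟨k, x, hx, hk.le, hx1.le⟩
  have hmono : Monotone A := by
    intro k k' hkk' ω hω
    obtain ⟨x, hx, hx0, hx1⟩ := hω
    refine ⟨x, hx, le_trans ?_ hx0, hx1⟩
    exact one_div_le_one_div_of_le (by positivity) (by
      have : (k : ℝ) ≤ k' := by exact_mod_cast hkk'
      linarith)
  refine (measure_mono hsub).trans ?_
  rw [hmono.measure_iUnion]
  refine iSup_le fun k => ?_
  set κ : ℝ := 1 / ((k : ℝ) + 1) with hκ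
  have hκ0 : 0 < κ := by positivity
  set f : ℝ → ℝ := fun x => cl (2 * x / κ - 1) * cl (2 * (η - x) / η) with hf
  have hfc : Continuous f := by
    refine (cl_continuous.comp (by fun_prop)).mul (cl_continuous.comp (by fun_prop))
  have hfs : ∀ x, x ∉ Icc (κ / 2) η → f x = 0 := by
    intro x hx
    rw [mem_Icc, not_and_or, not_le, not_le] at hx
    rcases hx with hx | hx
    · have : 2 * x / κ - 1 ≤ 0 := by
        rw [sub_nonpos, div_le_one hκ0]; linarith
      simp only [hf, cl_of_nonpos this, zero_mul]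
    · have : 2 * (η - x) / η ≤ 0 := by
        apply div_nonpos_of_nonpos_of_nonneg <;> linarith
      simp only [hf, cl_of_nonpos this, mul_zero]
  have hfη : ∀ x, η ≤ x → f x = 0 := by
    intro x hx
    have : 2 * (η - x) / η ≤ 0 := by
      apply div_nonpos_of_nonpos_of_nonneg <;> linarith
    simp only [hf, cl_of_nonpos this, mul_zero]
  have hf0 : ∀ x, 0 ≤ f x := fun x => mul_nonneg (cl_nonneg _) (cl_nonneg _)
  have hf1 : ∀ x ∈ Icc κ (η / 2), f x = 1 := by
    intro x hx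
    have h1 : 1 ≤ 2 * x / κ - 1 := by
      rw [le_sub_iff_add_le, le_div_iff₀ hκ0]; linarith [hx.1]
    have h2 : 1 ≤ 2 * (η - x) / η := by
      rw [le_div_iff₀ hη]; linarith [hx.2]
    simp only [hf, cl_of_one_le h1, cl_of_one_le h2, mul_one]
  have hts : tsupport f ⊆ Icc (κ / 2) η := tsupport_subset_Icc hfs
  have hcs : HasCompactSupport f := isCompact_Icc.of_isClosed_subset (isClosed_tsupport f) hts
  have hts' : tsupport f ⊆ Ioi 0 := hts.trans fun x hx => lt_of_lt_of_le (by positivity) hx.1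
  have hl := hlim f hfc hcs hts' (bcl (fun y => 2 * y - 1) (by fun_prop))
  have hle : ∫ ω, bcl (fun y => 2 * y - 1) (by fun_prop) (∑ᶠ x ∈ X ω, f x) ∂P ≤ δ := by
    refine le_of_tendsto hl (hev.mono fun n hn => ?_)
    have := hν n
    refine integral_bcl_le (ν n) (measurable_stat hfc c n) _ _ hδ.le (A := {l | ∃ i, c * n * l i < η})
      (fun l hl => ?_) hn
    have : ∑ i, f (c * n * l i) = 0 := by
      refine Finset.sum_eq_zero fun i _ => hfη _ ?_
      by_contra h
      exact hl ⟨i, not_le.1 h⟩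
    simp only [this]; norm_num
  refine le_integral_bcl P (hX.measurable_finsum hfc.measurable (s := κ / 2) (t := η)
    (by positivity) hfs) (fun y => 2 * y - 1) (by fun_prop) (fun ω hω => ?_) hle
  obtain ⟨x, hx, hx0, hx1⟩ := hω
  have hge : f x ≤ ∑ᶠ x ∈ X ω, f x := by
    have hfin : (X ω ∩ Icc (κ / 2) η).Finite := hX.locallyFinite ω _ _ (by positivity)
    rw [finsum_mem_eq_sum_of_inter_support_eq (s := X ω) (t := hfin.toFinset)]
    · refine Finset.single_le_sum (f := f) (fun y _ => hf0 y) ?_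
      rw [Set.Finite.mem_toFinset]
      exact ⟨hx, by linarith, by linarith⟩
    · ext x
      simp only [mem_inter_iff, Function.mem_support, Finite.coe_toFinset]
      constructor
      · rintro ⟨hx, hfx⟩
        exact ⟨⟨hx, by_contra fun h => hfx (hfs x h)⟩, hfx⟩
      · rintro ⟨⟨hx, -⟩, hfx⟩
        exact ⟨hx, hfx⟩
  rw [hf1 x ⟨hx0, hx1⟩] at hge
  linarith

end

end

/-- Two events of probability at most `1/4` do not cover. -/
theorem exists_notMem_two {α : Type*} [MeasurableSpace α] (μ : Measure α) [IsProbabilityMeasure μ]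
    {A B : Set α} (hA : μ A ≤ ENNReal.ofReal (1 / 4)) (hB : μ B ≤ ENNReal.ofReal (1 / 4)) :
    ∃ a, a ∉ A ∧ a ∉ B := by
  by_contra hcon
  push Not at hcon
  have huniv : (univ : Set α) ⊆ A ∪ B := by
    intro a _
    by_cases ha : a ∈ A
    · exact Or.inl ha
    · exact Or.inr (hcon a ha)
  have h1 : (1 : ℝ≥0∞) ≤ ENNReal.ofReal (1 / 2) := by
    calc (1 : ℝ≥0∞) = μ univ := measure_univ.symm
      _ ≤ μ (A ∪ B) := measure_mono huniv
      _ ≤ μ A + μ B := measure_union_le _ _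
      _ ≤ ENNReal.ofReal (1 / 4) + ENNReal.ofReal (1 / 4) := add_le_add hA hB
      _ = ENNReal.ofReal (1 / 2) := by
          rw [← ENNReal.ofReal_add (by norm_num) (by norm_num)]; norm_num
  have h2 : ENNReal.ofReal (1 / 2) < 1 := by
    rw [ENNReal.ofReal_lt_one]; norm_num
  exact absurd h1 (not_le.2 h2)

theorem transfer {Ω : Type*} [MeasurableSpace Ω] (P : Measure Ω) [IsProbabilityMeasure P]
    (X : Ω → Set ℝ) (hX : IsPointProcess X)
    (ν : ∀ n : ℕ, Measure (Fin n → ℝ)) (hν : ∀ n, IsProbabilityMeasure (ν n))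
    (c : ℝ) (hc : 0 < c)
    (hlim : ∀ f : ℝ → ℝ, Continuous f → HasCompactSupport f → tsupport f ⊆ Ioi 0 →
      ∀ g : ℝ →ᵇ ℝ, Tendsto (fun n : ℕ => ∫ l, g (∑ i, f (c * n * l i)) ∂(ν n)) atTop
        (𝓝 (∫ ω, g (∑ᶠ x ∈ X ω, f x) ∂P)))
    (hedge : ∀ δ > 0, ∃ η > 0, ∀ᶠ n : ℕ in atTop,
      ν n {l | ∃ i, c * n * l i < η} ≤ ENNReal.ofReal δ)
    (hconc : ∀ b > 0, ∀ ε > 0, ∃ φ : ℝ → ℝ, Continuous φ ∧ (∀ x ≤ b, φ x = 1) ∧
      (∃ R, ∀ x, R ≤ x → φ x = 0) ∧ ∀ᶠ n : ℕ in atTop,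
        ∃ C : ℝ, ν n {l | ε ≤ |∑ i, φ (c * n * l i) - C|} ≤ ENNReal.ofReal ε) :
    (∀ δ > 0, ∃ η > 0, P {ω | (X ω ∩ Ioo 0 η).Nonempty} ≤ ENNReal.ofReal δ) ∧
    (∀ b > 0, ∀ ε > 0, ∃ φ : ℝ → ℝ, Continuous φ ∧ (∀ x ≤ b, φ x = 1) ∧
      (∃ R, ∀ x, R ≤ x → φ x = 0) ∧
      ∃ C : ℝ, P {ω | ε ≤ |(∑ᶠ x ∈ X ω, φ x) - C|} ≤ ENNReal.ofReal ε) := by
  have hE := transfer_edge P X hX ν hν c hlim hedge
  refine ⟨hE, ?_⟩
  intro b hb ε hε
  set e : ℝ := min ε 1 / 8 with he
  have he0 : 0 < e := by positivity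
  have heε : 8 * e ≤ ε := by rw [he]; linarith [min_le_left ε 1]
  have he1 : 8 * e ≤ 1 := by rw [he]; linarith [min_le_right ε 1]
  obtain ⟨φ, hφc, hφ1, ⟨R, hR⟩, hev⟩ := hconc b hb e he0
  refine ⟨φ, hφc, hφ1, ⟨R, hR⟩, ?_⟩
  obtain ⟨η₁, hη₁, hev₁⟩ := hedge e he0
  obtain ⟨η₂, hη₂, hP₂⟩ := hE e he0
  set η := min η₁ η₂ with hη
  have hη0 : 0 < η := lt_min hη₁ hη₂
  -- the cut off function
  set f : ℝ → ℝ := fun x => φ x * cl (2 * x / η - 1) with hf
  have hfc : Continuous f := hφc.mul (cl_continuous.comp (by fun_prop))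
  have hfφ : ∀ x, η ≤ x → f x = φ x := by
    intro x hx
    have : 1 ≤ 2 * x / η - 1 := by
      rw [le_sub_iff_add_le, le_div_iff₀ hη0]; linarith
    simp only [hf, cl_of_one_le this, mul_one]
  have hfs : ∀ x, x ∉ Icc (η / 2) R → f x = 0 := by
    intro x hx
    rw [mem_Icc, not_and_or, not_le, not_le] at hx
    rcases hx with hx | hx
    · have : 2 * x / η - 1 ≤ 0 := by
        rw [sub_nonpos, div_le_one hη0]; linarith
      simp only [hf, cl_of_nonpos this, mul_zero]
    · simp only [hf, hR x hx.le, zero_mul]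
  have hts : tsupport f ⊆ Icc (η / 2) R := tsupport_subset_Icc hfs
  have hcs : HasCompactSupport f := isCompact_Icc.of_isClosed_subset (isClosed_tsupport f) hts
  have hts' : tsupport f ⊆ Ioi 0 := hts.trans fun x hx => lt_of_lt_of_le (by positivity) hx.1
  have hl := hlim f hfc hcs hts'
  set Y : Ω → ℝ := fun ω => ∑ᶠ x ∈ X ω, f x with hY
  have hYm : Measurable Y := hX.measurable_finsum hfc.measurable (s := η / 2) (t := R)
    (by positivity) hfs
  -- for the finite ensembles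
  have hn1 : ∀ᶠ n : ℕ in atTop, ∃ C : ℝ,
      ν n {l | e ≤ |∑ i, f (c * n * l i) - C|} ≤ ENNReal.ofReal (2 * e) := by
    filter_upwards [hev, hev₁] with n ⟨C, hC⟩ hn
    refine ⟨C, ?_⟩
    have hsub : {l : Fin n → ℝ | e ≤ |∑ i, f (c * n * l i) - C|} ⊆
        {l | e ≤ |∑ i, φ (c * n * l i) - C|} ∪ {l | ∃ i, c * n * l i < η₁} := by
      intro l hl
      by_cases h : ∃ i, c * n * l i < η₁
      · exact Or.inr h
      · left
        push Not at h
        have : ∑ i, f (c * n * l i) = ∑ i, φ (c * n * l i) :=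
          Finset.sum_congr rfl fun i _ => hfφ _ ((min_le_left _ _).trans (h i))
        simp only [mem_setOf_eq] at hl ⊢
        rwa [← this]
    calc ν n _ ≤ ν n ({l | e ≤ |∑ i, φ (c * n * l i) - C|} ∪ {l | ∃ i, c * n * l i < η₁}) :=
          measure_mono hsub
      _ ≤ _ := measure_union_le _ _
      _ ≤ ENNReal.ofReal e + ENNReal.ofReal e := add_le_add hC hn
      _ = ENNReal.ofReal (2 * e) := by
          rw [← ENNReal.ofReal_add he0.le he0.le]; ring_nf
  -- tightness of `Y`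
  obtain ⟨T, hT0, hT⟩ : ∃ T : ℝ, 0 ≤ T ∧ P {ω | T < |Y ω|} ≤ ENNReal.ofReal (1 / 8) := by
    have hanti : Antitone fun k : ℕ => {ω | (k : ℝ) < |Y ω|} := by
      intro k k' hkk' ω hω
      have : (k : ℝ) ≤ k' := by exact_mod_cast hkk'
      exact lt_of_le_of_lt this hω
    have hemp : ⋂ k : ℕ, {ω | (k : ℝ) < |Y ω|} = ∅ := by
      rw [eq_empty_iff_forall_notMem]
      intro ω hω
      obtain ⟨k, hk⟩ := exists_nat_gt |Y ω|
      have := mem_iInter.1 hω k
      exact absurd hk (not_lt.2 this.le)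
    have htend := tendsto_measure_iInter_atTop (μ := P) (s := fun k : ℕ => {ω | (k : ℝ) < |Y ω|})
      (fun k => (measurableSet_lt measurable_const hYm.abs).nullMeasurableSet) hanti
      ⟨0, measure_ne_top _ _⟩
    rw [hemp, measure_empty] at htend
    have hpos : (0 : ℝ≥0∞) < ENNReal.ofReal (1 / 8) := by
      rw [ENNReal.ofReal_pos]; norm_num
    obtain ⟨k, hk⟩ := (htend.eventually (gt_mem_nhds hpos)).exists
    exact ⟨k, by positivity, hk.le⟩
  have hTint : ∫ ω, bcl (fun y => |y| - T) (by fun_prop) (Y ω) ∂P ≤ 1 / 8 := by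
    refine integral_bcl_le P hYm _ _ (by norm_num) (A := {ω | T < |Y ω|}) (fun ω hω => ?_) hT
    simp only [mem_setOf_eq, not_lt] at hω
    linarith
  have hTn : ∀ᶠ n : ℕ in atTop, ∫ l, bcl (fun y => |y| - T) (by fun_prop)
      (∑ i, f (c * n * l i)) ∂(ν n) < 1 / 4 :=
    (hl (bcl (fun y => |y| - T) (by fun_prop))).eventually
      (gt_mem_nhds (by linarith : ∫ ω, bcl (fun y => |y| - T) (by fun_prop) (Y ω) ∂P < 1 / 4))
  have hn2 : ∀ᶠ n : ℕ in atTop, ∃ C : ℝ, C ∈ Icc (-(T + 2)) (T + 2) ∧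
      ν n {l | e ≤ |∑ i, f (c * n * l i) - C|} ≤ ENNReal.ofReal (2 * e) := by
    filter_upwards [hn1, hTn] with n ⟨C, hC⟩ hn
    refine ⟨C, ?_, hC⟩
    have := hν n
    have hA : ν n {l | T + 1 ≤ |∑ i, f (c * n * l i)|} ≤ ENNReal.ofReal (1 / 4) := by
      refine le_integral_bcl (ν n) (measurable_stat hfc c n) (fun y => |y| - T) (by fun_prop)
        (fun l hl => ?_) hn.le
      simp only [mem_setOf_eq] at hl
      linarith
    have hB : ν n {l | e ≤ |∑ i, f (c * n * l i) - C|} ≤ ENNReal.ofReal (1 / 4) :=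
      hC.trans (ENNReal.ofReal_le_ofReal (by linarith))
    obtain ⟨l, hl1, hl2⟩ := exists_notMem_two (ν n) hA hB
    simp only [mem_setOf_eq, not_le] at hl1 hl2
    rw [abs_lt] at hl1 hl2
    constructor <;> linarith
  obtain ⟨N, hN⟩ := eventually_atTop.1 hn2
  choose! C hCmem hCν using hN
  obtain ⟨C₀, hC₀, ψ, hψ, hψt⟩ := (isCompact_Icc (a := -(T + 2)) (b := T + 2)).tendsto_subseq
    (x := fun k : ℕ => C (N + k)) (fun k => hCmem _ (Nat.le_add_right _ _))
  refine ⟨C₀, ?_⟩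
  -- the test function
  have htest : ∫ ω, bcl (fun y => (|y - C₀| - 2 * e) / e) (by fun_prop) (Y ω) ∂P ≤ 2 * e := by
    have hsub : Tendsto (fun k => N + ψ k) atTop atTop :=
      tendsto_atTop_mono (fun k => Nat.le_add_left _ _) hψ.tendsto_atTop
    refine le_of_tendsto ((hl (bcl (fun y => (|y - C₀| - 2 * e) / e) (by fun_prop))).comp hsub) ?_
    have hclose : ∀ᶠ k in atTop, |C (N + ψ k) - C₀| < e := by
      have := Metric.tendsto_atTop.1 hψt e he0
      obtain ⟨K, hK⟩ := this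
      refine eventually_atTop.2 ⟨K, fun k hk => ?_⟩
      have := hK k hk
      rwa [Real.dist_eq] at this
    filter_upwards [hclose] with k hk
    have := hν (N + ψ k)
    simp only [Function.comp]
    refine integral_bcl_le (ν (N + ψ k)) (measurable_stat hfc c (N + ψ k)) _ _ (by positivity)
      (A := {l | e ≤ |∑ i, f (c * ((N + ψ k : ℕ) : ℝ) * l i) - C (N + ψ k)|}) (fun l hl => ?_)
      (hCν _ (Nat.le_add_right _ _))
    simp only [mem_setOf_eq, not_le] at hl
    apply div_nonpos_of_nonpos_of_nonneg _ he0.le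
    have h3 := abs_sub_le (∑ i, f (c * ((N + ψ k : ℕ) : ℝ) * l i)) (C (N + ψ k)) C₀
    linarith
  have hYP : P {ω | 3 * e ≤ |Y ω - C₀|} ≤ ENNReal.ofReal (2 * e) := by
    refine le_integral_bcl P hYm (fun y => (|y - C₀| - 2 * e) / e) (by fun_prop)
      (fun ω hω => ?_) htest
    simp only [mem_setOf_eq] at hω
    rw [le_div_iff₀ he0]; linarith
  have hsub : {ω | ε ≤ |(∑ᶠ x ∈ X ω, φ x) - C₀|} ⊆
      {ω | 3 * e ≤ |Y ω - C₀|} ∪ {ω | (X ω ∩ Ioo 0 η₂).Nonempty} := by
    intro ω hω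
    by_cases h : (X ω ∩ Ioo 0 η₂).Nonempty
    · exact Or.inr h
    · left
      have hYe : Y ω = ∑ᶠ x ∈ X ω, φ x := by
        refine finsum_mem_congr rfl fun x hx => hfφ x ?_
        by_contra hlt
        exact h ⟨x, hx, hX.pos ω hx, (not_le.1 hlt).trans_le (min_le_right _ _)⟩
      simp only [mem_setOf_eq] at hω ⊢
      rw [hYe]; linarith
  calc P _ ≤ P ({ω | 3 * e ≤ |Y ω - C₀|} ∪ {ω | (X ω ∩ Ioo 0 η₂).Nonempty}) := measure_mono hsub
    _ ≤ _ := measure_union_le _ _
    _ ≤ ENNReal.ofReal (2 * e) + ENNReal.ofReal e := add_le_add hYP hP₂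
    _ = ENNReal.ofReal (3 * e) := by
        rw [← ENNReal.ofReal_add (by positivity) he0.le]; ring_nf
    _ ≤ ENNReal.ofReal ε := ENNReal.ofReal_le_ofReal (by linarith)

end MPe6d203
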