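import Pool.Agent.Lib.MP_e6d203_pr.Basic

/-!
# The transport inequality for the Laguerre ensemble
-/

namespace MPe6d203

open MeasureTheory Set Filter Topology
open scoped ENNReal

theorem lintegral_laguerre (β a : ℝ) {n : ℕ} {A : Set (Fin n → ℝ)} (hA : MeasurableSet A)
    (hAc : A ⊆ chamber n) (g : (Fin n → ℝ) → ℝ≥0∞) :
    ∫⁻ l in A, g l ∂(laguerre β a n) = (laguerreWeight β a n univ)⁻¹ *
      ∫⁻ l in A, ENNReal.ofReal (Real.exp (lw β (alpha β a) l)) * g l := by
  unfold laguerre
  rw [Measure.restrict_smul, lintegral_smul_measure, smul_eq_mul]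
  congr 1
  conv_lhs => unfold laguerreWeight
  rw [setLIntegral_withDensity_eq_setLIntegral_mul_non_measurable _ (by fun_prop) _ hA
    (Eventually.of_forall fun _ => ENNReal.ofReal_lt_top),
    Measure.restrict_restrict hA, inter_eq_left.2 hAc]
  refine setLIntegral_congr_fun hA fun l hl => ?_
  simp only [Pi.mul_apply]
  rw [weight_eq_exp (hAc hl)]

theorem laguerre_apply (β a : ℝ) {n : ℕ} {A : Set (Fin n → ℝ)} (hA : MeasurableSet A)
    (hAc : A ⊆ chamber n) :
    laguerre β a n A = (laguerreWeight β a n univ)⁻¹ *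
      ∫⁻ l in A, ENNReal.ofReal (Real.exp (lw β (alpha β a) l)) := by
  have := lintegral_laguerre β a hA hAc (fun _ => 1)
  simpa using this

theorem transport (β a : ℝ) {n : ℕ} (θ t : Fin n → ℝ) (hθ : ∀ i, 0 < θ i)
    {A A' : Set (Fin n → ℝ)} (hA : MeasurableSet A) (hAc : A ⊆ chamber n)
    (hA' : MeasurableSet A') (hA'c : A' ⊆ chamber n)
    (hmap : ∀ l ∈ A, (fun i => θ i * l i + t i) ∈ A') (R : (Fin n → ℝ) → ℝ)
    (hR : ∀ l ∈ A, R l + lw β (alpha β a) l ≤
      lw β (alpha β a) (fun i => θ i * l i + t i) + ∑ i, Real.log (θ i)) :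
    ∫⁻ l in A, ENNReal.ofReal (Real.exp (R l)) ∂(laguerre β a n) ≤ laguerre β a n A' := by
  rw [lintegral_laguerre β a hA hAc, laguerre_apply β a hA' hA'c]
  refine mul_le_mul_right ?_ _
  have hinj : InjOn (fun u : Fin n → ℝ => fun i => θ i * u i + t i) A := by
    intro u _ v _ huv
    funext i
    have := congrFun huv i
    simp only [add_left_inj] at this
    exact mul_left_cancel₀ (hθ i).ne' this
  have hcv := lintegral_coord (fun i x => θ i * x + t i) (fun i _ => θ i) hA
    (fun u _ i => by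
      simpa using ((hasDerivAt_id (u i)).const_mul (θ i)).add_const (t i)) hinj
    (fun l => ENNReal.ofReal (Real.exp (lw β (alpha β a) l)))
  calc ∫⁻ l in A, ENNReal.ofReal (Real.exp (lw β (alpha β a) l)) * ENNReal.ofReal (Real.exp (R l))
      ≤ ∫⁻ l in A, ENNReal.ofReal |∏ i, θ i| *
          ENNReal.ofReal (Real.exp (lw β (alpha β a) (fun i => θ i * l i + t i))) := by
        refine setLIntegral_mono' hA fun l hl => ?_
        rw [← ENNReal.ofReal_mul (Real.exp_pos _).le, ← ENNReal.ofReal_mul (abs_nonneg _),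
          ← Real.exp_add]
        apply ENNReal.ofReal_le_ofReal
        have hprod : |∏ i, θ i| = Real.exp (∑ i, Real.log (θ i)) := by
          rw [abs_of_pos (Finset.prod_pos fun i _ => hθ i), Real.exp_sum]
          exact Finset.prod_congr rfl fun i _ => (Real.exp_log (hθ i)).symm
        rw [hprod, ← Real.exp_add]
        apply Real.exp_le_exp.2
        have := hR l hl
        linarith
    _ = ∫⁻ x in (fun u : Fin n → ℝ => fun i => θ i * u i + t i) '' A,
          ENNReal.ofReal (Real.exp (lw β (alpha β a) x)) := hcv.symm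
    _ ≤ ∫⁻ x in A', ENNReal.ofReal (Real.exp (lw β (alpha β a) x)) := by
        apply lintegral_mono_set
        rintro _ ⟨l, hl, rfl⟩
        exact hmap l hl

end MPe6d203
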