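import Pool.Agent.Lib.MP_e6d203_pr.Tails

/-!
# Upper tail estimates for the points of the Laguerre ensemble
-/

namespace MPe6d203

open MeasureTheory Set Filter Topology
open scoped ENNReal

theorem combo {Ω : Type*} [MeasurableSpace Ω] (μ : Measure Ω) [IsProbabilityMeasure μ] {A : Set Ω}
    (Q : Ω → ℝ) (hQm : Measurable Q) {p b : ℝ} (hp : 0 ≤ p) (hA : MeasurableSet A)
    (hR : ∫⁻ l in A, ENNReal.ofReal (Real.exp (b - p * Q l)) ∂μ ≤ 1)
    (hQ : ∫⁻ l in A, ENNReal.ofReal (Real.exp (Q l)) ∂μ ≤ μ A) :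
    μ A ≤ ENNReal.ofReal (Real.exp (-b)) := by
  have hpw : ∀ q : ℝ, (1 + p) * Real.exp b ≤
      Real.exp (b - p * q) + p * Real.exp b * Real.exp q := by
    intro q
    have h1 : Real.exp (b - p * q) = Real.exp b * Real.exp (-(p * q)) := by
      rw [← Real.exp_add]; ring_nf
    have h2 := Real.add_one_le_exp (-(p * q))
    have h3 := Real.add_one_le_exp q
    have hb := Real.exp_pos b
    rw [h1]
    have h4 : Real.exp b * (-(p * q) + 1) ≤ Real.exp b * Real.exp (-(p * q)) :=
      mul_le_mul_of_nonneg_left h2 hb.le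
    have h5 : p * Real.exp b * (q + 1) ≤ p * Real.exp b * Real.exp q :=
      mul_le_mul_of_nonneg_left h3 (by positivity)
    nlinarith
  have hmain : ENNReal.ofReal (Real.exp b) * μ A + ENNReal.ofReal (p * Real.exp b) * μ A ≤
      1 + ENNReal.ofReal (p * Real.exp b) * μ A := by
    calc ENNReal.ofReal (Real.exp b) * μ A + ENNReal.ofReal (p * Real.exp b) * μ A
        = ∫⁻ l in A, ENNReal.ofReal ((1 + p) * Real.exp b) ∂μ := by
          rw [setLIntegral_const, ← add_mul, ← ENNReal.ofReal_add (Real.exp_pos b).le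
            (by positivity)]
          congr 2; ring
      _ ≤ ∫⁻ l in A, (ENNReal.ofReal (Real.exp (b - p * Q l)) +
            ENNReal.ofReal (p * Real.exp b) * ENNReal.ofReal (Real.exp (Q l))) ∂μ := by
          refine setLIntegral_mono' hA fun l _ => ?_
          rw [← ENNReal.ofReal_mul (by positivity), ← ENNReal.ofReal_add (Real.exp_pos _).le
            (by positivity)]
          exact ENNReal.ofReal_le_ofReal (hpw (Q l))
      _ = ∫⁻ l in A, ENNReal.ofReal (Real.exp (b - p * Q l)) ∂μ +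
            ENNReal.ofReal (p * Real.exp b) * ∫⁻ l in A, ENNReal.ofReal (Real.exp (Q l)) ∂μ := by
          rw [lintegral_add_right _ (by fun_prop), lintegral_const_mul _ (by fun_prop)]
      _ ≤ 1 + ENNReal.ofReal (p * Real.exp b) * μ A := by gcongr
  have h2 : ENNReal.ofReal (Real.exp b) * μ A ≤ 1 := by
    refine (ENNReal.add_le_add_iff_right ?_).1 hmain
    exact ENNReal.mul_ne_top ENNReal.ofReal_ne_top (measure_ne_top μ A)
  rw [Real.exp_neg, ENNReal.ofReal_inv_of_pos (Real.exp_pos _), ENNReal.le_inv_iff_mul_le,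
      mul_comm]
  exact h2

theorem sum_ite_lt {n : ℕ} (k : Fin n) (c : ℝ) :
    ∑ j : Fin n, (if (j : ℕ) < (k : ℕ) then c else 0) = (k : ℕ) * c := by
  rw [← Finset.sum_filter, Finset.sum_const, nsmul_eq_mul]
  congr 2
  have : Finset.univ.filter (fun j : Fin n => (j : ℕ) < (k : ℕ)) = Finset.Iio k := by
    ext j
    rw [Finset.mem_filter, Finset.mem_Iio, Fin.lt_def]
    simp only [Finset.mem_univ, true_and]
  rw [this, Fin.card_Iio]

theorem sum_pairs_lt {n : ℕ} (k : Fin n) {c : ℝ} (hc : 0 ≤ c) :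
    ∑ i : Fin n, ∑ j ∈ Finset.Ioi i, (if (j : ℕ) < (k : ℕ) then c else 0) ≤
      ((k : ℕ) : ℝ) ^ 2 * c := by
  rw [sum_pairs_swap]
  calc ∑ j : Fin n, ∑ _i ∈ Finset.Iio j, (if (j : ℕ) < (k : ℕ) then c else 0)
      ≤ ∑ j : Fin n, (if (j : ℕ) < (k : ℕ) then ((k : ℕ) : ℝ) * c else 0) := by
        refine Finset.sum_le_sum fun j _ => ?_
        rw [Finset.sum_const, Fin.card_Iio, nsmul_eq_mul]
        split_ifs with h
        · have : ((j : ℕ) : ℝ) ≤ ((k : ℕ) : ℝ) := by exact_mod_cast h.le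
          gcongr
        · simp
    _ = ((k : ℕ) : ℝ) ^ 2 * c := by rw [sum_ite_lt]; ring

theorem sum_ite_between {n : ℕ} {k k' : ℕ} (hkk' : k ≤ k') {c : ℝ} (hc : 0 ≤ c) :
    ∑ j : Fin n, (if k ≤ (j : ℕ) ∧ (j : ℕ) < k' then c else 0) ≤ ((k' : ℝ) - k) * c := by
  rw [← Finset.sum_filter, Finset.sum_const, nsmul_eq_mul]
  refine mul_le_mul_of_nonneg_right ?_ hc
  have h1 : (Finset.univ.filter (fun j : Fin n => k ≤ (j : ℕ) ∧ (j : ℕ) < k')).card ≤
      (Finset.Ico k k').card := by
    refine Finset.card_le_card_of_injOn (fun j : Fin n => (j : ℕ)) ?_ ?_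
    · intro j hj
      simpa using hj
    · intro i _ j _ hij
      exact Fin.ext hij
  rw [Nat.card_Ico] at h1
  rw [← Nat.cast_sub hkk']
  exact_mod_cast h1

/-- the pointwise inequality for the downward transport -/
theorem downshift_ineq {β α : ℝ} (hβ : 0 < β) {n : ℕ} (k : Fin n) (k' : ℕ) (hkk' : (k : ℕ) ≤ k')
    {T : ℝ} (hT : 0 < T) {l : Fin n → ℝ} (hl : l ∈ chamber n) (hTl : T < l k) :
    -Real.log 2 * ((k : ℕ) + β * ((k : ℕ) : ℝ) ^ 2 + |α| * (k : ℕ) +
        (β * (k : ℕ) + |α|) * ((k' : ℝ) - (k : ℕ))) -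
      (β * (k : ℕ) + |α|) * (∑ i : Fin n, if k' ≤ (i : ℕ) then Real.log (1 + T / l i) else 0) +
      β / 4 * (n - (k : ℕ)) * T + lw β α l ≤
    lw β α (fun i => (if (i : ℕ) < (k : ℕ) then 1 / 2 else 1) * l i +
      (if (i : ℕ) < (k : ℕ) then 0 else -(T / 2))) +
    ∑ i : Fin n, Real.log (if (i : ℕ) < (k : ℕ) then 1 / 2 else 1) := by
  have hpos : ∀ i, 0 < l i := hl.1
  have hmono : StrictMono l := hl.2
  have hlog2 : 0 < Real.log 2 := Real.log_pos (by norm_num)
  -- the function v
  obtain ⟨v, hv⟩ : ∃ v : Fin n → ℝ, v = fun j : Fin n =>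
    if (j : ℕ) < k' then -Real.log 2 else -Real.log (1 + T / l j) := ⟨_, rfl⟩
  have hTj : ∀ j : Fin n, (k : ℕ) ≤ (j : ℕ) → T < l j := fun j hj =>
    lt_of_lt_of_le hTl (hmono.monotone (Fin.le_def.2 hj))
  have hvj : ∀ j : Fin n, (k : ℕ) ≤ (j : ℕ) → v j ≤ Real.log (1 - T / (2 * l j)) := by
    intro j hj
    have h1 := hTj j hj
    have h2 := hpos j
    have hx0 : 0 < T / l j := by positivity
    have hx1 : T / l j < 1 := by rw [div_lt_one h2]; exact h1
    have hx2 : T / (2 * l j) = T / l j / 2 := by field_simp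
    rw [hv, hx2]
    dsimp only
    split_ifs with h
    · rw [← Real.log_inv]
      apply Real.log_le_log (by norm_num)
      linarith
    · rw [← Real.log_inv]
      apply Real.log_le_log (by positivity)
      rw [inv_le_iff_one_le_mul₀ (by positivity)]
      nlinarith
  have hv0 : ∀ j : Fin n, (k : ℕ) ≤ (j : ℕ) → Real.log (1 - T / (2 * l j)) ≤ 0 := by
    intro j hj
    have h1 := hTj j hj
    have h2 := hpos j
    have hx1 : T / (2 * l j) < 1 := by rw [div_lt_one (by positivity)]; linarith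
    apply Real.log_nonpos (by linarith)
    have : 0 < T / (2 * l j) := by positivity
    linarith
  -- sum of v
  have hsumv : -Real.log 2 * ((k' : ℝ) - (k : ℕ)) -
      (∑ i : Fin n, if k' ≤ (i : ℕ) then Real.log (1 + T / l i) else 0) ≤
      ∑ j : Fin n, (if (k : ℕ) ≤ (j : ℕ) then v j else 0) := by
    have h1 := sum_ite_between (n := n) hkk' hlog2.le
    have h2 : ∑ j : Fin n, (if (k : ℕ) ≤ (j : ℕ) then v j else 0) =
        -(∑ j : Fin n, (if (k : ℕ) ≤ (j : ℕ) ∧ (j : ℕ) < k' then Real.log 2 else 0)) -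
        (∑ i : Fin n, if k' ≤ (i : ℕ) then Real.log (1 + T / l i) else 0) := by
      rw [← Finset.sum_neg_distrib, ← Finset.sum_sub_distrib]
      refine Finset.sum_congr rfl fun j _ => ?_
      rw [hv]
      dsimp only
      by_cases h3 : (k : ℕ) ≤ (j : ℕ)
      · by_cases h4 : (j : ℕ) < k'
        · rw [if_pos h3, if_pos h4, if_pos ⟨h3, h4⟩, if_neg (by omega)]; ring
        · rw [if_pos h3, if_neg h4, if_neg (by omega), if_pos (by omega)]; ring
      · rw [if_neg h3, if_neg (by omega), if_neg (by omega)]; ring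
    rw [h2]
    linarith
  -- pair terms
  have hpair : ∀ i : Fin n, ∀ j ∈ Finset.Ioi i,
      Real.log (l j - l i) + ((if (i : ℕ) < (k : ℕ) ∧ (k : ℕ) ≤ (j : ℕ) then v j else 0) -
        (if (j : ℕ) < (k : ℕ) then Real.log 2 else 0)) ≤
      Real.log (((if (j : ℕ) < (k : ℕ) then 1 / 2 else 1) * l j +
        (if (j : ℕ) < (k : ℕ) then 0 else -(T / 2))) -
        ((if (i : ℕ) < (k : ℕ) then 1 / 2 else 1) * l i +
        (if (i : ℕ) < (k : ℕ) then 0 else -(T / 2)))) := by
    intro i j hj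
    have hij : i < j := Finset.mem_Ioi.1 hj
    have hij' : (i : ℕ) < j := hij
    have hlt : l i < l j := hmono hij
    have hi := hpos i
    have hj := hpos j
    by_cases h1 : (j : ℕ) < (k : ℕ)
    · rw [if_neg (by omega), if_pos h1, if_pos h1, if_pos h1, if_pos (by omega),
        if_pos (by omega)]
      have : 1 / 2 * l j + 0 - (1 / 2 * l i + 0) = (l j - l i) / 2 := by ring
      rw [this, Real.log_div (by linarith) (by norm_num)]
      linarith
    · by_cases h2 : (i : ℕ) < (k : ℕ)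
      · rw [if_pos ⟨h2, by omega⟩, if_neg h1, if_neg h1, if_neg h1, if_pos h2, if_pos h2]
        have h3 := hvj j (by omega)
        have h4 := hTj j (by omega)
        have hx1 : T / (2 * l j) < 1 := by rw [div_lt_one (by positivity)]; linarith
        have h5 : Real.log (l j - l i) + Real.log (1 - T / (2 * l j)) ≤
            Real.log (1 * l j + -(T / 2) - (1 / 2 * l i + 0)) := by
          rw [← Real.log_mul (by linarith) (by linarith)]
          apply Real.log_le_log
          · exact mul_pos (by linarith) (by linarith)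
          · have h6 : (l j - l i) * (1 - T / (2 * l j)) = l j - T / 2 - l i + l i / 2 * (T / l j) := by
              field_simp; ring
            rw [h6]
            have h7 : T / l j ≤ 1 := by rw [div_le_one hj]; linarith
            nlinarith
        linarith
      · rw [if_neg (by omega), if_neg h1, if_neg h1, if_neg h1, if_neg h2, if_neg h2]
        have : 1 * l j + -(T / 2) - (1 * l i + -(T / 2)) = l j - l i := by ring
        rw [this]
        linarith
  have h1 : (∑ i : Fin n, ∑ j ∈ Finset.Ioi i, Real.log (l j - l i)) +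
      (∑ j : Fin n, (if (k : ℕ) ≤ (j : ℕ) then ((k : ℕ) : ℝ) * v j else 0) -
        ((k : ℕ) : ℝ) ^ 2 * Real.log 2) ≤
      ∑ i : Fin n, ∑ j ∈ Finset.Ioi i,
        Real.log (((if (j : ℕ) < (k : ℕ) then 1 / 2 else 1) * l j +
        (if (j : ℕ) < (k : ℕ) then 0 else -(T / 2))) -
        ((if (i : ℕ) < (k : ℕ) then 1 / 2 else 1) * l i +
        (if (i : ℕ) < (k : ℕ) then 0 else -(T / 2)))) := by
    have h2 := sum_pairs_lt k hlog2.le
    have h3 := sum_pairs_cross v (k : ℕ)
    have h4 : ∑ i : Fin n, ∑ j ∈ Finset.Ioi i, (Real.log (l j - l i) +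
        ((if (i : ℕ) < (k : ℕ) ∧ (k : ℕ) ≤ (j : ℕ) then v j else 0) -
        (if (j : ℕ) < (k : ℕ) then Real.log 2 else 0))) ≤
        ∑ i : Fin n, ∑ j ∈ Finset.Ioi i,
        Real.log (((if (j : ℕ) < (k : ℕ) then 1 / 2 else 1) * l j +
        (if (j : ℕ) < (k : ℕ) then 0 else -(T / 2))) -
        ((if (i : ℕ) < (k : ℕ) then 1 / 2 else 1) * l i +
        (if (i : ℕ) < (k : ℕ) then 0 else -(T / 2)))) :=
      Finset.sum_le_sum fun i _ => Finset.sum_le_sum fun j hj => hpair i j hj
    simp only [Finset.sum_add_distrib, Finset.sum_sub_distrib] at h4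
    linarith
  have h2 : (∑ i, (α * Real.log (l i) - β / 2 * l i)) +
      ((∑ j : Fin n, (if (k : ℕ) ≤ (j : ℕ) then |α| * v j else 0)) -
        ((k : ℕ) : ℝ) * (|α| * Real.log 2) +
        β / 4 * (n - (k : ℕ)) * T) ≤
      ∑ i : Fin n, (α * Real.log ((if (i : ℕ) < (k : ℕ) then 1 / 2 else 1) * l i +
        (if (i : ℕ) < (k : ℕ) then 0 else -(T / 2))) -
        β / 2 * ((if (i : ℕ) < (k : ℕ) then 1 / 2 else 1) * l i +
        (if (i : ℕ) < (k : ℕ) then 0 else -(T / 2)))) := by
    have hA : β / 4 * (n - (k : ℕ)) * T =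
        ∑ i : Fin n, (β / 4 * T - (if (i : ℕ) < (k : ℕ) then β / 4 * T else 0)) := by
      rw [Finset.sum_sub_distrib, sum_ite_lt, Finset.sum_const, Finset.card_univ,
        Fintype.card_fin, nsmul_eq_mul]; ring
    rw [hA, ← sum_ite_lt k (|α| * Real.log 2), ← Finset.sum_sub_distrib, ← Finset.sum_add_distrib,
      ← Finset.sum_add_distrib]
    refine Finset.sum_le_sum fun i _ => ?_
    have hi := hpos i
    have hαa := abs_nonneg α
    have hα1 := le_abs_self α
    have hα2 := neg_abs_le α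
    by_cases h : (i : ℕ) < (k : ℕ)
    · rw [if_neg (by omega), if_pos h, if_pos h, if_pos h, if_pos h]
      have h3 : 1 / 2 * l i + 0 = l i / 2 := by ring
      rw [h3, Real.log_div hi.ne' (by norm_num)]
      nlinarith [mul_pos hβ hi]
    · rw [if_pos (by omega), if_neg h, if_neg h, if_neg h, if_neg h]
      have h4 := hTj i (by omega)
      have h5 := hvj i (by omega)
      have h6 := hv0 i (by omega)
      have hx1 : T / (2 * l i) < 1 := by rw [div_lt_one (by positivity)]; linarith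
      have h3 : 1 * l i + -(T / 2) = l i * (1 - T / (2 * l i)) := by field_simp; ring
      rw [h3, Real.log_mul hi.ne' (by linarith)]
      have h7 : |α| * v i ≤ α * Real.log (1 - T / (2 * l i)) := by
        have : |α| * v i ≤ |α| * Real.log (1 - T / (2 * l i)) :=
          mul_le_mul_of_nonneg_left h5 hαa
        nlinarith
      have h8 : l i * (1 - T / (2 * l i)) = l i - T / 2 := by field_simp
      have h9 : β / 2 * (l i * (1 - T / (2 * l i))) = β / 2 * l i - β / 4 * T := by
        rw [h8]; ring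
      rw [h9]
      linarith
  have h5 : ∑ i : Fin n, Real.log (if (i : ℕ) < (k : ℕ) then 1 / 2 else 1) =
      ((k : ℕ) : ℝ) * (-Real.log 2) := by
    rw [← sum_ite_lt k (-Real.log 2)]
    refine Finset.sum_congr rfl fun i _ => ?_
    split_ifs
    · rw [one_div, Real.log_inv]
    · simp
  have h6 : (∑ j : Fin n, (if (k : ℕ) ≤ (j : ℕ) then ((k : ℕ) : ℝ) * v j else 0)) =
      ((k : ℕ) : ℝ) * ∑ j : Fin n, (if (k : ℕ) ≤ (j : ℕ) then v j else 0) := by
    rw [Finset.mul_sum]
    refine Finset.sum_congr rfl fun i _ => ?_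
    split_ifs <;> simp
  have h7 : (∑ j : Fin n, (if (k : ℕ) ≤ (j : ℕ) then |α| * v j else 0)) =
      |α| * ∑ j : Fin n, (if (k : ℕ) ≤ (j : ℕ) then v j else 0) := by
    rw [Finset.mul_sum]
    refine Finset.sum_congr rfl fun i _ => ?_
    split_ifs <;> simp
  unfold lw
  rw [h5]
  rw [h6] at h1
  rw [h7] at h2
  have hk0 : (0 : ℝ) ≤ ((k : ℕ) : ℝ) := Nat.cast_nonneg _
  have h8 := mul_le_mul_of_nonneg_left h1 hβ.le
  have h9 : 0 ≤ β * (k : ℕ) + |α| := by positivity
  have h10 := mul_le_mul_of_nonneg_left hsumv h9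
  nlinarith [h8, h2, h10]

end MPe6d203
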